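import Pool.Agent.V8H90.JT.Final

/-!
The number of hyperplanes.
-/

set_option autoImplicit false

namespace Pool.Agent.V8H90.JT

/-- The inequalities which are needed for `q` hyperplanes in projective `n`-space with the
multiplicity `m`: there are numbers `k ≥ 1` (the order of the jets), `d` (the degree of a form in
`(k + 1) (n + 1)` variables), and `q0`. -/
def Enough (n m q : ℕ) : Prop :=
  ∃ k d q0 : ℕ, 1 ≤ k ∧ n + 1 ≤ d ∧ d * m + k * q0 < m * q0 ∧
    q0 * ((k + 1) * n + d - 1).choose d < ((k + 1) * (n + 1) + d - 1).choose d ∧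
    q0 + (k + 1) * (n + 1) ≤ q

theorem enough_pos {n m q : ℕ} (h : Enough n m q) : 1 ≤ m := by
  obtain ⟨k, d, q0, h1, h2, h3, -⟩ := h
  rcases Nat.eq_zero_or_pos m with h0 | h0
  · rw [h0] at h3
    simp at h3
  · exact h0

theorem count_one {n d q0 : ℕ} (hn : 1 ≤ n)
    (h : q0 * (2 * n * (2 * n + 1)) < (2 * n + d) * (2 * n + d + 1)) :
    q0 * (2 * n + d - 1).choose d < (2 * (n + 1) + d - 1).choose d := by
  have e1 := Nat.ascFactorial_eq_factorial_mul_choose' (2 * n) d
  have e2 := Nat.ascFactorial_eq_factorial_mul_choose' (2 * (n + 1)) d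
  have s1 := Nat.succ_ascFactorial (2 * n) d
  have s2 := Nat.succ_ascFactorial (2 * n + 1) d
  have hd := Nat.factorial_pos d
  have hpos : 0 < (2 * n).ascFactorial d := by
    obtain ⟨n', rfl⟩ : ∃ n', n = n' + 1 := ⟨n - 1, by omega⟩
    exact Nat.ascFactorial_pos (2 * n' + 1) d
  have e3 : 2 * (n + 1) = (2 * n + 1).succ := by omega
  rw [← e3] at s2
  rw [← Nat.succ_eq_add_one (2 * n)] at s2
  set A := (2 * n).ascFactorial d with hA
  set B := (2 * n).succ.ascFactorial d with hB
  set D := (2 * (n + 1)).ascFactorial d with hD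
  have h1 : (2 * n * (2 * n + 1)) * D = (2 * n + d) * (2 * n + d + 1) * A := by
    calc (2 * n * (2 * n + 1)) * D = 2 * n * ((2 * n).succ * D) := by
          rw [Nat.succ_eq_add_one]; ring
      _ = 2 * n * (((2 * n).succ + d) * B) := by rw [s2]
      _ = ((2 * n).succ + d) * (2 * n * B) := by ring
      _ = ((2 * n).succ + d) * ((2 * n + d) * A) := by rw [s1]
      _ = _ := by rw [Nat.succ_eq_add_one]; ring
  have h2 : (2 * n * (2 * n + 1)) * (q0 * A) < (2 * n * (2 * n + 1)) * D := by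
    rw [h1]
    calc (2 * n * (2 * n + 1)) * (q0 * A) = (q0 * (2 * n * (2 * n + 1))) * A := by ring
      _ < _ := Nat.mul_lt_mul_of_pos_right h hpos
  have h3 : q0 * A < D := Nat.lt_of_mul_lt_mul_left h2
  rw [e1, e2] at h3
  have h4 : d.factorial * (q0 * (2 * n + d - 1).choose d) <
      d.factorial * (2 * (n + 1) + d - 1).choose d := by
    calc d.factorial * (q0 * (2 * n + d - 1).choose d) =
        q0 * (d.factorial * (2 * n + d - 1).choose d) := by ring
      _ < _ := h3
  exact Nat.lt_of_mul_lt_mul_left h4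

/-- jets of order one -/
theorem enough_one {n m q : ℕ} (hn : 1 ≤ n) (hm : 2 ≤ m)
    (h : 4 * m ^ 2 * n ^ 2 + 2 * n ≤ (m - 1) ^ 2 * (q - 3)) : Enough n m q := by
  obtain ⟨M, rfl⟩ : ∃ M, m = M + 1 := ⟨m - 1, by omega⟩
  have hM : 1 ≤ M := by omega
  rw [Nat.add_sub_cancel] at h
  have hq3 : 3 ≤ q := by
    by_contra hcon
    push Not at hcon
    rw [Nat.sub_eq_zero_of_le (by omega), mul_zero] at h
    have : 0 < 4 * (M + 1) ^ 2 * n ^ 2 := by positivity
    omega
  obtain ⟨Q, rfl⟩ : ∃ Q, q = Q + 3 := ⟨q - 3, by omega⟩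
  rw [Nat.add_sub_cancel] at h
  set A := (M + 1) * (4 * n ^ 2 + 2 * n) with hA
  set D := A / M with hD
  have hD1 : M * D ≤ A := Nat.mul_div_le A M
  have hD2 : A < M * (D + 1) := Nat.lt_mul_div_succ A (by omega)
  have hD3 : 4 * n ^ 2 + 2 * n ≤ D := by
    rw [hD, Nat.le_div_iff_mul_le (by omega)]
    rw [hA]
    nlinarith
  have hn2 : n ≤ n ^ 2 := by nlinarith
  obtain ⟨d, hd⟩ : ∃ d, D = d + 4 * n := ⟨D - 4 * n, by omega⟩
  have hdn : n + 1 ≤ d := by omega
  set q0 := d * (M + 1) / M + 1 with hq0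
  have h1 : d * (M + 1) < M * q0 := Nat.lt_mul_div_succ _ (by omega)
  have h2 : M * q0 ≤ d * (M + 1) + M := by
    rw [hq0, mul_add, mul_one]
    exact Nat.add_le_add_right (Nat.mul_div_le _ _) _
  refine ⟨1, d, q0, le_rfl, hdn, ?_, ?_, ?_⟩
  · nlinarith
  · apply count_one hn
    have h3 : M * (q0 * (2 * n * (2 * n + 1))) < M * ((2 * n + d) * (2 * n + d + 1)) := by
      calc M * (q0 * (2 * n * (2 * n + 1))) = (M * q0) * (4 * n ^ 2 + 2 * n) := by ring
        _ ≤ (d * (M + 1) + M) * (4 * n ^ 2 + 2 * n) := Nat.mul_le_mul_right _ h2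
        _ = d * A + M * (4 * n ^ 2 + 2 * n) := by rw [hA]; ring
        _ < d * (M * (D + 1)) + M * (4 * n ^ 2 + 2 * n) :=
          Nat.add_lt_add_right (Nat.mul_lt_mul_of_pos_left hD2 (by omega)) _
        _ = M * ((2 * n + d) * (2 * n + d + 1)) := by rw [hd]; ring
    exact Nat.lt_of_mul_lt_mul_left h3
  · have h3 : M ^ 2 * q0 + 4 * n * M * (M + 1) ≤ (M + 1) * A + M ^ 2 := by
      have h4 : M * (M * q0) ≤ M * (d * (M + 1) + M) := Nat.mul_le_mul_left _ h2
      have h5 : (M + 1) * (M * d + 4 * n * M) ≤ (M + 1) * A := by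
        apply Nat.mul_le_mul_left
        calc M * d + 4 * n * M = M * D := by rw [hd]; ring
          _ ≤ A := hD1
      nlinarith
    have h6 : M ^ 2 * (q0 + 2 * (n + 1)) ≤ M ^ 2 * (Q + 3) := by
      have h7 : (M + 1) * A = (M + 1) ^ 2 * (4 * n ^ 2 + 2 * n) := by rw [hA]; ring
      nlinarith
    have hM2 : 0 < M ^ 2 := by positivity
    have h8 := Nat.le_of_mul_le_mul_left h6 hM2
    simpa using h8

theorem choose_double {x d : ℕ} (hd1 : 1 ≤ d) (h : x ≤ d) :
    2 * (x + d - 1).choose d ≤ (x + 1 + d - 1).choose d := by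
  have e1 := Nat.ascFactorial_eq_factorial_mul_choose' x d
  have e2 := Nat.ascFactorial_eq_factorial_mul_choose' (x + 1) d
  have s1 := Nat.succ_ascFactorial x d
  have hd := Nat.factorial_pos d
  rcases Nat.eq_zero_or_pos x with hx | hx
  · subst hx
    rw [Nat.choose_eq_zero_of_lt (by omega)]
    simp
  · rw [Nat.succ_eq_add_one] at s1
    have h1 : x * (2 * x.ascFactorial d) ≤ x * (x + 1).ascFactorial d := by
      rw [s1]
      nlinarith [Nat.mul_le_mul_right (x.ascFactorial d) h]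
    have h2 := Nat.le_of_mul_le_mul_left h1 hx
    rw [e1, e2] at h2
    have h3 : d.factorial * (2 * (x + d - 1).choose d) ≤
        d.factorial * (x + 1 + d - 1).choose d := by
      calc d.factorial * (2 * (x + d - 1).choose d) =
          2 * (d.factorial * (x + d - 1).choose d) := by ring
        _ ≤ _ := h2
    exact Nat.le_of_mul_le_mul_left h3 hd

theorem choose_pow {x d K : ℕ} (hd : 1 ≤ d) (h : x + K ≤ d + 1) :
    2 ^ K * (x + d - 1).choose d ≤ (x + K + d - 1).choose d := by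
  induction K with
  | zero => simp
  | succ K ih =>
    have h1 := ih (by omega)
    have h2 := choose_double (x := x + K) hd (by omega)
    calc 2 ^ (K + 1) * (x + d - 1).choose d = 2 * (2 ^ K * (x + d - 1).choose d) := by
          rw [pow_succ]; ring
      _ ≤ 2 * (x + K + d - 1).choose d := Nat.mul_le_mul_left 2 h1
      _ ≤ _ := by
        rw [← add_assoc]
        exact h2

/-- jets of higher order -/
theorem enough_log {n m k q : ℕ} (hk : 1 ≤ k) (hm : 2 * k ≤ m)
    (h1 : (k + 1) * (n + 1) < 2 ^ k) (h2 : 3 * ((k + 1) * (n + 1)) < q) : Enough n m q := by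
  obtain ⟨d, hd⟩ : ∃ d, d = (k + 1) * (n + 1) := ⟨_, rfl⟩
  have hd1 : n + 1 ≤ d := by
    rw [hd]
    exact Nat.le_mul_of_pos_left _ (by omega)
  refine ⟨k, d, 2 * d + 1, hk, hd1, ?_, ?_, ?_⟩
  · have h3 : 2 * k * (d + 1) ≤ m * (d + 1) := Nat.mul_le_mul_right _ hm
    nlinarith
  · have h3 := choose_pow (x := (k + 1) * n) (d := d) (K := k + 1) (by omega) (by
      rw [hd]
      ring_nf
      omega)
    have e : (k + 1) * n + (k + 1) + d - 1 = (k + 1) * (n + 1) + d - 1 := by
      have : (k + 1) * (n + 1) = (k + 1) * n + (k + 1) := by ring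
      omega
    rw [e] at h3
    have h4 : 2 * d + 1 < 2 ^ (k + 1) := by
      rw [pow_succ, hd]
      omega
    rcases Nat.eq_zero_or_pos (((k + 1) * n + d - 1).choose d) with h5 | h5
    · rw [h5, mul_zero]
      exact Nat.choose_pos (by rw [← hd]; omega)
    · calc (2 * d + 1) * ((k + 1) * n + d - 1).choose d <
          2 ^ (k + 1) * ((k + 1) * n + d - 1).choose d := Nat.mul_lt_mul_of_pos_right h4 h5
        _ ≤ _ := h3
  · rw [← hd]
    rw [← hd] at h2
    omega

end Pool.Agent.V8H90.JT
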