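import Pool.Agent.V8H90.JT.Gen

/-!
Few numbers make few hyperplanes of a generic arrangement dependent.
-/

set_option autoImplicit false

namespace Pool.Agent.V8H90.JT

open Set IntermediateField.algebraAdjoinAdjoin

/-- Let the coordinates of `q` vectors be algebraically independent, and let `p` be a finite family
of numbers. The coordinates of all but at most `card τ` of the vectors are algebraically
independent over a field which contains the numbers `p t`. -/
theorem exists_sel {L : Type} [Field L] [CharZero L] {q q0 n : ℕ} {τ : Type} [Fintype τ]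
    {ℓ : Fin q → Fin (n + 1) → L}
    (hℓ : AlgebraicIndependent ℚ fun y : Fin q × Fin (n + 1) => ℓ y.1 y.2) (p : τ → L)
    (hq : q0 + Fintype.card τ ≤ q) :
    ∃ (F : Type) (_ : Field F) (_ : CharZero F) (_ : Algebra F L) (p' : τ → F)
      (s : Fin q0 → Fin q), (∀ t, algebraMap F L (p' t) = p t) ∧ Function.Injective s ∧
        AlgebraicIndependent F fun y : Fin q0 × Fin (n + 1) => ℓ (s y.1) y.2 := by
  classical
  set M := AlgebraicIndependent.matroid ℚ L with hM
  set P : Set L := range p with hP
  set f : Fin q × Fin (n + 1) → L := fun y => ℓ y.1 y.2 with hf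
  have hfinj : Function.Injective f := hℓ.injective
  set Y : Set L := range f with hY
  have hYi : M.Indep Y := by
    rw [hM, AlgebraicIndependent.matroid_indep_iff]
    exact hℓ.to_subtype_range
  obtain ⟨P0, hP0⟩ := M.exists_isBasis P
  have hP0P : P0 ⊆ P := hP0.subset
  have hPfin : P.Finite := finite_range p
  have hP0fin : P0.Finite := hPfin.subset hP0P
  have hYfin : Y.Finite := finite_range f
  obtain ⟨B, hB, hPB⟩ := hP0.indep.subset_isBasis_of_subset (X := P0 ∪ Y) subset_union_left
  have hBfin : B.Finite := (hP0fin.union hYfin).subset hB.subset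
  have hBY : B \ P0 ⊆ Y := fun b hb => (hB.subset hb.1).resolve_left hb.2
  -- counting
  have hcard : Y.ncard ≤ B.ncard := by
    have h1 := hYi.encard_le_eRk_of_subset (X := P0 ∪ Y) subset_union_right
    rw [hB.eRk_eq_encard, ← hYfin.cast_ncard_eq, ← hBfin.cast_ncard_eq] at h1
    exact_mod_cast h1
  have hP0c : P0.ncard ≤ Fintype.card τ := by
    refine (ncard_le_ncard hP0P hPfin).trans ?_
    rw [hP, ← image_univ]
    refine (ncard_image_le finite_univ).trans ?_
    rw [ncard_univ, Nat.card_eq_fintype_card]
  have hBd : (B \ P0).ncard + P0.ncard = B.ncard := ncard_sdiff_add_ncard_of_subset hPB hBfin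
  have hYd : (Y \ (B \ P0)).ncard + (B \ P0).ncard = Y.ncard :=
    ncard_sdiff_add_ncard_of_subset hBY hYfin
  have hmiss : (Y \ (B \ P0)).ncard ≤ Fintype.card τ := by omega
  -- the good indices
  set G : Finset (Fin q) := Finset.univ.filter fun i => ∀ j, f (i, j) ∈ B \ P0 with hG
  have hGc : q0 ≤ G.card := by
    have h1 : Gᶜ.card ≤ Fintype.card τ := by
      have h2 : ∀ i ∈ Gᶜ, ∃ j, f (i, j) ∉ B \ P0 := by
        intro i hi
        rw [Finset.mem_compl, hG, Finset.mem_filter] at hi
        push Not at hi
        exact hi (Finset.mem_univ i)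
      choose! c hc using h2
      have h3 : Gᶜ.card ≤ (hYfin.subset (sdiff_subset (s := Y) (t := B \ P0))).toFinset.card := by
        refine Finset.card_le_card_of_injOn (fun i => f (i, c i)) ?_ ?_
        · intro i hi
          rw [Finset.mem_coe, Finite.mem_toFinset]
          exact ⟨⟨_, rfl⟩, hc i hi⟩
        · intro i _ i' _ h
          exact congrArg Prod.fst (hfinj h)
      rw [← ncard_eq_toFinset_card _ (hYfin.subset sdiff_subset)] at h3
      exact h3.trans hmiss
    have h2 := Finset.card_add_card_compl G
    rw [Fintype.card_fin] at h2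
    omega
  obtain ⟨G', hG', hG'c⟩ := Finset.exists_subset_card_eq hGc
  set s : Fin q0 → Fin q := fun a => (G'.equivFin.symm (Fin.cast hG'c.symm a)).1 with hs
  have hsinj : Function.Injective s := fun a b h =>
    Fin.cast_injective _ (G'.equivFin.symm.injective (Subtype.ext h))
  have hsG : ∀ a j, f (s a, j) ∈ B \ P0 := by
    intro a
    have h1 := hG' (G'.equivFin.symm (Fin.cast hG'c.symm a)).2
    rw [hG, Finset.mem_filter] at h1
    exact h1.2
  -- the field
  set F0 := IntermediateField.adjoin ℚ P0 with hF0
  set F := algebraicClosure F0 L with hF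
  have hBi : AlgebraicIndependent ℚ ((↑) : B → L) := hB.indep
  have h1 : AlgebraicIndependent ℚ (Sum.elim (fun y : Fin q0 × Fin (n + 1) => f (s y.1, y.2))
      ((↑) : P0 → L)) := by
    have h2 := hBi.comp (Sum.elim (fun y : Fin q0 × Fin (n + 1) =>
      (⟨f (s y.1, y.2), (hsG y.1 y.2).1⟩ : B)) fun x : P0 => ⟨x.1, hPB x.2⟩) ?_
    · convert h2 using 1
      funext x
      rcases x with x | x <;> rfl
    · rintro (x | x) (y | y) h
      · have h3 := hfinj (congrArg Subtype.val h)
        have h4 := congrArg Prod.fst h3
        have h5 := congrArg Prod.snd h3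
        exact congrArg Sum.inl (Prod.ext (hsinj h4) h5)
      · exfalso
        have h3 : f (s x.1, x.2) = y.1 := congrArg Subtype.val h
        exact (hsG x.1 x.2).2 (by rw [h3]; exact y.2)
      · exfalso
        have h3 : x.1 = f (s y.1, y.2) := congrArg Subtype.val h
        exact (hsG y.1 y.2).2 (by rw [← h3]; exact x.2)
      · have h3 : x.1 = y.1 := congrArg (Subtype.val : B → L) h
        exact congrArg Sum.inr (Subtype.ext h3)
  have h2 := (AlgebraicIndependent.sumElim_iff.mp h1).2
  rw [Subtype.range_coe_subtype, ofPred_mem_eq] at h2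
  have h3 : AlgebraicIndependent F0 fun y : Fin q0 × Fin (n + 1) => f (s y.1, y.2) :=
    h2.extendScalars _
  have h4 : AlgebraicIndependent F fun y : Fin q0 × Fin (n + 1) => f (s y.1, y.2) :=
    h3.algebraicClosure
  have h5 : ∀ t, p t ∈ F := by
    intro t
    have h6 := (AlgebraicIndependent.matroid_isBasis_iff.mp hP0).2.2 (p t) ⟨t, rfl⟩
    rw [hF, mem_algebraicClosure_iff]
    exact h6.extendScalars (FaithfulSMul.algebraMap_injective _ _)
  exact ⟨F, inferInstance, inferInstance, inferInstance, fun t => ⟨p t, h5 t⟩, s, fun t => rfl,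
    hsinj, h4⟩

end Pool.Agent.V8H90.JT
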