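import Pool.Agent.V8H90.JT.Jet

/-!
Bounds and orders of vanishing of polynomials all of whose monomials contain enough variables.
-/

set_option autoImplicit false

namespace Pool.Agent.V8H90.JT

open MvPolynomial Filter Metric Real Set Topology Pool.Agent.H159R3.NV Pool.Agent.W602.NC
  Pool.Agent.W602.TL Pool.Agent.W601.SM

variable {k n : ℕ}

/-- all monomials contain a variable with any given second index -/
def Pos (Q : MvPolynomial (Fin (k + 1) × Fin (n + 1)) ℂ) : Prop :=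
  ∀ s ∈ Q.support, ∀ c, ∃ m, s (m, c) ≠ 0

theorem sum_row_pos {Q : MvPolynomial (Fin (k + 1) × Fin (n + 1)) ℂ} (hQ : Pos Q)
    {s : Fin (k + 1) × Fin (n + 1) →₀ ℕ} (hs : s ∈ Q.support) (c : Fin (n + 1)) :
    1 ≤ ∑ m, s (m, c) := by
  obtain ⟨m, hm⟩ := hQ s hs c
  exact (Nat.one_le_iff_ne_zero.mpr hm).trans
    (Finset.single_le_sum (f := fun m => s (m, c)) (fun _ _ => Nat.zero_le _) (Finset.mem_univ m))

theorem sum_rows {Q : MvPolynomial (Fin (k + 1) × Fin (n + 1)) ℂ} {d : ℕ} (hd : Q.IsHomogeneous d)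
    {s : Fin (k + 1) × Fin (n + 1) →₀ ℕ} (hs : s ∈ Q.support) : ∑ c, ∑ m, s (m, c) = d := by
  have h1 := hd (mem_support_iff.mp hs)
  have h2 : s.degree = d := by
    rw [Finsupp.degree_eq_weight_one]
    exact h1
  rw [Finsupp.degree_eq_sum, Fintype.sum_prod_type_right] at h2
  exact h2

/-- the bound -/
theorem pos_bound {Q : MvPolynomial (Fin (k + 1) × Fin (n + 1)) ℂ} (hQ : Pos Q) {d : ℕ}
    (hd : Q.IsHomogeneous d) :
    ∃ C : ℝ, 1 ≤ C ∧ ∀ (w : Fin (k + 1) × Fin (n + 1) → ℂ) (y : Fin (n + 1) → ℝ) (T : ℝ),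
      (∀ m c, ‖w (m, c)‖ ≤ y c) → (∀ c, y c ≤ T) →
      ‖eval w Q‖ ≤ C * (∏ c, y c) * T ^ (d - (n + 1)) := by
  refine ⟨1 + ∑ s ∈ Q.support, ‖coeff s Q‖, ?_, ?_⟩
  · have : 0 ≤ ∑ s ∈ Q.support, ‖coeff s Q‖ := Finset.sum_nonneg fun _ _ => norm_nonneg _
    linarith
  intro w y T hw hy
  have hy0 : ∀ c, 0 ≤ y c := fun c => (norm_nonneg _).trans (hw 0 c)
  have hT0 : 0 ≤ T := (hy0 0).trans (hy 0)
  have hB : 0 ≤ (∏ c, y c) * T ^ (d - (n + 1)) :=
    mul_nonneg (Finset.prod_nonneg fun c _ => hy0 c) (pow_nonneg hT0 _)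
  have key : ∀ s ∈ Q.support, ‖∏ x, w x ^ s x‖ ≤ (∏ c, y c) * T ^ (d - (n + 1)) := by
    intro s hs
    rw [norm_prod, Fintype.prod_prod_type_right]
    have h1 : ∀ c, ∏ m, ‖w (m, c) ^ s (m, c)‖ ≤ y c * T ^ (∑ m, s (m, c) - 1) := by
      intro c
      calc ∏ m, ‖w (m, c) ^ s (m, c)‖ ≤ ∏ m, y c ^ s (m, c) := by
            refine Finset.prod_le_prod (fun _ _ => norm_nonneg _) fun m _ => ?_
            rw [norm_pow]
            exact pow_le_pow_left₀ (norm_nonneg _) (hw m c) _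
        _ = y c ^ (∑ m, s (m, c)) := Finset.prod_pow_eq_pow_sum _ _ _
        _ = y c * y c ^ (∑ m, s (m, c) - 1) := by
            rw [← pow_succ', Nat.sub_add_cancel (sum_row_pos hQ hs c)]
        _ ≤ y c * T ^ (∑ m, s (m, c) - 1) :=
            mul_le_mul_of_nonneg_left (pow_le_pow_left₀ (hy0 c) (hy c) _) (hy0 c)
    refine (Finset.prod_le_prod (fun c _ => Finset.prod_nonneg fun _ _ => norm_nonneg _)
      fun c _ => h1 c).trans (le_of_eq ?_)
    rw [Finset.prod_mul_distrib, Finset.prod_pow_eq_pow_sum]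
    congr 2
    have h2 : ∑ c, (∑ m, s (m, c) - 1) + (n + 1) = d := by
      have h3 : ∑ c : Fin (n + 1), (∑ m, s (m, c) - 1) + ∑ _c : Fin (n + 1), 1 = d := by
        rw [← sum_rows hd hs, ← Finset.sum_add_distrib]
        exact Finset.sum_congr rfl fun c _ => Nat.sub_add_cancel (sum_row_pos hQ hs c)
      simpa using h3
    omega
  rw [eval_eq']
  calc ‖∑ s ∈ Q.support, coeff s Q * ∏ i, w i ^ s i‖
      ≤ ∑ s ∈ Q.support, ‖coeff s Q‖ * ((∏ c, y c) * T ^ (d - (n + 1))) := by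
        refine (norm_sum_le _ _).trans (Finset.sum_le_sum fun s hs => ?_)
        rw [norm_mul]
        exact mul_le_mul_of_nonneg_left (key s hs) (norm_nonneg _)
    _ = (∑ s ∈ Q.support, ‖coeff s Q‖) * ((∏ c, y c) * T ^ (d - (n + 1))) := by
        rw [Finset.sum_mul]
    _ ≤ (1 + ∑ s ∈ Q.support, ‖coeff s Q‖) * ((∏ c, y c) * T ^ (d - (n + 1))) :=
        mul_le_mul_of_nonneg_right (by linarith) hB
    _ = _ := by ring

/-- the order of vanishing -/
theorem pos_order {Q : MvPolynomial (Fin (k + 1) × Fin (n + 1)) ℂ} (hQ : Pos Q)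
    (w : Fin (k + 1) × Fin (n + 1) → ℂ → ℂ) (z : ℂ) (hw : ∀ x, AnalyticAt ℂ (w x) z)
    (a : Fin (n + 1) → ℕ) (h : ∀ m c, (a c : ℕ∞) ≤ analyticOrderAt (w (m, c)) z) :
    ((∑ c, a c : ℕ) : ℕ∞) ≤ analyticOrderAt (fun t => eval (fun x => w x t) Q) z := by
  have e : (fun t => eval (fun x => w x t) Q) =
      fun t => ∑ s ∈ Q.support, coeff s Q * ∏ x, w x t ^ s x := by
    funext t
    rw [eval_eq']
  rw [e]
  apply le_order_sum
  intro s hs
  have h2 : (fun t => coeff s Q * ∏ x, w x t ^ s x) =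
      (fun _ => coeff s Q) * fun t => ∏ x, w x t ^ s x := rfl
  rw [h2, analyticOrderAt_mul analyticAt_const
    (Finset.analyticAt_fun_prod _ fun x _ => (hw x).fun_pow _)]
  refine le_trans ?_ le_add_self
  have h3 : ((∑ x : Fin (k + 1) × Fin (n + 1), s x * a x.2 : ℕ) : ℕ∞) ≤
      analyticOrderAt (fun t => ∏ x, w x t ^ s x) z := by
    refine le_order_prod Finset.univ (fun x t => w x t ^ s x) z (fun x => s x * a x.2)
      (fun x _ => (hw x).fun_pow _) fun x _ => ?_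
    exact ord_pow_ge (hw x) (h x.1 x.2) (s x)
  refine le_trans ?_ h3
  rw [Fintype.sum_prod_type_right]
  have h4 : ∑ c, a c ≤ ∑ c, ∑ m, s (m, c) * a c := by
    refine Finset.sum_le_sum fun c _ => ?_
    rw [← Finset.sum_mul]
    exact Nat.le_mul_of_pos_left _ (sum_row_pos hQ hs c)
  exact_mod_cast h4

section coords

variable {N : ℕ} (ℓ : Fin N → Fin (n + 1) → ℂ) (σ : Fin (n + 1) → Fin N)

/-- the matrix of some of the linear forms -/
noncomputable def Mx : Matrix (Fin (n + 1)) (Fin (n + 1)) ℂ := Matrix.of fun c j => ℓ (σ c) j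

/-- the polynomial in the coordinates given by some of the linear forms -/
noncomputable def Qx (R : MvPolynomial (Fin (k + 1) × Fin (n + 1)) ℂ) :
    MvPolynomial (Fin (k + 1) × Fin (n + 1)) ℂ := bind₁ (chg fun i j => (Mx ℓ σ)⁻¹ i j) R

variable {ℓ σ}

theorem Qx_pos (hdet : (Mx ℓ σ).det ≠ 0) {R : MvPolynomial (Fin (k + 1) × Fin (n + 1)) ℂ}
    (hR : ∀ i, Van (ℓ i) R) : Pos (Qx ℓ σ R) := by
  intro s hs c
  refine exists_pos c (fun w hw => ?_) hs
  unfold Qx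
  rw [eval_chg]
  apply hR (σ c)
  intro m
  have h1 : (Mx ℓ σ * (Mx ℓ σ)⁻¹) = 1 := Matrix.mul_nonsing_inv _ (isUnit_iff_ne_zero.mpr hdet)
  have h2 : ∑ j, ℓ (σ c) j * ∑ l, (Mx ℓ σ)⁻¹ j l * w (m, l) =
      ∑ l, (Mx ℓ σ * (Mx ℓ σ)⁻¹) c l * w (m, l) := by
    simp only [Matrix.mul_apply, Finset.sum_mul, Finset.mul_sum]
    rw [Finset.sum_comm]
    exact Finset.sum_congr rfl fun l _ => Finset.sum_congr rfl fun j _ => by
      rw [Mx, Matrix.of_apply]; ring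
  refine h2.trans ?_
  rw [h1]
  simp only [Matrix.one_apply, ite_mul, one_mul, zero_mul, Finset.sum_ite_eq, Finset.mem_univ,
    if_true]
  exact hw m

theorem eval_Qx (hdet : (Mx ℓ σ).det ≠ 0) (R : MvPolynomial (Fin (k + 1) × Fin (n + 1)) ℂ)
    (v : Fin (k + 1) × Fin (n + 1) → ℂ) :
    eval (fun x => ∑ l, ℓ (σ x.2) l * v (x.1, l)) (Qx ℓ σ R) = eval v R := by
  unfold Qx
  rw [eval_chg]
  congr 1
  congr 1
  funext x
  have h1 : ((Mx ℓ σ)⁻¹ * Mx ℓ σ) = 1 := Matrix.nonsing_inv_mul _ (isUnit_iff_ne_zero.mpr hdet)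
  have h2 : ∑ l, (Mx ℓ σ)⁻¹ x.2 l * ∑ l', ℓ (σ l) l' * v (x.1, l') =
      ∑ l', ((Mx ℓ σ)⁻¹ * Mx ℓ σ) x.2 l' * v (x.1, l') := by
    simp only [Matrix.mul_apply, Finset.sum_mul, Finset.mul_sum]
    rw [Finset.sum_comm]
    exact Finset.sum_congr rfl fun l _ => Finset.sum_congr rfl fun j _ => by
      rw [Mx, Matrix.of_apply]; ring
  refine h2.trans ?_
  rw [h1]
  simp only [Matrix.one_apply, ite_mul, one_mul, zero_mul, Finset.sum_ite_eq, Finset.mem_univ,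
    if_true]

end coords

end Pool.Agent.V8H90.JT
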