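import Pool.Agent.V8H90.JT.Point

/-!
The pointwise bound of the auxiliary function.
-/

set_option autoImplicit false

namespace Pool.Agent.V8H90.JT

open MvPolynomial Filter Metric Real Set Topology Pool.Agent.H159R3.NV Pool.Agent.W602.NC
  Pool.Agent.W602.TL Pool.Agent.W601.SM

variable {k n p : ℕ}

/-- multiplication by a power series with nonzero constant term -/
theorem ev_smul {R : MvPolynomial (Fin (k + 1) × Fin (n + 1)) ℂ} {d : ℕ} (hd : R.IsHomogeneous d)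
    (hR : Inv 1 R) (g : PowerSeries ℂ) (hg : PowerSeries.constantCoeff g ≠ 0)
    (U : Fin (n + 1) → PowerSeries ℂ) :
    ev (fun j => g * U j) R = PowerSeries.constantCoeff g ^ d * ev U R := by
  set c := PowerSeries.constantCoeff g with hc
  have h1 := hR (PowerSeries.C c⁻¹ * g) U (by
    rw [pow_one, PowerSeries.X_dvd_iff, map_sub, map_mul, PowerSeries.constantCoeff_C, map_one,
      ← hc, inv_mul_cancel₀ hg, sub_self])
  rw [← h1]
  have h2 := eval_of_hom hd c (fun x => PowerSeries.coeff (x.1 : ℕ)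
    ((fun j => PowerSeries.C c⁻¹ * g * U j) x.2))
  unfold ev
  rw [← h2]
  congr 1
  congr 1
  funext x
  change PowerSeries.coeff (x.1 : ℕ) (g * U x.2) =
    c * PowerSeries.coeff (x.1 : ℕ) (PowerSeries.C c⁻¹ * g * U x.2)
  rw [← PowerSeries.coeff_C_mul]
  congr 1
  have h3 : PowerSeries.C c * PowerSeries.C c⁻¹ = (1 : PowerSeries ℂ) := by
    rw [← map_mul, mul_inv_cancel₀ hg, map_one]
  calc g * U x.2 = (PowerSeries.C c * PowerSeries.C c⁻¹) * (g * U x.2) := by rw [h3, one_mul]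
    _ = _ := by ring

/-- the Taylor coefficients of ratios -/
theorem ratio_bound {a b : ℂ → ℂ} (ha : Differentiable ℂ a) (hb : Differentiable ℂ b) {z : ℂ}
    {ε : ℝ} (hε : 0 < ε) (hε1 : ε ≤ 1) (h0 : ∀ w ∈ closedBall z ε, a w ≠ 0)
    (hr : ∀ w ∈ closedBall z ε, ‖b w / a w‖ ≤ Real.exp 1 * ‖b z / a z‖) {m : ℕ} (hm : m ≤ k) :
    ‖PowerSeries.coeff m (jet (fun w => b w / a w) z)‖ ≤
      Real.exp 1 * (1 / ε) ^ k * (‖b z‖ / ‖a z‖) := by
  have hd : DiffContOnCl ℂ (fun w => b w / a w) (ball z ε) := by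
    apply DifferentiableOn.diffContOnCl
    rw [closure_ball z hε.ne']
    intro w hw
    exact ((hb w).div (ha w) (h0 w hw)).differentiableWithinAt
  have h1 := Complex.norm_iteratedDeriv_le_of_forall_mem_sphere_norm_le m hε hd
    (C := Real.exp 1 * ‖b z / a z‖) fun w hw => hr w (sphere_subset_closedBall hw)
  rw [coeff_jet, norm_div, Complex.norm_natCast]
  have hf : (0 : ℝ) < m.factorial := by exact_mod_cast m.factorial_pos
  rw [div_le_iff₀ hf]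
  refine h1.trans ?_
  have h2 : (1 : ℝ) / ε ^ m ≤ (1 / ε) ^ k := by
    rw [← one_div_pow]
    exact pow_le_pow_right₀ (by rw [le_div_iff₀ hε]; linarith) hm
  rw [norm_div]
  have h3 : 0 ≤ Real.exp 1 * (‖b z‖ / ‖a z‖) := by positivity
  calc (m.factorial : ℝ) * (Real.exp 1 * (‖b z‖ / ‖a z‖)) / ε ^ m
      = (m.factorial : ℝ) * (Real.exp 1 * (‖b z‖ / ‖a z‖)) * (1 / ε ^ m) := by ring
    _ ≤ (m.factorial : ℝ) * (Real.exp 1 * (‖b z‖ / ‖a z‖)) * (1 / ε) ^ k :=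
        mul_le_mul_of_nonneg_left h2 (mul_nonneg hf.le h3)
    _ = _ := by ring

/-- the pointwise bound -/
theorem PP_point {ℓ : Fin (p + 1) → Fin (n + 1) → ℂ} (hg : GP ℓ) (hnp : n ≤ p)
    {R : MvPolynomial (Fin (k + 1) × Fin (n + 1)) ℂ} {d : ℕ} (hd : R.IsHomogeneous d)
    (hnd : n + 1 ≤ d) (hI : Inv 1 R) (hR : ∀ i, Van (ℓ i) R) :
    ∃ C : ℝ, 1 ≤ C ∧ ∀ F : ℂ → Fin (n + 1) → ℂ, Ent F → ∀ (z : ℂ) (ε : ℝ), 0 < ε → ε ≤ 1 →
      GoodAt (UU ℓ F) z ε →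
      ‖PP R F z‖ * sup (UU ℓ F) z ^ (p + 1)
        ≤ C * (1 / ε) ^ (k * d) * sup (UU ℓ F) z ^ d * ∏ i, ‖UU ℓ F i z‖ := by
  classical
  obtain ⟨D, hD1, hD⟩ := forms_bound hg
  have hex : ∀ σ : Fin (n + 1) → Fin (p + 1), ∃ C : ℝ, Function.Injective σ →
      ∀ (w : Fin (k + 1) × Fin (n + 1) → ℂ) (y : Fin (n + 1) → ℝ) (T : ℝ),
      (∀ m c, ‖w (m, c)‖ ≤ y c) → (∀ c, y c ≤ T) →
      ‖eval w (Qx ℓ σ R)‖ ≤ C * (∏ c, y c) * T ^ (d - (n + 1)) := by
    intro σ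
    by_cases hσ : Function.Injective σ
    · obtain ⟨C, _, hC⟩ := pos_bound (Qx_pos (hg σ hσ) hR) (chg_hom _ hd)
      exact ⟨C, fun _ => hC⟩
    · exact ⟨0, fun h => absurd h hσ⟩
  choose Cσ hCσ using hex
  obtain ⟨C0, hC01, hC0⟩ := Frame.exists_max Cσ
  have hE1 : (1 : ℝ) ≤ Real.exp 1 := Real.one_le_exp zero_le_one
  refine ⟨C0 * Real.exp 1 ^ d * D ^ (p - n), ?_, ?_⟩
  · exact one_le_mul_of_one_le_of_one_le (one_le_mul_of_one_le_of_one_le hC01 (one_le_pow₀ hE1))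
      (one_le_pow₀ hD1)
  intro F hF z ε hε hε1 hgood
  have hzz : z ∈ closedBall z ε := mem_closedBall_self hε.le
  obtain ⟨i0, hi0⟩ := sup_attained (UU ℓ F) z
  set s := sup (UU ℓ F) z with hs
  have hU0 : UU ℓ F i0 z ≠ 0 := hgood.1 i0 z hzz
  have hspos : 0 < s := sup_pos (hgood.1 0 z hzz)
  obtain ⟨σ, T, hσ, hσT, hT0, hprod⟩ := exists_small hnp (fun i => ‖UU ℓ F i z‖)
    fun i => norm_nonneg _
  -- `s ≤ D T`
  have hsT : s ≤ D * T := by
    rw [hi0]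
    exact hD σ hσ (F z) T hσT i0
  -- normalization
  have hU0a : AnalyticAt ℂ (UU ℓ F i0) z := (UU_diff ℓ hF i0).analyticAt z
  have hrat : ∀ j, AnalyticAt ℂ (fun w => F w j / UU ℓ F i0 w) z := fun j =>
    ((hF j).analyticAt z).div hU0a hU0
  have hJ : J F z = fun j => jet (UU ℓ F i0) z * jet (fun w => F w j / UU ℓ F i0 w) z := by
    funext j
    rw [← jet_mul hU0a (hrat j)]
    apply jet_congr
    have hne : ∀ᶠ w in 𝓝 z, UU ℓ F i0 w ≠ 0 := hU0a.continuousAt.eventually_ne hU0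
    filter_upwards [hne] with w hw
    rw [mul_div_cancel₀ _ hw]
  have hc0 : PowerSeries.constantCoeff (jet (UU ℓ F i0) z) = UU ℓ F i0 z := by
    rw [← PowerSeries.coeff_zero_eq_constantCoeff_apply, coeff_jet]
    simp
  have hPP : PP R F z = UU ℓ F i0 z ^ d * ev (fun j => jet (fun w => F w j / UU ℓ F i0 w) z) R := by
    unfold PP
    rw [hJ, ev_smul hd hI _ (by rw [hc0]; exact hU0), hc0]
  have hev : ev (fun j => jet (fun w => F w j / UU ℓ F i0 w) z) R =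
      eval (fun x => PowerSeries.coeff (x.1 : ℕ)
        (jet (fun w => UU ℓ F (σ x.2) w / UU ℓ F i0 w) z)) (Qx ℓ σ R) := by
    rw [ev_Qx (hg σ hσ) R (fun j w => F w j / UU ℓ F i0 w) hrat]
    congr 1
    congr 1
    funext x
    congr 2
    funext w
    unfold UU
    rw [Finset.sum_div]
    exact Finset.sum_congr rfl fun j _ => by ring
  set E : ℝ := Real.exp 1 * (1 / ε) ^ k with hE
  have h1ε : 1 ≤ 1 / ε := by rw [le_div_iff₀ hε]; linarith
  have hE0 : 0 ≤ E := by positivity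
  have hbd := hCσ σ hσ (fun x => PowerSeries.coeff (x.1 : ℕ)
        (jet (fun w => UU ℓ F (σ x.2) w / UU ℓ F i0 w) z))
    (fun c => E * (‖UU ℓ F (σ c) z‖ / s)) E (fun m c => by
      have h1 := ratio_bound (k := k) (UU_diff ℓ hF i0) (UU_diff ℓ hF (σ c)) hε hε1
        (fun w hw => hgood.1 i0 w hw) (fun w hw => hgood.2 i0 (σ c) w hw)
        (m := (m : ℕ)) (Nat.lt_succ_iff.mp m.2)
      rw [← hi0] at h1
      exact h1) (fun c => by
      have h1 : ‖UU ℓ F (σ c) z‖ / s ≤ 1 := (div_le_one hspos).mpr (le_sup _ z _)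
      calc E * (‖UU ℓ F (σ c) z‖ / s) ≤ E * 1 := mul_le_mul_of_nonneg_left h1 hE0
        _ = E := mul_one E)
  have hprodE : ∏ c, E * (‖UU ℓ F (σ c) z‖ / s) =
      E ^ (n + 1) * ((∏ c, ‖UU ℓ F (σ c) z‖) / s ^ (n + 1)) := by
    rw [Finset.prod_mul_distrib, Finset.prod_div_distrib]
    simp
  have hP0 : 0 ≤ ∏ c, ‖UU ℓ F (σ c) z‖ := Finset.prod_nonneg fun _ _ => norm_nonneg _
  have h2 : ‖ev (fun j => jet (fun w => F w j / UU ℓ F i0 w) z) R‖ ≤
      C0 * E ^ d * ((∏ c, ‖UU ℓ F (σ c) z‖) / s ^ (n + 1)) := by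
    rw [hev]
    refine hbd.trans ?_
    rw [hprodE]
    have e : E ^ d = E ^ (n + 1) * E ^ (d - (n + 1)) := by
      rw [← pow_add]
      congr 1
      omega
    rw [e]
    have h3 : 0 ≤ E ^ (n + 1) * ((∏ c, ‖UU ℓ F (σ c) z‖) / s ^ (n + 1)) * E ^ (d - (n + 1)) := by
      positivity
    calc Cσ σ * (E ^ (n + 1) * ((∏ c, ‖UU ℓ F (σ c) z‖) / s ^ (n + 1))) * E ^ (d - (n + 1))
        = Cσ σ * (E ^ (n + 1) * ((∏ c, ‖UU ℓ F (σ c) z‖) / s ^ (n + 1)) * E ^ (d - (n + 1))) := by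
          ring
      _ ≤ C0 * (E ^ (n + 1) * ((∏ c, ‖UU ℓ F (σ c) z‖) / s ^ (n + 1)) * E ^ (d - (n + 1))) :=
          mul_le_mul_of_nonneg_right (hC0 σ) h3
      _ = _ := by ring
  have h4 : (∏ c, ‖UU ℓ F (σ c) z‖) * s ^ (p - n) ≤ D ^ (p - n) * ∏ i, ‖UU ℓ F i z‖ := by
    calc (∏ c, ‖UU ℓ F (σ c) z‖) * s ^ (p - n)
        ≤ (∏ c, ‖UU ℓ F (σ c) z‖) * (D * T) ^ (p - n) :=
          mul_le_mul_of_nonneg_left (pow_le_pow_left₀ hspos.le hsT _) hP0
      _ = D ^ (p - n) * ((∏ c, ‖UU ℓ F (σ c) z‖) * T ^ (p - n)) := by rw [mul_pow]; ring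
      _ ≤ _ := mul_le_mul_of_nonneg_left hprod (by positivity)
  rw [hPP, norm_mul, norm_pow, ← hi0]
  calc s ^ d * ‖ev (fun j => jet (fun w => F w j / UU ℓ F i0 w) z) R‖ * s ^ (p + 1)
      ≤ s ^ d * (C0 * E ^ d * ((∏ c, ‖UU ℓ F (σ c) z‖) / s ^ (n + 1))) * s ^ (p + 1) := by
        gcongr
    _ = s ^ d * (C0 * E ^ d) * ((∏ c, ‖UU ℓ F (σ c) z‖) * s ^ (p - n)) := by
        have e : s ^ (p + 1) = s ^ (n + 1) * s ^ (p - n) := by
          rw [← pow_add]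
          congr 1
          omega
        rw [e]
        field_simp
    _ ≤ s ^ d * (C0 * E ^ d) * (D ^ (p - n) * ∏ i, ‖UU ℓ F i z‖) :=
        mul_le_mul_of_nonneg_left h4 (by positivity)
    _ = _ := by
        rw [hE, mul_pow, ← pow_mul]
        ring

end Pool.Agent.V8H90.JT
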