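import Pool.Agent.V8H90.JT.Num
import Pool.Agent.W601.PH.Quasi

/-!
Varieties over projective space which are ramified over generic hyperplanes.
-/

set_option autoImplicit false

namespace Pool.Agent.V8H90.JT

open MvPolynomial Filter Metric Real Set Topology Pool.Agent.W601.SM Pool.Agent.W601.PH

variable {N n : ℕ}

/-- The coordinates of the linear forms are algebraically independent. -/
def Generic {q : ℕ} (ℓ : Fin q → Fin (n + 1) → ℂ) : Prop :=
  AlgebraicIndependent ℚ fun y : Fin q × Fin (n + 1) => ℓ y.1 y.2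

/-- The projection of `X` to projective `n`-space is ramified over the hyperplanes `ℓ i` with
multiplicities at least `m`: an arc in `X` meets a hyperplane `ℓ i` with a multiplicity which is
`0`, infinite, or at least `m`. -/
def RamifiedOver {q : ℕ} (m : ℕ) (ℓ : Fin q → Fin (n + 1) → ℂ) (X : BiSet N n) : Prop :=
  ∀ u v, X.Arc u v → ∀ (i : Fin q) (a : ℕ),
    analyticOrderAt (fun z => ∑ j, ℓ i j * v z j) 0 = a → a = 0 ∨ m ≤ a

/-- The same condition for the quasi-projective variety `X - D`, and arcs in `X - D`. For instance it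
is satisfied for all `m` if the image of `X - D` does not meet the hyperplanes. -/
def QRamifiedOver {q : ℕ} (m : ℕ) (ℓ : Fin q → Fin (n + 1) → ℂ) (X D : BiSet N n) : Prop :=
  ∀ u v, QArc X D u v → ∀ (i : Fin q) (a : ℕ),
    analyticOrderAt (fun z => ∑ j, ℓ i j * v z j) 0 = a → a = 0 ∨ m ≤ a

/-- The fibres of `X - D` over projective `n`-space are finite. -/
def QuasiFinite (X D : BiSet N n) : Prop := ∀ v, ∃ T : Finset (Fin (N + 1) → ℂ),
  ∀ u, QMem X D u v → ∃ t ∈ T, ∃ c : ℂ, u = c • t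

/-- The fibres of `X` over projective `n`-space are finite. -/
def FiniteFibres (X : BiSet N n) : Prop := ∀ v, ∃ T : Finset (Fin (N + 1) → ℂ),
  ∀ u, X.Mem u v → ∃ t ∈ T, ∃ c : ℂ, u = c • t

/-- Orbifold curves are constant. -/
theorem orb_const {m q : ℕ} (hE : Enough n m q) {ℓ : Fin q → Fin (n + 1) → ℂ} (hℓ : Generic ℓ)
    {v : ℂ → Fin (n + 1) → ℂ} (hv : ∀ j, Differentiable ℂ fun z => v z j)
    (hnz : ∀ z, v z ≠ 0) (hm : ∀ (i : Fin q) (z : ℂ) (a : ℕ),
      analyticOrderAt (fun w => ∑ j, ℓ i j * v w j) z = a → a = 0 ∨ m ≤ a) (z z' : ℂ) :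
    ∃ t : ℂ, v z' = t • v z := by
  obtain ⟨k, d, q0, h1, h2, h3, h4, h5⟩ := hE
  obtain ⟨M, rfl⟩ : ∃ M, q = M + 1 := by
    refine ⟨q - 1, ?_⟩
    have : 1 ≤ (k + 1) * (n + 1) := Nat.succ_le_of_lt (by positivity)
    omega
  exact ramified_const h1 h3 n M h2 h4 h5 ℓ hℓ v hv hnz hm z z'

theorem shift_order {q : ℕ} (ℓ : Fin q → Fin (n + 1) → ℂ) (v : ℂ → Fin (n + 1) → ℂ)
    (i : Fin q) (z : ℂ) : analyticOrderAt (fun w => ∑ j, ℓ i j * v (w + z) j) 0 =
      analyticOrderAt (fun w => ∑ j, ℓ i j * v w j) z := by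
  have e1 : (fun w => ∑ j, ℓ i j * v (w + z) j)
      = (fun w => ∑ j, ℓ i j * v w j) ∘ fun w => w + z := rfl
  have hd : deriv (fun w : ℂ => w + z) 0 ≠ 0 := by
    rw [deriv_add_const, deriv_id'']
    exact one_ne_zero
  rw [e1, analyticOrderAt_comp_of_deriv_ne_zero (by fun_prop) hd, zero_add]

theorem quasi_curve {m q : ℕ} (hE : Enough n m q) {ℓ : Fin q → Fin (n + 1) → ℂ}
    (hℓ : Generic ℓ) {X D : BiSet N n} (hX : QRamifiedOver m ℓ X D)
    {u : ℂ → Fin (N + 1) → ℂ} {v : ℂ → Fin (n + 1) → ℂ} (h : QEntire X D u v) (z z' : ℂ) :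
    ∃ t : ℂ, v z' = t • v z := by
  have hv : ∀ j, Differentiable ℂ fun z => v z j := fun j => differentiable_pi.mp h.diffv j
  have hu : ∀ j, Differentiable ℂ fun z => u z j := fun j => differentiable_pi.mp h.diffu j
  refine orb_const hE hℓ hv (fun z => (h.mem z).1.2.1) (fun i z a ha => ?_) z z'
  refine hX (fun w => u (w + z)) (fun w => v (w + z)) ⟨fun j => ?_, fun j => ?_,
    Filter.Eventually.of_forall fun w => h.mem _⟩ i a (by rw [shift_order]; exact ha)
  · exact ((hu j).comp (differentiable_id.add_const z)).analyticAt 0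
  · exact ((hv j).comp (differentiable_id.add_const z)).analyticAt 0

theorem closed_curve {m q : ℕ} (hE : Enough n m q) {ℓ : Fin q → Fin (n + 1) → ℂ}
    (hℓ : Generic ℓ) {X : BiSet N n} (hX : RamifiedOver m ℓ X)
    {u : ℂ → Fin (N + 1) → ℂ} {v : ℂ → Fin (n + 1) → ℂ} (h : X.EntireCurve u v) (z z' : ℂ) :
    ∃ t : ℂ, v z' = t • v z := by
  refine orb_const hE hℓ h.diffv (fun z => (h.mem z).2.1) (fun i z a ha => ?_) z z'
  refine hX (fun w => u (w + z)) (fun w => v (w + z)) ⟨fun j => ?_, fun j => ?_,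
    Filter.Eventually.of_forall fun w => h.mem _⟩ i a (by rw [shift_order]; exact ha)
  · exact ((h.diffu j).comp (differentiable_id.add_const z)).analyticAt 0
  · exact ((h.diffv j).comp (differentiable_id.add_const z)).analyticAt 0

/-- moving the point in a fibre -/
theorem mem_scale {X : BiSet N n} {u : Fin (N + 1) → ℂ} {v v' : Fin (n + 1) → ℂ}
    (h : X.Mem u v) (hv' : v' ≠ 0) {t : ℂ} (ht : v = t • v') : X.Mem u v' := by
  refine ⟨h.1, hv', fun P hP => ?_⟩
  obtain ⟨a, b, hab⟩ := X.hom P hP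
  have h3 := hab 1 t u v'
  rw [one_smul, ← ht, h.2.2 P hP] at h3
  have ht0 : t ≠ 0 := by
    rintro rfl
    rw [zero_smul] at ht
    exact h.2.1 ht
  have := h3.symm
  rw [one_pow, one_mul] at this
  exact (mul_eq_zero.mp this).resolve_left (pow_ne_zero _ ht0)

theorem no_quasi {m q : ℕ} (hE : Enough n m q) {ℓ : Fin q → Fin (n + 1) → ℂ}
    (hℓ : Generic ℓ) {X D : BiSet N n} (hX : QRamifiedOver m ℓ X D) (hf : QuasiFinite X D)
    (u : ℂ → Fin (N + 1) → ℂ) (v : ℂ → Fin (n + 1) → ℂ) : ¬ QEntire X D u v := by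
  intro h
  have h1 := quasi_curve hE hℓ hX h
  obtain ⟨T, hT⟩ := hf (v 0)
  have hu : ∀ j, Differentiable ℂ fun z => u z j := fun j => differentiable_pi.mp h.diffu j
  have hmem : ∀ w, QMem X D (u w) (v 0) := by
    intro w
    obtain ⟨t, ht⟩ := h1 0 w
    obtain ⟨t', ht'⟩ := h1 w 0
    refine ⟨mem_scale (h.mem w).1 (h.mem 0).1.2.1 ht, fun hd => (h.mem w).2 ?_⟩
    exact mem_scale hd (h.mem w).1.2.1 ht'
  have hc := Pool.Agent.W602.TL.const_of_finite hu (fun w => (h.mem w).1.1)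
    (fun w => hT _ (hmem w))
  obtain ⟨w, w', hww⟩ := h.nonconst
  rcases hww with h2 | h2
  · obtain ⟨c, hc⟩ := hc w w'
    exact h2 c hc
  · obtain ⟨c, hc⟩ := h1 w w'
    exact h2 c hc

theorem no_closed {m q : ℕ} (hE : Enough n m q) {ℓ : Fin q → Fin (n + 1) → ℂ}
    (hℓ : Generic ℓ) {X : BiSet N n} (hX : RamifiedOver m ℓ X) (hf : FiniteFibres X)
    (u : ℂ → Fin (N + 1) → ℂ) (v : ℂ → Fin (n + 1) → ℂ) : ¬ X.EntireCurve u v := by
  intro h
  have h1 := closed_curve hE hℓ hX h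
  obtain ⟨T, hT⟩ := hf (v 0)
  have hmem : ∀ w, X.Mem (u w) (v 0) := by
    intro w
    obtain ⟨t, ht⟩ := h1 0 w
    exact mem_scale (h.mem w) (h.mem 0).2.1 ht
  have hc := Pool.Agent.W602.TL.const_of_finite h.diffu (fun w => (h.mem w).1)
    (fun w => hT _ (hmem w))
  obtain ⟨w, w', hww⟩ := h.nonconst
  rcases hww with h2 | h2
  · obtain ⟨c, hc⟩ := hc w w'
    exact h2 c hc
  · obtain ⟨c, hc⟩ := h1 w w'
    exact h2 c hc

/-- a point of `X - D` where a form does not vanish -/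
theorem out_point {X D : BiSet N n} (hirr : X.Irred) (hne0 : ∃ u v, QMem X D u v)
    {R : MvPolynomial (Fin (n + 1)) ℂ} {e : ℕ} (hR : R.IsHomogeneous e)
    (h0 : ∃ u v, X.Mem u v ∧ eval v R ≠ 0) :
    ∃ u v, QMem X D u v ∧ ev2 u v (rename Sum.inr R : BiPoly N n) ≠ 0 := by
  obtain ⟨u0, v0, h0, h0ne⟩ := h0
  obtain ⟨u1, v1, hm1, hd1⟩ := hne0
  have hP : ∃ P ∈ D.I, ev2 u1 v1 P ≠ 0 := by
    by_contra hcon
    push Not at hcon
    exact hd1 ⟨hm1.1, hm1.2.1, hcon⟩
  obtain ⟨P, hPD, hP1⟩ := hP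
  by_contra hcon
  push Not at hcon
  rcases hirr.2 P (rename Sum.inr R) (D.hom P hPD) (biHom_inr hR) (by
    intro u v huv
    rw [ev2_mul]
    by_cases hPv : ev2 u v P = 0
    · rw [hPv, zero_mul]
    · rw [hcon u v ⟨huv, fun hd => hPv (hd.2.2 P hPD)⟩, mul_zero]) with h1 | h1
  · exact hP1 (h1 u1 v1 hm1)
  · exact h0ne (by rw [← ev2_inr (N := N) u0]; exact h1 u0 v0 h0)

theorem quasi_brody {m q : ℕ} (hE : Enough n m q) {ℓ : Fin q → Fin (n + 1) → ℂ}
    (hℓ : Generic ℓ) {X D : BiSet N n} (hX : QRamifiedOver m ℓ X D) (hirr : X.Irred)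
    (hfin : X.GenFinite) (hne0 : ∃ u v, QMem X D u v) : QBrody X D := by
  obtain ⟨D0, e, hD, hDne, hDfin⟩ := hfin
  refine ⟨rename Sum.inr D0, biHom_inr hD, out_point hirr hne0 hD hDne, fun u v h z => ?_⟩
  rw [ev2_inr]
  by_contra hDz
  obtain ⟨T, hT⟩ := hDfin (v z) hDz
  have h1 := quasi_curve hE hℓ hX h
  have hu : ∀ j, Differentiable ℂ fun z => u z j := fun j => differentiable_pi.mp h.diffu j
  have hmem : ∀ w, X.Mem (u w) (v z) := by
    intro w
    obtain ⟨t, ht⟩ := h1 z w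
    exact mem_scale (h.mem w).1 (h.mem z).1.2.1 ht
  have hc := Pool.Agent.W602.TL.const_of_finite hu (fun w => (h.mem w).1.1)
    (fun w => hT _ (hmem w))
  obtain ⟨w, w', hww⟩ := h.nonconst
  rcases hww with h2 | h2
  · obtain ⟨c, hc⟩ := hc w w'
    exact h2 c hc
  · obtain ⟨c, hc⟩ := h1 w w'
    exact h2 c hc

/-- the covers with the equations `y i ^ m = ℓ i (x)`, which are smooth complete intersections of
diagonal hypersurfaces -/
theorem kummer_const {m q : ℕ} (hm : 1 ≤ m) (hE : Enough n m q)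
    {ℓ : Fin q → Fin (n + 1) → ℂ} (hℓ : Generic ℓ) {f : ℂ → Fin q → ℂ}
    (hf : Differentiable ℂ f) (hnz : ∀ z, f z ≠ 0)
    (hX : ∀ z, ∃ x : Fin (n + 1) → ℂ, ∀ i, f z i ^ m = ∑ j, ℓ i j * x j) (z z' : ℂ) :
    ∃ t : ℂ, f z = t • f z' := by
  classical
  have hqn : n + 1 ≤ q := by
    obtain ⟨k, d, q0, h1, h2, h3, h4, h5⟩ := hE
    have := Nat.le_mul_of_pos_left (n + 1) (by omega : 0 < k + 1)
    omega
  set σ : Fin (n + 1) → Fin q := Fin.castLE hqn with hσ
  have hdet : (Mx ℓ σ).det ≠ 0 := gp_of_ai hℓ σ (Fin.castLE_injective _)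
  set F : ℂ → Fin (n + 1) → ℂ := fun z => (Mx ℓ σ)⁻¹.mulVec fun c => f z (σ c) ^ m with hF
  have hfj : ∀ j, Differentiable ℂ fun z => f z j := fun j => differentiable_pi.mp hf j
  have hFd : ∀ j, Differentiable ℂ fun z => F z j := by
    intro j
    have e : (fun z => F z j) = fun z => ∑ c, (Mx ℓ σ)⁻¹ j c * f z (σ c) ^ m := by
      funext z
      rfl
    rw [e]
    exact Differentiable.fun_sum fun c _ => ((hfj (σ c)).pow m).const_mul _
  have hFx : ∀ z i, f z i ^ m = ∑ j, ℓ i j * F z j := by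
    intro z
    obtain ⟨x, hx⟩ := hX z
    have e : F z = x := by
      have h1 : (fun c => f z (σ c) ^ m) = (Mx ℓ σ).mulVec x := by
        funext c
        exact hx (σ c)
      change (Mx ℓ σ)⁻¹.mulVec (fun c => f z (σ c) ^ m) = x
      rw [h1, Matrix.mulVec_mulVec, Matrix.nonsing_inv_mul _ (isUnit_iff_ne_zero.mpr hdet),
        Matrix.one_mulVec]
    intro i
    rw [hx i, e]
  have hFnz : ∀ z, F z ≠ 0 := by
    intro z h0
    apply hnz z
    funext i
    have h1 := hFx z i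
    rw [h0] at h1
    have h2 : f z i ^ m = 0 := by rw [h1]; simp
    exact pow_eq_zero_iff (by omega) |>.mp h2
  have hord : ∀ (i : Fin q) (z : ℂ) (a : ℕ),
      analyticOrderAt (fun w => ∑ j, ℓ i j * F w j) z = a → a = 0 ∨ m ≤ a := by
    intro i z a ha
    have e : (fun w => ∑ j, ℓ i j * F w j) = (fun w => f w i) ^ m := by
      funext w
      rw [Pi.pow_apply, hFx w i]
    rw [e, analyticOrderAt_pow ((hfj i).analyticAt z)] at ha
    by_cases h : analyticOrderAt (fun w => f w i) z = ⊤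
    · rw [h, nsmul_eq_mul, ENat.mul_top (by exact_mod_cast (by omega : m ≠ 0))] at ha
      exact absurd ha.symm (ENat.natCast_ne_top a)
    · obtain ⟨b, hb⟩ := ENat.ne_top_iff_exists.mp h
      rw [← hb, nsmul_eq_mul] at ha
      have h4 : m * b = a := by exact_mod_cast ha
      rcases Nat.eq_zero_or_pos b with hb | hb
      · left
        rw [← h4, hb, mul_zero]
      · right
        rw [← h4]
        exact Nat.le_mul_of_pos_right m hb
  have hc := orb_const hE hℓ hFd hFnz hord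
  refine Pool.Agent.W602.TL.const_of_finite hfj hnz
    (T := Fintype.piFinset fun i => Polynomial.nthRootsFinset m (f z' i ^ m)) (fun w => ?_) z' z
  obtain ⟨t, ht⟩ := hc z' w
  have ht0 : t ≠ 0 := by
    rintro rfl
    exact hFnz w (by rw [ht, zero_smul])
  obtain ⟨c, hc⟩ := IsAlgClosed.exists_pow_nat_eq t (by omega : 0 < m)
  have hc0 : c ≠ 0 := by
    rintro rfl
    rw [zero_pow (by omega)] at hc
    exact ht0 hc.symm
  refine ⟨c⁻¹ • f w, ?_, c, ?_⟩
  · rw [Fintype.mem_piFinset]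
    intro i
    rw [Polynomial.mem_nthRootsFinset (by omega)]
    rw [Pi.smul_apply, smul_eq_mul, mul_pow, inv_pow, hc, hFx w i, hFx z' i, ht]
    simp only [Pi.smul_apply, smul_eq_mul]
    rw [inv_mul_eq_iff_eq_mul₀ ht0, Finset.mul_sum]
    exact Finset.sum_congr rfl fun j _ => by ring
  · rw [smul_smul, mul_inv_cancel₀ hc0, one_smul]

/-- there are generic arrangements -/
theorem exists_generic (n q : ℕ) : ∃ ℓ : Fin q → Fin (n + 1) → ℂ, Generic ℓ := by
  obtain ⟨s, hs⟩ := exists_isTranscendenceBasis ℚ ℂ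
  have h1 := IsAlgClosed.cardinal_eq_cardinal_transcendence_basis_of_aleph0_lt' (Subtype.val : s → ℂ)
    hs (by rw [Cardinal.mkRat]) (by
      rw [Cardinal.mk_complex]
      exact Cardinal.aleph0_lt_continuum)
  have h2 : Infinite s := by
    rw [Cardinal.infinite_iff, ← h1, Cardinal.mk_complex]
    exact Cardinal.aleph0_le_continuum
  obtain ⟨g, hg⟩ : ∃ g : Fin q × Fin (n + 1) → s, Function.Injective g := by
    obtain ⟨e⟩ : Nonempty (Fin q × Fin (n + 1) ↪ s) := by
      have := Infinite.natEmbedding s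
      exact ⟨(Fintype.equivFin _).toEmbedding.trans ((Fin.valEmbedding).trans this)⟩
    exact ⟨e, e.injective⟩
  exact ⟨fun i j => g (i, j), hs.1.comp g hg⟩

end Pool.Agent.V8H90.JT
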