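import Mathlib

/-!
Polynomials in the coefficients of vectors of power series: homogeneous polynomials which are
invariant under the multiplication by power series with constant term one, and which vanish on
the vectors satisfying one of several linear equations.
-/

set_option autoImplicit false

namespace Pool.Agent.V8H90.JT

open MvPolynomial

variable {ι : Type} {k : ℕ}

/-- value of a polynomial in the coefficients of index at most `k` of power series -/
noncomputable def ev {A : Type*} [CommRing A] (U : ι → PowerSeries A)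
    (R : MvPolynomial (Fin (k + 1) × ι) A) : A :=
  eval (fun x => PowerSeries.coeff (x.1 : ℕ) (U x.2)) R

theorem ev_map {A B : Type*} [CommRing A] [CommRing B] (ψ : A →+* B) (U : ι → PowerSeries A)
    (R : MvPolynomial (Fin (k + 1) × ι) A) :
    ψ (ev U R) = ev (fun j => PowerSeries.map ψ (U j)) (map ψ R) := by
  unfold ev
  rw [eval_map, ← eval₂_id, eval₂_comp_left ψ, RingHom.comp_id]
  congr 1

/-- invariance under the multiplication by power series which are congruent to one modulo the
`j`-th power of the variable -/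
def Inv {A : Type*} [CommRing A] (j : ℕ) (R : MvPolynomial (Fin (k + 1) × ι) A) : Prop :=
  ∀ (g : PowerSeries A) (U : ι → PowerSeries A), PowerSeries.X ^ j ∣ g - 1 →
    ev (fun i => g * U i) R = ev U R

/-- vanishing on the vectors which satisfy a linear equation -/
def Van {A : Type*} [CommRing A] [Fintype ι] (a : ι → A)
    (R : MvPolynomial (Fin (k + 1) × ι) A) : Prop :=
  ∀ w : Fin (k + 1) × ι → A, (∀ m, ∑ j, a j * w (m, j) = 0) → eval w R = 0

theorem inv_top {A : Type*} [CommRing A] (R : MvPolynomial (Fin (k + 1) × ι) A) :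
    Inv (k + 1) R := by
  rintro g U ⟨h, hh⟩
  unfold ev
  congr 1
  congr 1
  funext x
  have hg : g = 1 + PowerSeries.X ^ (k + 1) * h := by rw [← hh]; ring
  change (PowerSeries.coeff (x.1 : ℕ)) (g * U x.2) = _
  rw [hg, add_mul, one_mul, map_add, mul_assoc, PowerSeries.coeff_X_pow_mul', if_neg, add_zero]
  have := x.1.2
  omega

section step

variable {A : Type*} [CommRing A]

/-- the polynomial in one more variable which describes the multiplication by `1 + t X ^ j` -/
noncomputable def sg (j : ℕ) : MvPolynomial (Fin (k + 1) × ι) A →+*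
    Polynomial (MvPolynomial (Fin (k + 1) × ι) A) :=
  eval₂Hom (Polynomial.C.comp C) fun x => Polynomial.C (X x) +
    if _h : j ≤ (x.1 : ℕ) then Polynomial.X * Polynomial.C (X (⟨(x.1 : ℕ) - j, by
      have := x.1.2
      omega⟩, x.2)) else 0

/-- the polynomial in one variable attached to a vector -/
noncomputable def pu (j : ℕ) (R : MvPolynomial (Fin (k + 1) × ι) A) (U : ι → PowerSeries A) :
    Polynomial A :=
  (sg j R).map (eval fun x => PowerSeries.coeff (x.1 : ℕ) (U x.2))

theorem pu_eval (j : ℕ) (R : MvPolynomial (Fin (k + 1) × ι) A) (U : ι → PowerSeries A) (t : A) :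
    (pu j R U).eval t =
      ev (fun i => (1 + PowerSeries.C t * PowerSeries.X ^ j) * U i) R := by
  have h : ((Polynomial.evalRingHom t).comp (Polynomial.mapRingHom
      (eval fun x : Fin (k + 1) × ι => PowerSeries.coeff (x.1 : ℕ) (U x.2)))).comp (sg j) =
      eval fun x : Fin (k + 1) × ι => PowerSeries.coeff (x.1 : ℕ)
        ((1 + PowerSeries.C t * PowerSeries.X ^ j) * U x.2) := by
    apply MvPolynomial.ringHom_ext
    · intro r
      simp [sg]
    · intro x
      simp only [sg, RingHom.coe_comp, Function.comp_apply, eval₂Hom_X', Polynomial.coe_mapRingHom,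
        Polynomial.coe_evalRingHom, eval_X]
      rw [add_mul, one_mul, map_add, mul_assoc, PowerSeries.coeff_C_mul,
        PowerSeries.coeff_X_pow_mul']
      split_ifs with h
      · simp only [Polynomial.map_add, Polynomial.map_C, Polynomial.map_mul, Polynomial.map_X,
          eval_X, Polynomial.eval_add, Polynomial.eval_C, Polynomial.eval_mul, Polynomial.eval_X]
      · simp
  exact RingHom.congr_fun h R

theorem sg_ne (j : ℕ) {R : MvPolynomial (Fin (k + 1) × ι) A} (hR : R ≠ 0) : sg j R ≠ 0 := by
  have h : (Polynomial.evalRingHom (0 : MvPolynomial (Fin (k + 1) × ι) A)).comp (sg j) =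
      RingHom.id _ := by
    apply MvPolynomial.ringHom_ext
    · intro r
      simp [sg]
    · intro x
      simp only [sg, RingHom.coe_comp, Function.comp_apply, eval₂Hom_X',
        Polynomial.coe_evalRingHom, RingHom.id_apply]
      split_ifs with h
      · simp
      · simp
  intro h0
  apply hR
  have h1 := RingHom.congr_fun h R
  rw [RingHom.comp_apply, h0, map_zero] at h1
  exact h1.symm

/-- the coefficient of the highest power -/
noncomputable def top (j : ℕ) (R : MvPolynomial (Fin (k + 1) × ι) A) :
    MvPolynomial (Fin (k + 1) × ι) A := (sg j R).leadingCoeff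

theorem top_ne (j : ℕ) {R : MvPolynomial (Fin (k + 1) × ι) A} (hR : R ≠ 0) : top j R ≠ 0 :=
  Polynomial.leadingCoeff_ne_zero.mpr (sg_ne j hR)

theorem ev_top (j : ℕ) (R : MvPolynomial (Fin (k + 1) × ι) A) (U : ι → PowerSeries A) :
    ev U (top j R) = (pu j R U).coeff (sg j R).natDegree := by
  unfold pu top ev
  rw [Polynomial.coeff_map]
  rfl

theorem pu_deg (j : ℕ) (R : MvPolynomial (Fin (k + 1) × ι) A) (U : ι → PowerSeries A) :
    (pu j R U).natDegree ≤ (sg j R).natDegree := Polynomial.natDegree_map_le

theorem exists_inv_unit (c : A) {j : ℕ} (hj : 1 ≤ j) :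
    ∃ w : PowerSeries A, (1 + PowerSeries.C c * PowerSeries.X ^ j) * w = 1 := by
  have h : IsUnit (1 + PowerSeries.C c * PowerSeries.X ^ j : PowerSeries A) := by
    rw [PowerSeries.isUnit_iff_constantCoeff]
    rw [map_add, map_mul, map_pow, map_one, PowerSeries.constantCoeff_X, zero_pow (by omega),
      mul_zero, add_zero]
    exact isUnit_one
  obtain ⟨u, hu⟩ := h
  exact ⟨↑u⁻¹, by rw [← hu]; exact u.mul_inv⟩

theorem coeff_comp_top (p : Polynomial A) (c : A) {N : ℕ} (hN : p.natDegree ≤ N) :
    (p.comp (Polynomial.X + Polynomial.C c)).coeff N = p.coeff N := by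
  rw [← Polynomial.taylor_apply]
  rcases hN.lt_or_eq with h | h
  · rw [Polynomial.coeff_eq_zero_of_natDegree_lt h,
      Polynomial.coeff_eq_zero_of_natDegree_lt (by rw [Polynomial.natDegree_taylor]; exact h)]
  · rw [← h, Polynomial.coeff_taylor_natDegree]
    rfl

variable [IsDomain A] [Infinite A]

theorem top_inv_one {j : ℕ} (hj : 1 ≤ j) {R : MvPolynomial (Fin (k + 1) × ι) A}
    (hR : Inv (j + 1) R) (c : A) (U : ι → PowerSeries A) :
    ev (fun i => (1 + PowerSeries.C c * PowerSeries.X ^ j) * U i) (top j R) = ev U (top j R) := by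
  rw [ev_top, ev_top]
  have h : pu j R (fun i => (1 + PowerSeries.C c * PowerSeries.X ^ j) * U i) =
      (pu j R U).comp (Polynomial.X + Polynomial.C c) := by
    apply Polynomial.funext
    intro t
    rw [Polynomial.eval_comp, pu_eval, pu_eval]
    simp only [Polynomial.eval_add, Polynomial.eval_X, Polynomial.eval_C]
    obtain ⟨w, hw⟩ := exists_inv_unit (t + c) hj
    have h1 := hR (((1 + PowerSeries.C t * PowerSeries.X ^ j) *
      (1 + PowerSeries.C c * PowerSeries.X ^ j)) * w)
      (fun i => (1 + PowerSeries.C (t + c) * PowerSeries.X ^ j) * U i) ?_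
    · rw [← h1]
      congr 1
      funext i
      calc (1 + PowerSeries.C t * PowerSeries.X ^ j) *
            ((1 + PowerSeries.C c * PowerSeries.X ^ j) * U i)
          = ((1 + PowerSeries.C t * PowerSeries.X ^ j) *
            (1 + PowerSeries.C c * PowerSeries.X ^ j)) *
            ((1 + PowerSeries.C (t + c) * PowerSeries.X ^ j) * w) * U i := by rw [hw]; ring
        _ = _ := by ring
    · have h2 : (1 + PowerSeries.C t * PowerSeries.X ^ j) *
          (1 + PowerSeries.C c * PowerSeries.X ^ j) * w - 1 =
          PowerSeries.X ^ (j + 1) * (PowerSeries.X ^ (j - 1) *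
            (PowerSeries.C t * PowerSeries.C c * w)) := by
        have e : (PowerSeries.X : PowerSeries A) ^ (j + 1) * PowerSeries.X ^ (j - 1) =
            PowerSeries.X ^ j * PowerSeries.X ^ j := by
          rw [← pow_add, ← pow_add]
          congr 1
          omega
        have e2 : (1 + PowerSeries.C t * PowerSeries.X ^ j) *
            (1 + PowerSeries.C c * PowerSeries.X ^ j) * w - 1 =
            (1 + PowerSeries.C t * PowerSeries.X ^ j) *
            (1 + PowerSeries.C c * PowerSeries.X ^ j) * w -
            (1 + PowerSeries.C (t + c) * PowerSeries.X ^ j) * w := by rw [hw]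
        rw [← mul_assoc, e, e2, map_add]
        ring
      exact ⟨_, h2⟩
  rw [h, coeff_comp_top _ _ (pu_deg j R U)]

theorem top_inv_succ {j : ℕ} {R : MvPolynomial (Fin (k + 1) × ι) A}
    (hR : Inv (j + 1) R) : Inv (j + 1) (top j R) := by
  intro g U hg
  rw [ev_top, ev_top]
  have h : pu j R (fun i => g * U i) = pu j R U := by
    apply Polynomial.funext
    intro t
    rw [pu_eval, pu_eval, ← hR g (fun i => (1 + PowerSeries.C t * PowerSeries.X ^ j) * U i) hg]
    congr 1
    funext i
    ring
  rw [h]

theorem top_inv {j : ℕ} (hj : 1 ≤ j) {R : MvPolynomial (Fin (k + 1) × ι) A}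
    (hR : Inv (j + 1) R) : Inv j (top j R) := by
  intro g U hg
  obtain ⟨w, hw⟩ := exists_inv_unit (PowerSeries.coeff j g) hj
  set v : PowerSeries A := 1 + PowerSeries.C (PowerSeries.coeff j g) * PowerSeries.X ^ j with hv
  have h1 : PowerSeries.X ^ (j + 1) ∣ g * w - 1 := by
    have e : g * w - 1 = (g - v) * w := by rw [sub_mul, hw]
    rw [e]
    apply Dvd.dvd.mul_right
    rw [PowerSeries.X_pow_dvd_iff] at hg ⊢
    intro m hm
    rcases Nat.lt_succ_iff_lt_or_eq.mp hm with h | h
    · have h2 := hg m h
      have e2 : g - v = (g - 1) - PowerSeries.C (PowerSeries.coeff j g) * PowerSeries.X ^ j := by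
        rw [hv]; ring
      rw [e2, map_sub, h2, PowerSeries.coeff_C_mul, PowerSeries.coeff_X_pow, if_neg (by omega)]
      simp
    · subst h
      rw [hv, map_sub, map_add, PowerSeries.coeff_C_mul, PowerSeries.coeff_X_pow, if_pos rfl,
        PowerSeries.coeff_one, if_neg (by omega)]
      ring
  have h2 := top_inv_succ hR (g * w) (fun i => v * U i) h1
  rw [top_inv_one hj hR] at h2
  rw [← h2]
  congr 1
  funext i
  calc g * U i = g * (v * w) * U i := by rw [hw]; ring
    _ = _ := by ring

omit [IsDomain A] [Infinite A] in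
theorem coeff_bind_smul {σ : Type*} (c : A) (R : MvPolynomial σ A) (s : σ →₀ ℕ) :
    coeff s (bind₁ (fun x => C c * X x) R) = c ^ s.degree * coeff s R := by
  classical
  induction R using MvPolynomial.induction_on' with
  | monomial t a =>
    rw [bind₁_monomial]
    have h1 : ∏ i ∈ t.support, (C c * X i : MvPolynomial σ A) ^ t i =
        C (c ^ t.degree) * ∏ i ∈ t.support, (X i : MvPolynomial σ A) ^ t i := by
      simp only [mul_pow, Finset.prod_mul_distrib, ← map_pow]
      congr 1
      rw [← map_prod, Finset.prod_pow_eq_pow_sum]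
      rfl
    have h2 : C a * (C (c ^ t.degree) * ∏ i ∈ t.support, (X i : MvPolynomial σ A) ^ t i) =
        C (c ^ t.degree) * monomial t a := by
      rw [monomial_eq]
      unfold Finsupp.prod
      ring
    rw [h1, h2, coeff_C_mul, coeff_monomial]
    split_ifs with h
    · rw [h]
    · rw [mul_zero, mul_zero]
  | add p q hp hq => rw [map_add, coeff_add, hp, hq, coeff_add, mul_add]

/-- homogeneity in terms of values -/
theorem hom_of_eval {σ : Type*} {R : MvPolynomial σ A} {d : ℕ}
    (h : ∀ (c : A) (w : σ → A), eval (fun x => c * w x) R = c ^ d * eval w R) :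
    R.IsHomogeneous d := by
  classical
  have h1 : ∀ c : A, bind₁ (fun x => C c * X x) R = C (c ^ d) * R := by
    intro c
    apply MvPolynomial.funext
    intro w
    rw [map_mul, eval_C, ← h]
    rw [← coe_aeval_eq_eval, ← coe_aeval_eq_eval]
    change aeval w (bind₁ _ R) = aeval _ R
    rw [aeval_bind₁]
    congr 2
    funext x
    simp
  intro s hs
  by_contra hne
  have hdeg : s.degree ≠ d := by
    intro h0
    apply hne
    rw [← h0, Finsupp.degree_eq_weight_one]
    rfl
  have h2 : ∀ c : A, c ^ s.degree = c ^ d := by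
    intro c
    have h3 := congrArg (coeff s) (h1 c)
    rw [coeff_bind_smul, coeff_C_mul] at h3
    exact mul_right_cancel₀ hs h3
  have h4 : (Polynomial.X ^ s.degree : Polynomial A) = Polynomial.X ^ d := by
    apply Polynomial.funext
    intro c
    simpa using h2 c
  have h5 := congrArg Polynomial.natDegree h4
  rw [Polynomial.natDegree_X_pow, Polynomial.natDegree_X_pow] at h5
  exact hdeg h5

omit [IsDomain A] [Infinite A] in
theorem eval_of_hom {σ : Type*} {R : MvPolynomial σ A} {d : ℕ} (h : R.IsHomogeneous d)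
    (c : A) (w : σ → A) : eval (fun x => c * w x) R = c ^ d * eval w R := by
  rw [eval_eq, eval_eq, Finset.mul_sum]
  refine Finset.sum_congr rfl fun s hs => ?_
  have hd : s.degree = d := by
    have h1 := h (mem_support_iff.mp hs)
    rw [← h1, Finsupp.degree_eq_weight_one]
    rfl
  simp only [mul_pow, Finset.prod_mul_distrib]
  rw [Finset.prod_pow_eq_pow_sum]
  have : ∑ i ∈ s.support, s i = d := hd
  rw [this]
  ring

theorem top_hom (j : ℕ) {R : MvPolynomial (Fin (k + 1) × ι) A} {d : ℕ} (hR : R.IsHomogeneous d) :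
    (top j R).IsHomogeneous d := by
  apply hom_of_eval
  intro c w
  -- the vector of power series
  set U : ι → PowerSeries A := fun i => PowerSeries.mk fun m =>
    if h : m < k + 1 then w (⟨m, h⟩, i) else 0 with hU
  have hUw : (fun x : Fin (k + 1) × ι => PowerSeries.coeff (x.1 : ℕ) (U x.2)) = w := by
    funext x
    rw [hU, PowerSeries.coeff_mk, dif_pos x.1.2]
  have hcw : (fun x : Fin (k + 1) × ι => PowerSeries.coeff (x.1 : ℕ)
      ((fun i => PowerSeries.C c * U i) x.2)) = fun x => c * w x := by
    funext x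
    change PowerSeries.coeff (x.1 : ℕ) (PowerSeries.C c * U x.2) = _
    rw [PowerSeries.coeff_C_mul]
    exact congrArg (c * ·) (congrFun hUw x)
  have e1 : eval (fun x => c * w x) (top j R) = ev (fun i => PowerSeries.C c * U i) (top j R) := by
    unfold ev
    rw [hcw]
  have e2 : eval w (top j R) = ev U (top j R) := by
    unfold ev
    rw [hUw]
  rw [e1, e2, ev_top, ev_top]
  have h : pu j R (fun i => PowerSeries.C c * U i) = Polynomial.C (c ^ d) * pu j R U := by
    apply Polynomial.funext
    intro t
    rw [Polynomial.eval_mul, Polynomial.eval_C, pu_eval, pu_eval]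
    have h2 := eval_of_hom hR c (fun x => PowerSeries.coeff (x.1 : ℕ)
      ((1 + PowerSeries.C t * PowerSeries.X ^ j) * U x.2))
    unfold ev
    rw [← h2]
    congr 2
    funext x
    rw [← PowerSeries.coeff_C_mul]
    congr 1
    ring
  rw [h, Polynomial.coeff_C_mul]

theorem top_van (j : ℕ) [Fintype ι] {a : ι → A} {R : MvPolynomial (Fin (k + 1) × ι) A}
    (hR : Van a R) : Van a (top j R) := by
  intro w hw
  set U : ι → PowerSeries A := fun i => PowerSeries.mk fun m =>
    if h : m < k + 1 then w (⟨m, h⟩, i) else 0 with hU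
  have hUw : (fun x : Fin (k + 1) × ι => PowerSeries.coeff (x.1 : ℕ) (U x.2)) = w := by
    funext x
    rw [hU, PowerSeries.coeff_mk, dif_pos x.1.2]
  have e2 : eval w (top j R) = ev U (top j R) := by
    unfold ev
    rw [hUw]
  have hsum : ∀ m : ℕ, ∑ i, a i * PowerSeries.coeff m (U i) = 0 := by
    intro m
    by_cases hm : m < k + 1
    · rw [← hw ⟨m, hm⟩]
      refine Finset.sum_congr rfl fun i _ => ?_
      rw [hU, PowerSeries.coeff_mk, dif_pos hm]
    · refine Finset.sum_eq_zero fun i _ => ?_
      rw [hU, PowerSeries.coeff_mk, dif_neg hm, mul_zero]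
  rw [e2, ev_top]
  have h : pu j R U = 0 := by
    apply Polynomial.funext
    intro t
    rw [pu_eval, Polynomial.eval_zero]
    apply hR
    intro m
    have h1 : ∀ i, PowerSeries.coeff ((m, i).1 : ℕ)
        ((1 + PowerSeries.C t * PowerSeries.X ^ j) * U (m, i).2) =
        PowerSeries.coeff (m : ℕ) (U i) + t * (if j ≤ (m : ℕ) then
          PowerSeries.coeff ((m : ℕ) - j) (U i) else 0) := by
      intro i
      rw [add_mul, one_mul, map_add, mul_assoc, PowerSeries.coeff_C_mul,
        PowerSeries.coeff_X_pow_mul']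
    simp only [h1, mul_add, Finset.sum_add_distrib]
    rw [hsum, zero_add]
    split_ifs
    · have h2 : ∀ i, a i * (t * PowerSeries.coeff ((m : ℕ) - j) (U i)) =
          t * (a i * PowerSeries.coeff ((m : ℕ) - j) (U i)) := fun i => by ring
      simp only [h2]
      rw [← Finset.mul_sum, hsum, mul_zero]
    · simp
  rw [h, Polynomial.coeff_zero]

/-- existence of invariant polynomials -/
theorem exists_invariant [Fintype ι] {q : ℕ} {a : Fin q → ι → A} {d : ℕ}
    (h : ∃ R : MvPolynomial (Fin (k + 1) × ι) A, R ≠ 0 ∧ R.IsHomogeneous d ∧ ∀ i, Van (a i) R) :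
    ∃ R : MvPolynomial (Fin (k + 1) × ι) A, R ≠ 0 ∧ R.IsHomogeneous d ∧ (∀ i, Van (a i) R) ∧
      Inv 1 R := by
  have key : ∀ s : ℕ, s ≤ k → ∃ R : MvPolynomial (Fin (k + 1) × ι) A, R ≠ 0 ∧
      R.IsHomogeneous d ∧ (∀ i, Van (a i) R) ∧ Inv (k + 1 - s) R := by
    intro s
    induction s with
    | zero =>
      intro _
      obtain ⟨R, h1, h2, h3⟩ := h
      exact ⟨R, h1, h2, h3, inv_top R⟩
    | succ s ih =>
      intro hs
      obtain ⟨R, h1, h2, h3, h4⟩ := ih (by omega)
      refine ⟨top (k + 1 - (s + 1)) R, top_ne _ h1, top_hom _ h2, fun i => top_van _ (h3 i), ?_⟩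
      apply top_inv (by omega)
      rw [show k + 1 - (s + 1) + 1 = k + 1 - s by omega]
      exact h4
  obtain ⟨R, h1, h2, h3, h4⟩ := key k le_rfl
  rw [show k + 1 - k = 1 by omega] at h4
  exact ⟨R, h1, h2, h3, h4⟩

end step

end Pool.Agent.V8H90.JT
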