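import Pool.Agent.V8H90.JT.Alg

/-!
Existence of the polynomials by counting, and change of the ring.
-/

set_option autoImplicit false

namespace Pool.Agent.V8H90.JT

open MvPolynomial

variable {k n : ℕ}

section count

variable {A : Type*} [CommRing A]

/-- the parametrization of the solutions of a linear equation -/
noncomputable def th (a : Fin (n + 1) → A) (x : Fin (k + 1) × Fin (n + 1)) :
    MvPolynomial (Fin (k + 1) × Fin n) A :=
  Fin.cases (-∑ j : Fin n, C (a j.succ) * X (x.1, j)) (fun j => C (a 0) * X (x.1, j)) x.2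

theorem th_hom (a : Fin (n + 1) → A) (x : Fin (k + 1) × Fin (n + 1)) :
    (th a x).IsHomogeneous 1 := by
  obtain ⟨m, j⟩ := x
  unfold th
  have h1 : ∀ (c : A) (y : Fin (k + 1) × Fin n), (C c * X y).IsHomogeneous 1 := fun c y => by
    simpa using (isHomogeneous_C (Fin (k + 1) × Fin n) c).mul (isHomogeneous_X A y)
  refine Fin.cases ?_ (fun j => ?_) j
  · exact (IsHomogeneous.sum _ _ _ fun j _ => h1 _ _).neg
  · exact h1 _ _

/-- the exponents of the monomials of degree `d` -/
abbrev Ex (σ : Type) [Fintype σ] [DecidableEq σ] (d : ℕ) : Type :=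
  {s : σ →₀ ℕ // s ∈ (Finset.univ : Finset σ).finsuppAntidiag d}

theorem card_Ex (σ : Type) [Fintype σ] [DecidableEq σ] (d : ℕ) :
    Fintype.card (Ex σ d) = (Fintype.card σ + d - 1).choose d := by
  rw [Fintype.card_coe, Finset.card_finsuppAntidiag_nat_eq_choose, Finset.card_univ]

theorem mem_Ex {σ : Type} [Fintype σ] [DecidableEq σ] {d : ℕ} {s : σ →₀ ℕ} :
    s ∈ (Finset.univ : Finset σ).finsuppAntidiag d ↔ s.degree = d := by
  rw [Finset.mem_finsuppAntidiag, Finsupp.degree_eq_sum]
  simp

/-- the polynomial with given coefficients -/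
noncomputable def pol {σ : Type} [Fintype σ] [DecidableEq σ] {d : ℕ} (c : Ex σ d → A) :
    MvPolynomial σ A := ∑ s : Ex σ d, monomial s.1 (c s)

theorem coeff_pol {σ : Type} [Fintype σ] [DecidableEq σ] {d : ℕ} (c : Ex σ d → A) (s : Ex σ d) :
    coeff s.1 (pol c) = c s := by
  unfold pol
  rw [coeff_sum, Finset.sum_eq_single s]
  · rw [coeff_monomial, if_pos rfl]
  · intro t _ ht
    rw [coeff_monomial, if_neg]
    intro h
    exact ht (Subtype.ext h)
  · simp

theorem pol_hom {σ : Type} [Fintype σ] [DecidableEq σ] {d : ℕ} (c : Ex σ d → A) :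
    (pol c).IsHomogeneous d := by
  unfold pol
  exact IsHomogeneous.sum _ _ _ fun s _ => isHomogeneous_monomial _ (mem_Ex.mp s.2)

theorem hom_zero_of_coeff {σ : Type} [Fintype σ] [DecidableEq σ] {d : ℕ} {P : MvPolynomial σ A}
    (hP : P.IsHomogeneous d) (h : ∀ s : Ex σ d, coeff s.1 P = 0) : P = 0 := by
  ext s
  rw [coeff_zero]
  by_contra hs
  have h1 := hP hs
  exact hs (h ⟨s, mem_Ex.mpr (by rw [← h1, Finsupp.degree_eq_weight_one]; rfl)⟩)

theorem pol_add {σ : Type} [Fintype σ] [DecidableEq σ] {d : ℕ} (c c' : Ex σ d → A) :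
    pol (c + c') = pol c + pol c' := by
  unfold pol
  rw [← Finset.sum_add_distrib]
  exact Finset.sum_congr rfl fun s _ => by rw [Pi.add_apply, map_add]

theorem pol_smul {σ : Type} [Fintype σ] [DecidableEq σ] {d : ℕ} (t : A) (c : Ex σ d → A) :
    pol (t • c) = C t * pol c := by
  unfold pol
  rw [Finset.mul_sum]
  exact Finset.sum_congr rfl fun s _ => by
    rw [Pi.smul_apply, smul_eq_mul, C_mul_monomial]

/-- one condition -/
noncomputable def cond1 (d : ℕ) (a : Fin (n + 1) → A) (s : Fin (k + 1) × Fin n →₀ ℕ) :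
    (Ex (Fin (k + 1) × Fin (n + 1)) d → A) →ₗ[A] A where
  toFun c := coeff s (bind₁ (th a) (pol c))
  map_add' c c' := by
    rw [pol_add, map_add, coeff_add]
  map_smul' t c := by
    rw [pol_smul, map_mul, ← algebraMap_eq, AlgHom.commutes, algebraMap_eq, coeff_C_mul]
    rfl

/-- the conditions -/
noncomputable def cond {q : ℕ} (d : ℕ) (a : Fin q → Fin (n + 1) → A) :
    (Ex (Fin (k + 1) × Fin (n + 1)) d → A) →ₗ[A] (Fin q × Ex (Fin (k + 1) × Fin n) d → A) :=
  LinearMap.pi fun x => cond1 d (a x.1) x.2.1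

theorem cond1_of_cond {q : ℕ} {d : ℕ} {a : Fin q → Fin (n + 1) → A}
    {c : Ex (Fin (k + 1) × Fin (n + 1)) d → A} (h : cond d a c = 0) (i : Fin q)
    (s : Ex (Fin (k + 1) × Fin n) d) : cond1 d (a i) s.1 c = 0 := by
  have h1 := congrFun h (i, s)
  rw [Pi.zero_apply, cond, LinearMap.pi_apply] at h1
  exact h1

/-- counting the conditions -/
theorem exists_th [Nontrivial A] (q d : ℕ) (a : Fin q → Fin (n + 1) → A)
    (h : q * ((k + 1) * n + d - 1).choose d < ((k + 1) * (n + 1) + d - 1).choose d) :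
    ∃ R : MvPolynomial (Fin (k + 1) × Fin (n + 1)) A, R ≠ 0 ∧ R.IsHomogeneous d ∧
      ∀ i, bind₁ (th (a i)) R = 0 := by
  classical
  have hni : ¬ Function.Injective (cond (k := k) d a) := by
    intro hinj
    have h1 := card_le_of_injective A _ hinj
    rw [Fintype.card_prod, card_Ex, card_Ex, Fintype.card_prod, Fintype.card_prod] at h1
    simp only [Fintype.card_fin] at h1
    omega
  obtain ⟨c, hc, hc0⟩ : ∃ c, cond (k := k) d a c = 0 ∧ c ≠ 0 := by
    by_contra hcon
    push Not at hcon
    exact hni ((injective_iff_map_eq_zero _).mpr hcon)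
  refine ⟨pol c, fun h0 => hc0 ?_, pol_hom c, fun i => ?_⟩
  · funext s
    rw [← coeff_pol c s, h0, coeff_zero]
    rfl
  · apply hom_zero_of_coeff (d := d)
    · have := (pol_hom c).aeval (th (a i)) fun x => th_hom (a i) x
      rwa [one_mul] at this
    · intro s
      have h2 := cond1_of_cond hc i s
      unfold cond1 at h2
      rw [LinearMap.coe_mk, AddHom.coe_mk] at h2
      exact h2

/-- from the parametrization to the values -/
theorem van_of_th [IsDomain A] {a : Fin (n + 1) → A} (ha : a 0 ≠ 0) {d : ℕ}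
    {R : MvPolynomial (Fin (k + 1) × Fin (n + 1)) A} (hR : R.IsHomogeneous d)
    (h : bind₁ (th a) R = 0) : Van a R := by
  intro w hw
  have h1 : eval (fun x => eval (fun y : Fin (k + 1) × Fin n => w (y.1, y.2.succ)) (th a x)) R =
      0 := by
    have h2 := congrArg (aeval (fun y : Fin (k + 1) × Fin n => w (y.1, y.2.succ)) :
      MvPolynomial (Fin (k + 1) × Fin n) A →ₐ[A] A) h
    rw [map_zero, aeval_bind₁] at h2
    exact h2
  have h2 : (fun x : Fin (k + 1) × Fin (n + 1) =>
      eval (fun y : Fin (k + 1) × Fin n => w (y.1, y.2.succ)) (th a x)) =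
      fun x => a 0 * w x := by
    funext x
    obtain ⟨m, j⟩ := x
    refine Fin.cases ?_ (fun j => ?_) j
    · have h3 := hw m
      rw [Fin.sum_univ_succ] at h3
      simp only [th, Fin.cases_zero, map_neg, map_sum, map_mul, eval_C, eval_X]
      linear_combination -h3
    · simp only [th, Fin.cases_succ, map_mul, eval_C, eval_X]
  rw [h2, eval_of_hom hR] at h1
  exact (mul_eq_zero.mp h1).resolve_left (pow_ne_zero _ ha)

end count

section change

variable {A B : Type*} [CommRing A] [CommRing B] [IsDomain A] [Infinite A]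

/-- the generic power series with constant term one -/
noncomputable def gG (A : Type*) [CommRing A] (ι : Type) :
    PowerSeries (MvPolynomial (ℕ ⊕ ℕ × ι) A) :=
  1 + PowerSeries.X * PowerSeries.mk fun m => X (Sum.inl m)

/-- the generic vector of power series -/
noncomputable def gU (A : Type*) [CommRing A] (ι : Type) (i : ι) :
    PowerSeries (MvPolynomial (ℕ ⊕ ℕ × ι) A) :=
  PowerSeries.mk fun m => X (Sum.inr (m, i))

theorem Inv.generic {ι : Type} {R : MvPolynomial (Fin (k + 1) × ι) A} (h : Inv 1 R) :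
    ev (fun i => gG A ι * gU A ι i)
      (MvPolynomial.map (C : A →+* MvPolynomial (ℕ ⊕ ℕ × ι) A) R) =
      ev (gU A ι) (MvPolynomial.map (C : A →+* MvPolynomial (ℕ ⊕ ℕ × ι) A) R) := by
  apply MvPolynomial.funext
  intro w
  rw [ev_map, ev_map, MvPolynomial.map_map]
  have e : (eval w).comp (C : A →+* MvPolynomial (ℕ ⊕ ℕ × ι) A) = RingHom.id A :=
    RingHom.ext fun r => eval_C r
  rw [e, MvPolynomial.map_id]
  have h1 := h (PowerSeries.map (eval w) (gG A ι))
    (fun i => PowerSeries.map (eval w) (gU A ι i)) ?_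
  · rw [← h1]
    congr 1
    funext i
    rw [map_mul]
  · rw [pow_one, gG, map_add, map_one, map_mul, PowerSeries.map_X, add_sub_cancel_left]
    exact dvd_mul_right _ _

omit [IsDomain A] [Infinite A] in
theorem map_gG {ι : Type} (φ : A →+* B) (g' : PowerSeries B) (V : ι → PowerSeries B) :
    PowerSeries.map (eval₂Hom φ (Sum.elim (fun m => PowerSeries.coeff m g')
      fun x => PowerSeries.coeff x.1 (V x.2))) (gG A ι) = 1 + PowerSeries.X * g' := by
  rw [gG, map_add, map_one, map_mul, PowerSeries.map_X]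
  congr 2
  ext m
  rw [PowerSeries.coeff_map, PowerSeries.coeff_mk, eval₂Hom_X']
  rfl

omit [IsDomain A] [Infinite A] in
theorem map_gU {ι : Type} (φ : A →+* B) (g' : PowerSeries B) (V : ι → PowerSeries B) (i : ι) :
    PowerSeries.map (eval₂Hom φ (Sum.elim (fun m => PowerSeries.coeff m g')
      fun x => PowerSeries.coeff x.1 (V x.2))) (gU A ι i) = V i := by
  ext m
  rw [PowerSeries.coeff_map, gU, PowerSeries.coeff_mk, eval₂Hom_X']
  rfl

theorem Inv.map {ι : Type} {R : MvPolynomial (Fin (k + 1) × ι) A} (h : Inv 1 R) (φ : A →+* B) :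
    Inv 1 (MvPolynomial.map φ R) := by
  intro g V hg
  rw [pow_one] at hg
  obtain ⟨g', hg'⟩ := hg
  have h2 := congrArg (eval₂Hom φ (Sum.elim (fun m => PowerSeries.coeff m g')
      fun x => PowerSeries.coeff x.1 (V x.2))) h.generic
  rw [ev_map, ev_map, MvPolynomial.map_map] at h2
  have e1 : (eval₂Hom φ (Sum.elim (fun m => PowerSeries.coeff m g')
      fun x : ℕ × ι => PowerSeries.coeff x.1 (V x.2))).comp
      (C : A →+* MvPolynomial (ℕ ⊕ ℕ × ι) A) = φ :=
    RingHom.ext fun r => eval₂_C _ _ _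
  rw [e1] at h2
  simp only [map_mul, map_gU, map_gG] at h2
  have e2 : 1 + PowerSeries.X * g' = g := by rw [← hg']; ring
  rw [e2] at h2
  exact h2

theorem Van.map [IsDomain B] {a : Fin (n + 1) → A} {d : ℕ}
    {R : MvPolynomial (Fin (k + 1) × Fin (n + 1)) A} (hR : R.IsHomogeneous d) (h : Van a R)
    (φ : A →+* B) (ha : φ (a 0) ≠ 0) : Van (fun j => φ (a j)) (MvPolynomial.map φ R) := by
  have h1 : bind₁ (th a) R = 0 := by
    apply MvPolynomial.funext
    intro w
    rw [map_zero]
    have h2 : eval w (bind₁ (th a) R) = eval (fun x => eval w (th a x)) R := by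
      exact aeval_bind₁ (R := A) w (th a) R
    rw [h2]
    apply h
    intro m
    rw [Fin.sum_univ_succ]
    simp only [th, Fin.cases_zero, Fin.cases_succ, map_neg, map_sum, map_mul, eval_C, eval_X]
    rw [mul_neg, Finset.mul_sum, neg_add_eq_sub, ← Finset.sum_sub_distrib]
    exact Finset.sum_eq_zero fun j _ => by ring
  refine van_of_th ha (hR.map φ) ?_
  have h2 := congrArg (MvPolynomial.map φ) h1
  rw [map_zero, map_bind₁] at h2
  rw [← h2]
  congr 2
  funext x
  obtain ⟨m, j⟩ := x
  refine Fin.cases ?_ (fun j => ?_) j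
  · simp [th]
  · simp [th]

end change

end Pool.Agent.V8H90.JT
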