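import Pool.Agent.V8H90.JT.Strata

/-!
All curves which are ramified over sufficiently many generic hyperplanes are constant: the
induction.
-/

set_option autoImplicit false

namespace Pool.Agent.V8H90.JT

open MvPolynomial Filter Metric Real Set Topology Pool.Agent.H159R3.NV Pool.Agent.W602.NC
  Pool.Agent.W602.TL Pool.Agent.W601.SM

variable {k n : ℕ}

/-- the multiplicities -/
def Mul {N : ℕ} (m : ℕ) (ℓ : Fin N → Fin (n + 1) → ℂ) (F : ℂ → Fin (n + 1) → ℂ) : Prop :=
  ∀ (i : Fin N) (z : ℂ) (a : ℕ), analyticOrderAt (UU ℓ F i) z = a → a = 0 ∨ m ≤ a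

theorem low_forms {K : Type} [Field K] [Algebra K ℂ] {q r : ℕ} {ℓ : Fin q → Fin (n + 1) → ℂ}
    (hℓ : AlgebraicIndependent K fun y : Fin q × Fin (n + 1) => ℓ y.1 y.2)
    {p' : Fin (n + 1) × Fin (r + 1) → K} {C : Fin (n + 1) → Fin (r + 1) → ℂ}
    (hp' : ∀ y, algebraMap K ℂ (p' y) = C y.1 y.2) (W : Fin (r + 1) → Fin (n + 1))
    (hC2 : ∀ b b', C (W b) b' = if b = b' then 1 else 0) :
    GP fun i b => ∑ j, ℓ i j * C j b := by
  have h := gp_comp hℓ (fun j b => p' (j, b)) W (fun b b' => by
    have h3 := hp' (W b, b')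
    have h4 : algebraMap K ℂ (p' (W b, b')) = algebraMap K ℂ (if b = b' then 1 else 0) := by
      rw [h3]
      change C (W b) b' = _
      rw [hC2]
      split_ifs <;> simp
    exact (algebraMap K ℂ).injective h4)
  have e : (fun (i : Fin q) (b : Fin (r + 1)) => ∑ j, ℓ i j * C j b) =
      fun i b => ∑ j, ℓ i j * algebraMap K ℂ (p' (j, b)) := by
    funext i b
    exact Finset.sum_congr rfl fun j _ => by rw [hp' (j, b)]
  rw [e]
  exact h

theorem low_span {N q0 d m r : ℕ} (hr1 : 1 ≤ r) (hrk : r < k) (hnd : r + 1 ≤ d)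
    (hnum : d * m + k * q0 < m * q0) {ℓ : Fin (N + 1) → Fin (n + 1) → ℂ}
    (hℓ : AlgebraicIndependent ℚ fun y : Fin (N + 1) × Fin (n + 1) => ℓ y.1 y.2)
    (hq : q0 + (k + 1) * (n + 1) ≤ N + 1) {F : ℂ → Fin (n + 1) → ℂ} (hF : Ent F)
    (hnz : ∀ z, F z ≠ 0) (hne : ∀ i, ∃ z, UU ℓ F i z ≠ 0) (W : Fin (r + 1) → Fin (n + 1))
    (hWi : ∀ g : Fin (r + 1) → ℂ, (∀ z, ∑ b, g b * F z (W b) = 0) → g = 0)
    (C : Fin (n + 1) → Fin (r + 1) → ℂ) (hC1 : ∀ z j, F z j = ∑ b, C j b * F z (W b))
    (hC2 : ∀ b b', C (W b) b' = if b = b' then 1 else 0) (hm : Mul m ℓ F) : False := by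
  obtain ⟨K, _, _, _, p', s, hp', hs, hsai⟩ := exists_sel (q0 := q0) hℓ
    (fun y : Fin (n + 1) × Fin (r + 1) => C y.1 y.2) (by
      rw [Fintype.card_prod, Fintype.card_fin, Fintype.card_fin]
      have h1 := Nat.mul_le_mul_left (n + 1) (by omega : r + 1 ≤ k + 1)
      have h2 : (k + 1) * (n + 1) = (n + 1) * (k + 1) := mul_comm _ _
      omega)
  have hq0 : 0 < q0 := by
    rcases Nat.eq_zero_or_pos q0 with h | h
    · rw [h] at hnum
      simp at hnum
    · exact h
  obtain ⟨N0, rfl⟩ : ∃ N0, q0 = N0 + 1 := ⟨q0 - 1, by omega⟩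
  have hgp' : GP fun (i : Fin (N0 + 1)) (b : Fin (r + 1)) => ∑ j, ℓ (s i) j * C j b :=
    low_forms (ℓ := fun i => ℓ (s i)) hsai hp' W hC2
  have hGF : ∀ i, UU (fun i b => ∑ j, ℓ (s i) j * C j b) (fun z b => F z (W b)) i =
      UU ℓ F (s i) := by
    intro i
    funext z
    unfold UU
    simp only [Finset.sum_mul]
    rw [Finset.sum_comm]
    refine Finset.sum_congr rfl fun j _ => ?_
    rw [hC1 z j, Finset.mul_sum]
    exact Finset.sum_congr rfl fun b _ => by rw [mul_assoc]
  refine no_curve_wr (m := m) ?_ hr1 hgp' (F := fun z b => F z (W b)) (fun b => hF (W b))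
    (fun z h0 => ?_) (fun i => by rw [hGF]; exact hne (s i)) hWi (fun i z a ha => ?_)
  · have h3 : (r + 1) * m ≤ d * m := Nat.mul_le_mul_right _ (by omega)
    have h4 : r * (N0 + 1) ≤ k * (N0 + 1) := Nat.mul_le_mul_right _ hrk.le
    omega
  · apply hnz z
    funext j
    rw [hC1 z j]
    have h3 : ∀ b, F z (W b) = 0 := fun b => congrFun h0 b
    simp [h3]
  · rw [hGF] at ha
    exact hm (s i) z a ha

/-- curves which are not contained in a hyperplane of the arrangement -/
theorem const_of_ne {N q0 d m : ℕ} (hk1 : 1 ≤ k) (hnd : n + 1 ≤ d)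
    (hcount : q0 * ((k + 1) * n + d - 1).choose d < ((k + 1) * (n + 1) + d - 1).choose d)
    (hnum : d * m + k * q0 < m * q0) {ℓ : Fin (N + 1) → Fin (n + 1) → ℂ}
    (hℓ : AlgebraicIndependent ℚ fun y : Fin (N + 1) × Fin (n + 1) => ℓ y.1 y.2)
    (hq : q0 + (k + 1) * (n + 1) ≤ N + 1) {F : ℂ → Fin (n + 1) → ℂ} (hF : Ent F)
    (hnz : ∀ z, F z ≠ 0) (hne : ∀ i, ∃ z, UU ℓ F i z ≠ 0) (hm : Mul m ℓ F) (z z' : ℂ) :
    ∃ t : ℂ, F z' = t • F z := by
  classical
  obtain ⟨κ, a, ha, hsp, hli⟩ := exists_linearIndependent' ℂ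
    fun (j : Fin (n + 1)) (z : ℂ) => F z j
  have : Finite κ := Finite.of_injective a ha
  have := Fintype.ofFinite κ
  set e := Fintype.equivFin κ with he
  -- the coefficients
  have hco : ∀ j, ∃ c : κ → ℂ, ∀ z, F z j = ∑ b, c b * F z (a b) := by
    intro j
    have h1 : (fun z : ℂ => F z j) ∈ Submodule.span ℂ (Set.range
        ((fun (j : Fin (n + 1)) (z : ℂ) => F z j) ∘ a)) := by
      rw [hsp]
      exact Submodule.subset_span ⟨j, rfl⟩
    obtain ⟨c, hc⟩ := (Submodule.mem_span_range_iff_exists_fun ℂ).mp h1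
    refine ⟨c, fun z => ?_⟩
    have h2 := congrFun hc z
    rw [Finset.sum_apply] at h2
    exact h2.symm
  choose c hc using hco
  have hind : ∀ g : κ → ℂ, (∀ z, ∑ b, g b * F z (a b) = 0) → g = 0 := by
    intro g hg
    rw [Fintype.linearIndependent_iff] at hli
    funext b
    refine hli g ?_ b
    funext z
    rw [Finset.sum_apply]
    exact hg z
  have hc' : ∀ b b', c (a b) b' = if b = b' then 1 else 0 := by
    intro b
    have h1 := hind (fun b' => c (a b) b' - if b = b' then 1 else 0) (by
      intro z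
      simp only [sub_mul, Finset.sum_sub_distrib, ite_mul, one_mul, zero_mul,
        Finset.sum_ite_eq, Finset.mem_univ, if_true]
      rw [← hc, sub_self])
    intro b'
    exact sub_eq_zero.mp (congrFun h1 b')
  rcases Nat.lt_or_ge (Fintype.card κ) 2 with h2 | h2
  · -- constant
    rcases Nat.lt_or_ge (Fintype.card κ) 1 with h1 | h1
    · exfalso
      apply hnz z
      funext j
      have : IsEmpty κ := Fintype.card_eq_zero_iff.mp (by omega)
      rw [hc j z]
      simp
    · obtain ⟨b, hb⟩ := Fintype.card_eq_one_iff.mp (by omega : Fintype.card κ = 1)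
      have h3 : ∀ j z, F z j = c j b * F z (a b) := by
        intro j z
        rw [hc j z, Finset.sum_eq_single b (fun b' _ h => absurd (hb b') h) (by simp)]
      have h4 : F z (a b) ≠ 0 := by
        intro h0
        apply hnz z
        funext j
        rw [h3, h0, mul_zero]
        rfl
      refine ⟨F z' (a b) / F z (a b), ?_⟩
      funext j
      rw [Pi.smul_apply, smul_eq_mul, h3 j z', h3 j z]
      field_simp
  · exfalso
    obtain ⟨r, hr⟩ : ∃ r, Fintype.card κ = r + 1 := ⟨Fintype.card κ - 1, by omega⟩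
    have hr1 : 1 ≤ r := by omega
    have hrn : r + 1 ≤ n + 1 := by
      rw [← hr]
      simpa using Fintype.card_le_of_injective a ha
    set W : Fin (r + 1) → Fin (n + 1) := fun b => a (e.symm (Fin.cast hr.symm b)) with hWd
    have hWi : ∀ g : Fin (r + 1) → ℂ, (∀ z, ∑ b, g b * F z (W b) = 0) → g = 0 := by
      intro g hg
      have h3 := hind (fun b => g (Fin.cast hr (e b))) (by
        intro z
        rw [← hg z]
        refine Fintype.sum_equiv (e.trans (finCongr hr)) _ _ fun b => ?_
        simp [hWd])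
      funext b
      have h4 := congrFun h3 (e.symm (Fin.cast hr.symm b))
      simpa using h4
    rcases Nat.lt_or_ge r k with hrk | hrk
    · -- few jets: Cartan
      set C : Fin (n + 1) → Fin (r + 1) → ℂ := fun j b => c j (e.symm (Fin.cast hr.symm b)) with hC
      have hC1 : ∀ z j, F z j = ∑ b, C j b * F z (W b) := by
        intro z j
        rw [hc j z]
        refine Fintype.sum_equiv (e.trans (finCongr hr)) _ _ fun b => ?_
        simp [hWd, hC]
      have hC2 : ∀ b b', C (W b) b' = if b = b' then 1 else 0 := by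
        intro b b'
        rw [hC, hWd]
        simp only
        rw [hc']
        congr 1
        rw [Equiv.apply_eq_iff_eq]
        simp
      exact low_span hr1 hrk (by omega) hnum hℓ hq hF hnz hne W hWi C hC1 hC2 hm
    · -- many jets
      refine no_curve (by omega : k ≤ n) hk1 hnd hcount hnum hℓ hq hF hnz hne
        (fun b => W (Fin.castLE (by omega) b)) (fun g hg => ?_) hm
      have h3 := hWi (fun b => if h : (b : ℕ) < k + 1 then g ⟨b, h⟩ else 0) (by
        intro z
        refine Eq.trans ?_ (hg z)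
        symm
        refine Finset.sum_of_injOn (Fin.castLE (by omega)) (Fin.castLE_injective _).injOn
          (fun _ _ => Finset.mem_coe.mpr (Finset.mem_univ _)) (fun b _ hb => ?_) fun b _ => ?_
        · rw [dif_neg, zero_mul]
          intro h
          apply hb
          exact ⟨⟨b, h⟩, Finset.mem_coe.mpr (Finset.mem_univ _), rfl⟩
        · rw [dif_pos (by
            rw [Fin.val_castLE]
            exact b.2)]
          rfl)
      funext b
      have h4 := congrFun h3 (Fin.castLE (by omega) b)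
      rw [dif_pos (by
        rw [Fin.val_castLE]
        exact b.2)] at h4
      exact h4

theorem count_down {d q0 K n : ℕ}
    (h : q0 * (K * (n + 1) + d - 1).choose d < (K * (n + 2) + d - 1).choose d) :
    q0 * (K * n + d - 1).choose d < (K * (n + 1) + d - 1).choose d := by
  have e1 := Nat.ascFactorial_eq_factorial_mul_choose' (K * n) d
  have e2 := Nat.ascFactorial_eq_factorial_mul_choose' (K * (n + 1)) d
  have e3 := Nat.ascFactorial_eq_factorial_mul_choose' (K * (n + 2)) d
  have hd := Nat.factorial_pos d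
  have h1 : q0 * (K * (n + 1)).ascFactorial d < (K * (n + 2)).ascFactorial d := by
    rw [e2, e3]
    calc q0 * (d.factorial * _) = d.factorial * (q0 * _) := by ring
      _ < _ := Nat.mul_lt_mul_of_pos_left h hd
  have h2 : (K * n).ascFactorial d * (K * (n + 2)).ascFactorial d ≤
      (K * (n + 1)).ascFactorial d * (K * (n + 1)).ascFactorial d := by
    rw [Nat.ascFactorial_eq_prod_range, Nat.ascFactorial_eq_prod_range,
      Nat.ascFactorial_eq_prod_range, ← Finset.prod_mul_distrib, ← Finset.prod_mul_distrib]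
    refine Finset.prod_le_prod' fun i _ => ?_
    nlinarith [Nat.zero_le (K * K)]
  have h3 : q0 * (K * n).ascFactorial d < (K * (n + 1)).ascFactorial d := by
    by_contra hcon
    push Not at hcon
    rcases Nat.eq_zero_or_pos ((K * n).ascFactorial d) with h0 | h0
    · rw [h0, mul_zero] at hcon
      have h4 : (K * (n + 1)).ascFactorial d = 0 := by omega
      -- then `d ≥ 1` and `K = 0`
      rw [Nat.ascFactorial_eq_prod_range, Finset.prod_eq_zero_iff] at h4
      obtain ⟨i, hi, h5⟩ := h4
      have h6 : K * (n + 1) = 0 := by omega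
      have h7 : K = 0 := (Nat.mul_eq_zero.mp h6).resolve_right (by omega)
      rw [h7] at h
      simp only [zero_mul, zero_add] at h
      rcases Nat.eq_zero_or_pos d with h8 | h8
      · subst h8
        simp at hi
      · rw [Nat.choose_eq_zero_of_lt (by omega)] at h
        simp at h
    · have h4 : (K * n).ascFactorial d * (q0 * (K * (n + 1)).ascFactorial d) <
          (K * n).ascFactorial d * (K * (n + 2)).ascFactorial d :=
        Nat.mul_lt_mul_of_pos_left h1 h0
      have h5 : (K * (n + 1)).ascFactorial d * (K * (n + 1)).ascFactorial d ≤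
          (q0 * (K * n).ascFactorial d) * (K * (n + 1)).ascFactorial d :=
        Nat.mul_le_mul_right _ hcon
      have h6 : (K * n).ascFactorial d * (q0 * (K * (n + 1)).ascFactorial d) =
          (q0 * (K * n).ascFactorial d) * (K * (n + 1)).ascFactorial d := by ring
      omega
  rw [e1, e2] at h3
  have h4 : d.factorial * (q0 * (K * n + d - 1).choose d) <
      d.factorial * (K * (n + 1) + d - 1).choose d := by
    calc d.factorial * (q0 * (K * n + d - 1).choose d) =
        q0 * (d.factorial * (K * n + d - 1).choose d) := by ring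
      _ < _ := h3
  exact Nat.lt_of_mul_lt_mul_left h4

theorem ramified_const {q0 d m : ℕ} (hk1 : 1 ≤ k) (hnum : d * m + k * q0 < m * q0) :
    ∀ (n N : ℕ), n + 1 ≤ d →
    q0 * ((k + 1) * n + d - 1).choose d < ((k + 1) * (n + 1) + d - 1).choose d →
    q0 + (k + 1) * (n + 1) ≤ N + 1 → ∀ ℓ : Fin (N + 1) → Fin (n + 1) → ℂ,
    AlgebraicIndependent ℚ (fun y : Fin (N + 1) × Fin (n + 1) => ℓ y.1 y.2) →
    ∀ F : ℂ → Fin (n + 1) → ℂ, Ent F → (∀ z, F z ≠ 0) → Mul m ℓ F → ∀ z z' : ℂ,
      ∃ t : ℂ, F z' = t • F z := by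
  intro n
  induction n with
  | zero =>
    intro N _ _ _ ℓ _ F _ hnz _ z z'
    have hs : ∀ j : Fin (0 + 1), j = 0 := fun j => Fin.ext (by omega)
    have h : F z 0 ≠ 0 := by
      intro h0
      apply hnz z
      funext j
      rw [hs j, h0]
      rfl
    refine ⟨F z' 0 / F z 0, ?_⟩
    funext j
    rw [hs j, Pi.smul_apply, smul_eq_mul]
    field_simp
  | succ n ih =>
    intro N hnd hcount hq ℓ hℓ F hF hnz hm z z'
    by_cases hne : ∀ i, ∃ z, UU ℓ F i z ≠ 0
    · exact const_of_ne hk1 hnd hcount hnum hℓ hq hF hnz hne hm z z'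
    · push Not at hne
      obtain ⟨i, hi⟩ := hne
      have hN : 1 ≤ N := by
        have := Nat.mul_le_mul (by omega : 1 ≤ k + 1) (by omega : 2 ≤ n + 1 + 1)
        omega
      obtain ⟨N', rfl⟩ : ∃ N', N = N' + 1 := ⟨N - 1, by omega⟩
      have h0 := ai_ne hℓ i 0
      have hF0 : ∀ z, F z 0 = -∑ j : Fin (n + 1), ℓ i j.succ / ℓ i 0 * F z j.succ := by
        intro z
        have h1 := hi z
        unfold UU at h1
        rw [Fin.sum_univ_succ] at h1
        have h2 : ∑ j : Fin (n + 1), ℓ i j.succ / ℓ i 0 * F z j.succ =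
            (∑ j : Fin (n + 1), ℓ i j.succ * F z j.succ) / ℓ i 0 := by
          rw [Finset.sum_div]
          exact Finset.sum_congr rfl fun j _ => by ring
        rw [h2]
        field_simp
        linear_combination h1
      have hexp : (k + 1) * (n + 1 + 1) = (k + 1) * (n + 1) + (k + 1) := by ring
      obtain ⟨t, ht⟩ := ih N' (by omega) (count_down hcount) (by omega) (rst ℓ i) (rst_ai hℓ i)
        (fun z j => F z j.succ) (fun j => hF j.succ) (fun z hz => by
          apply hnz z
          funext j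
          refine Fin.cases ?_ (fun j => congrFun hz j) j
          rw [hF0 z]
          have h3 : ∀ j : Fin (n + 1), F z j.succ = 0 := fun j => congrFun hz j
          simp [h3])
        (fun a z b hb => by
          rw [rst_UU h0 hi] at hb
          exact hm _ z b hb) z z'
      refine ⟨t, ?_⟩
      have h3 : ∀ j : Fin (n + 1), F z' j.succ = t * F z j.succ := fun j => congrFun ht j
      funext j
      refine Fin.cases ?_ (fun j => h3 j) j
      rw [Pi.smul_apply, smul_eq_mul, hF0 z', hF0 z, mul_neg, Finset.mul_sum]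
      congr 1
      exact Finset.sum_congr rfl fun j _ => by rw [h3 j]; ring

end Pool.Agent.V8H90.JT
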