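import Pool.Agent.V8H90.JT.Count

/-!
The polynomials for arrangements which are generic over the field of definition of a jet.
-/

set_option autoImplicit false

namespace Pool.Agent.V8H90.JT

open MvPolynomial

variable {k n : ℕ}

section lin

variable {F : Type*} [Field F]

theorem sumExtend_inl {ι : Type*} {V : Type*} [AddCommGroup V] [Module F V] {v : ι → V}
    (hs : LinearIndependent F v) (i : ι) : Module.Basis.sumExtend hs (Sum.inl i) = v i := by
  simp only [Module.Basis.sumExtend, Module.Basis.reindex_apply, Module.Basis.extend_apply_self]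
  rfl

/-- the linear group acts transitively on independent families -/
theorem exists_gl {ι : Type} [Fintype ι] {V : Type*} [AddCommGroup V] [Module F V]
    [Module.Finite F V] {p p' : ι → V} (hp : LinearIndependent F p)
    (hp' : LinearIndependent F p') : ∃ g : V ≃ₗ[F] V, ∀ m, g (p m) = p' m := by
  classical
  set b := Module.Basis.sumExtend hp with hb
  set b' := Module.Basis.sumExtend hp' with hb'
  have : Finite (ι ⊕ Module.Basis.sumExtendIndex hp) := Module.Finite.finite_basis b
  have : Finite (ι ⊕ Module.Basis.sumExtendIndex hp') := Module.Finite.finite_basis b'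
  have f1 : Finite (Module.Basis.sumExtendIndex hp) :=
    Finite.of_injective (Sum.inr : _ → ι ⊕ Module.Basis.sumExtendIndex hp) Sum.inr_injective
  have f2 : Finite (Module.Basis.sumExtendIndex hp') :=
    Finite.of_injective (Sum.inr : _ → ι ⊕ Module.Basis.sumExtendIndex hp') Sum.inr_injective
  have := Fintype.ofFinite (Module.Basis.sumExtendIndex hp)
  have := Fintype.ofFinite (Module.Basis.sumExtendIndex hp')
  have hc : Fintype.card (Module.Basis.sumExtendIndex hp) =
      Fintype.card (Module.Basis.sumExtendIndex hp') := by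
    have h1 := Module.finrank_eq_card_basis b
    have h2 := Module.finrank_eq_card_basis b'
    rw [Fintype.card_sum] at h1 h2
    omega
  set e := Fintype.equivOfCardEq hc
  refine ⟨b.equiv b' (Equiv.sumCongr (Equiv.refl ι) e), fun m => ?_⟩
  have h1 : p m = b (Sum.inl m) := (sumExtend_inl hp m).symm
  rw [h1, Module.Basis.equiv_apply]
  simp only [Equiv.sumCongr_apply, Sum.map_inl, Equiv.refl_apply]
  exact sumExtend_inl hp' m

end lin

/-- the linear change of the coordinates -/
noncomputable def chg {B : Type*} [CommRing B] (G : Fin (n + 1) → Fin (n + 1) → B)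
    (x : Fin (k + 1) × Fin (n + 1)) : MvPolynomial (Fin (k + 1) × Fin (n + 1)) B :=
  ∑ l, C (G x.2 l) * X (x.1, l)

section chg

variable {B : Type*} [CommRing B] (G : Fin (n + 1) → Fin (n + 1) → B)

theorem eval_chg (R : MvPolynomial (Fin (k + 1) × Fin (n + 1)) B)
    (w : Fin (k + 1) × Fin (n + 1) → B) :
    eval w (bind₁ (chg G) R) = eval (fun x => ∑ l, G x.2 l * w (x.1, l)) R := by
  have h := aeval_bind₁ (R := B) w (chg G) R
  rw [← coe_aeval_eq_eval, ← coe_aeval_eq_eval]
  change aeval w (bind₁ (chg G) R) = aeval _ R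
  rw [h]
  congr 2
  funext x
  simp [chg]

theorem chg_hom {R : MvPolynomial (Fin (k + 1) × Fin (n + 1)) B} {d : ℕ}
    (hR : R.IsHomogeneous d) : (bind₁ (chg G) R).IsHomogeneous d := by
  have := hR.aeval (chg G) (n := 1) fun x => IsHomogeneous.sum _ _ _ fun l _ => by
    simpa using (isHomogeneous_C (Fin (k + 1) × Fin (n + 1)) (G x.2 l)).mul
      (isHomogeneous_X B (x.1, l))
  rwa [one_mul] at this

theorem chg_inv {R : MvPolynomial (Fin (k + 1) × Fin (n + 1)) B} (hR : Inv 1 R) :
    Inv 1 (bind₁ (chg G) R) := by
  have key : ∀ U : Fin (n + 1) → PowerSeries B, ev U (bind₁ (chg G) R) =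
      ev (fun j => ∑ l, PowerSeries.C (G j l) * U l) R := by
    intro U
    unfold ev
    rw [eval_chg]
    congr 1
    congr 1
    funext x
    simp [PowerSeries.coeff_C_mul]
  intro g U hg
  rw [key, key, ← hR g (fun j => ∑ l, PowerSeries.C (G j l) * U l) hg]
  congr 1
  funext j
  rw [Finset.mul_sum]
  exact Finset.sum_congr rfl fun l _ => by ring

theorem chg_van {R : MvPolynomial (Fin (k + 1) × Fin (n + 1)) B} {a b : Fin (n + 1) → B}
    (h : ∀ l, b l = ∑ j, a j * G j l) (hR : Van a R) : Van b (bind₁ (chg G) R) := by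
  intro w hw
  rw [eval_chg]
  apply hR
  intro m
  rw [← hw m]
  simp only [h, Finset.sum_mul, Finset.mul_sum]
  rw [Finset.sum_comm]
  exact Finset.sum_congr rfl fun l _ => Finset.sum_congr rfl fun j _ => by ring

end chg

/-- There are a polynomial over the generic arrangement and a rational jet where it does not
vanish. -/
theorem exists_universal {q d : ℕ} (F : Type) [Field F] [CharZero F] (hk : k ≤ n)
    (h : q * ((k + 1) * n + d - 1).choose d < ((k + 1) * (n + 1) + d - 1).choose d) :
    ∃ (R : MvPolynomial (Fin (k + 1) × Fin (n + 1)) (MvPolynomial (Fin q × Fin (n + 1)) F))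
      (p : Fin (k + 1) → Fin (n + 1) → F), R.IsHomogeneous d ∧ Inv 1 R ∧
      (∀ i, Van (fun j => X (i, j)) R) ∧ LinearIndependent F p ∧
      eval (fun x => C (p x.1 x.2)) R ≠ 0 := by
  classical
  obtain ⟨R0, h1, h2, h3⟩ := exists_th (k := k) q d
    (fun i j => (X (i, j) : MvPolynomial (Fin q × Fin (n + 1)) F)) h
  obtain ⟨R, h4, h5, h6, h7⟩ := exists_invariant (a := fun i j =>
    (X (i, j) : MvPolynomial (Fin q × Fin (n + 1)) F)) ⟨R0, h1, h2, fun i =>
      van_of_th (X_ne_zero _) h2 (h3 i)⟩
  -- the minor
  set c : Fin (k + 1) → Fin (n + 1) := Fin.castLE (by omega) with hc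
  have hcinj : Function.Injective c := Fin.castLE_injective _
  set D : MvPolynomial (Fin (k + 1) × Fin (n + 1)) (MvPolynomial (Fin q × Fin (n + 1)) F) :=
    (Matrix.of fun m j => X (m, c j)).det with hD
  have hD0 : D ≠ 0 := by
    intro h0
    have h8 := congrArg (eval fun x : Fin (k + 1) × Fin (n + 1) =>
      if c x.1 = x.2 then (1 : MvPolynomial (Fin q × Fin (n + 1)) F) else 0) h0
    rw [hD, map_zero, RingHom.map_det] at h8
    have e : (eval fun x : Fin (k + 1) × Fin (n + 1) =>
        if c x.1 = x.2 then (1 : MvPolynomial (Fin q × Fin (n + 1)) F) else 0).mapMatrix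
        (Matrix.of fun m j => X (m, c j)) = (1 : Matrix (Fin (k + 1)) (Fin (k + 1)) _) := by
      ext1 m j
      rw [RingHom.mapMatrix_apply, Matrix.map_apply, Matrix.of_apply, eval_X, Matrix.one_apply]
      simp only [hcinj.eq_iff]
    rw [e, Matrix.det_one] at h8
    exact one_ne_zero h8
  have hRD : R * D ≠ 0 := mul_ne_zero h4 hD0
  obtain ⟨w, hw, hne⟩ : ∃ w : Fin (k + 1) × Fin (n + 1) → MvPolynomial (Fin q × Fin (n + 1)) F,
      (∀ x, w x ∈ Set.range (C : F → MvPolynomial (Fin q × Fin (n + 1)) F)) ∧
        eval w (R * D) ≠ 0 := by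
    by_contra hcon
    push Not at hcon
    apply hRD
    apply funext_set (fun _ => Set.range (C : F → MvPolynomial (Fin q × Fin (n + 1)) F))
    · exact fun _ => Set.infinite_range_of_injective (C_injective _ _)
    · intro x hx
      rw [map_zero]
      exact hcon x fun i => hx i (Set.mem_univ i)
  choose p hp using hw
  rw [map_mul] at hne
  have hw' : w = fun x => C (p x) := funext fun x => (hp x).symm
  rw [hw'] at hne
  refine ⟨R, fun m j => p (m, j), h5, h7, h6, ?_, left_ne_zero_of_mul hne⟩
  have h9 := right_ne_zero_of_mul hne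
  rw [hD, RingHom.map_det] at h9
  have e : (eval fun x : Fin (k + 1) × Fin (n + 1) =>
      (C (p x) : MvPolynomial (Fin q × Fin (n + 1)) F)).mapMatrix
      (Matrix.of fun m j => X (m, c j)) =
      (C : F →+* MvPolynomial (Fin q × Fin (n + 1)) F).mapMatrix
        (Matrix.of fun m j => p (m, c j)) := by
    ext1 m j
    rw [RingHom.mapMatrix_apply, Matrix.map_apply, Matrix.of_apply, eval_X,
      RingHom.mapMatrix_apply, Matrix.map_apply, Matrix.of_apply]
  rw [e, ← RingHom.map_det] at h9
  have h10 : (Matrix.of fun m j => p (m, c j)).det ≠ 0 := fun h0 => h9 (by rw [h0, map_zero])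
  have h11 := Matrix.linearIndependent_rows_of_det_ne_zero h10
  refine LinearIndependent.of_comp (LinearMap.funLeft F F c) ?_
  exact h11

/-- The polynomials for an arrangement which is generic over the field of definition of a jet. -/
theorem exists_good {q d : ℕ} {F : Type} [Field F] [CharZero F] {L : Type} [Field L]
    [Algebra F L] (hk : k ≤ n)
    (h : q * ((k + 1) * n + d - 1).choose d < ((k + 1) * (n + 1) + d - 1).choose d)
    {p : Fin (k + 1) → Fin (n + 1) → F} (hp : LinearIndependent F p)
    {x : Fin q → Fin (n + 1) → L}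
    (hx : AlgebraicIndependent F fun y : Fin q × Fin (n + 1) => x y.1 y.2) :
    ∃ R : MvPolynomial (Fin (k + 1) × Fin (n + 1)) L, R.IsHomogeneous d ∧ Inv 1 R ∧
      (∀ i, Van (x i) R) ∧ eval (fun y => algebraMap F L (p y.1 y.2)) R ≠ 0 := by
  classical
  obtain ⟨R, p', h1, h2, h3, h4, h5⟩ := exists_universal (q := q) (d := d) F hk h
  obtain ⟨g, hg⟩ := exists_gl hp h4
  set G : Fin (n + 1) → Fin (n + 1) → F := LinearMap.toMatrix' g.toLinearMap
    with hG
  set H : Fin (n + 1) → Fin (n + 1) → F :=
    LinearMap.toMatrix' g.symm.toLinearMap with hH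
  have hGv : ∀ (v : Fin (n + 1) → F) j, g v j = ∑ l, G j l * v l := by
    intro v j
    have := congrFun (LinearMap.toMatrix'_mulVec g.toLinearMap v) j
    rw [Matrix.mulVec, dotProduct] at this
    exact this.symm
  have hHG : ∀ l l', ∑ j, H l j * G j l' = if l = l' then 1 else 0 := by
    intro l l'
    have h6 : (LinearMap.toMatrix' g.symm.toLinearMap) *
        (LinearMap.toMatrix' g.toLinearMap) = 1 := by
      rw [← LinearMap.toMatrix'_comp]
      simp
    have h7 := congrFun (congrFun h6 l) l'
    rw [Matrix.mul_apply, Matrix.one_apply] at h7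
    exact h7
  -- the transformed arrangement
  set y : Fin q × Fin (n + 1) → L := fun z => ∑ l, algebraMap F L (H l z.2) * x z.1 l with hy
  have hyi : AlgebraicIndependent F y := by
    have hf : AlgebraicIndependent F fun z : Fin q × Fin (n + 1) =>
        (∑ l, C (H l z.2) * X (z.1, l) : MvPolynomial (Fin q × Fin (n + 1)) F) := by
      rw [AlgebraicIndependent]
      have hleft : ∀ P, aeval (fun z : Fin q × Fin (n + 1) =>
          (∑ j, C (G j z.2) * X (z.1, j) : MvPolynomial (Fin q × Fin (n + 1)) F))
          (aeval (fun z : Fin q × Fin (n + 1) =>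
          (∑ l, C (H l z.2) * X (z.1, l) : MvPolynomial (Fin q × Fin (n + 1)) F)) P) = P := by
        intro P
        rw [← AlgHom.comp_apply, comp_aeval]
        have e : (fun z : Fin q × Fin (n + 1) => aeval (fun z : Fin q × Fin (n + 1) =>
            (∑ j, C (G j z.2) * X (z.1, j) : MvPolynomial (Fin q × Fin (n + 1)) F))
            (∑ l, C (H l z.2) * X (z.1, l) : MvPolynomial (Fin q × Fin (n + 1)) F)) = X := by
          funext z
          rw [map_sum]
          simp only [map_mul, aeval_C, aeval_X, algebraMap_eq, Finset.mul_sum]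
          rw [Finset.sum_comm]
          have e2 : ∀ j, ∑ l, (C (H l z.2) * (C (G j l) * X (z.1, j)) :
              MvPolynomial (Fin q × Fin (n + 1)) F) =
              C (∑ l, G j l * H l z.2) * X (z.1, j) := by
            intro j
            rw [map_sum, Finset.sum_mul]
            exact Finset.sum_congr rfl fun l _ => by rw [C_mul]; ring
          have hGH : ∀ j, ∑ l, G j l * H l z.2 = if j = z.2 then 1 else 0 := by
            intro j
            have h6 : (LinearMap.toMatrix' g.toLinearMap) *
                (LinearMap.toMatrix' g.symm.toLinearMap) = 1 := by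
              rw [← LinearMap.toMatrix'_comp]
              simp
            have h7 := congrFun (congrFun h6 j) z.2
            rw [Matrix.mul_apply, Matrix.one_apply] at h7
            exact h7
          rw [Finset.sum_congr rfl fun j _ => e2 j]
          simp [hGH]
        rw [e]
        simp
      exact Function.LeftInverse.injective hleft
    have h6 := hx.aeval_of_algebraicIndependent hf
    convert h6 using 1
    funext z
    simp [hy]
  -- the specialization
  set φ : MvPolynomial (Fin q × Fin (n + 1)) F →+* L := (aeval y).toRingHom with hφ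
  have hφX : ∀ i j, φ (X (i, j)) = y (i, j) := fun i j => aeval_X _ _
  have hφC : ∀ c, φ (C c) = algebraMap F L c := fun c => aeval_C _ _
  have hvan : ∀ i, Van (fun j => y (i, j)) (MvPolynomial.map φ R) := by
    intro i
    have h6 := Van.map h1 (h3 i) φ (by rw [hφX]; exact hyi.ne_zero _)
    simpa only [hφX] using h6
  refine ⟨bind₁ (chg fun j l => algebraMap F L (G j l)) (MvPolynomial.map φ R),
    chg_hom _ (h1.map φ), chg_inv _ (h2.map φ), fun i => ?_, ?_⟩
  · refine chg_van _ (fun l => ?_) (hvan i)
    simp only [hy, Finset.sum_mul]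
    rw [Finset.sum_comm]
    have e : ∀ l', ∑ j, algebraMap F L (H l' j) * x i l' * algebraMap F L (G j l) =
        (if l' = l then 1 else 0) * x i l' := by
      intro l'
      have h8 := congrArg (algebraMap F L) (hHG l' l)
      rw [map_sum] at h8
      simp only [map_mul] at h8
      rw [apply_ite (algebraMap F L), map_one, map_zero] at h8
      rw [← h8, Finset.sum_mul]
      exact Finset.sum_congr rfl fun j _ => by ring
    rw [Finset.sum_congr rfl fun l' _ => e l']
    simp
  · rw [eval_chg]
    have e : (fun z : Fin (k + 1) × Fin (n + 1) => ∑ l, algebraMap F L (G z.2 l) *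
        algebraMap F L (p z.1 l)) = fun z => φ (C (p' z.1 z.2)) := by
      funext z
      rw [hφC, ← hg z.1, hGv, map_sum]
      simp only [map_mul]
    have e2 : φ (eval (fun z => C (p' z.1 z.2)) R) = eval₂ φ (fun z => φ (C (p' z.1 z.2))) R := by
      rw [← eval₂_id, eval₂_comp_left φ, RingHom.comp_id]
      rfl
    rw [e, eval_map, ← e2]
    intro h0
    apply h5
    apply (injective_iff_map_eq_zero (aeval y : MvPolynomial _ F →ₐ[F] L)).mp hyi
    exact h0

end Pool.Agent.V8H90.JT
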