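import Pool.Agent.V8H90.JT.Sel
import Pool.Agent.W601.SM.Curve

/-!
The Taylor series of curves, and the values of polynomials in their coefficients: orders of
vanishing.
-/

set_option autoImplicit false

namespace Pool.Agent.V8H90.JT

open MvPolynomial Filter Metric Real Set Topology Pool.Agent.H159R3.NV Pool.Agent.W602.NC
  Pool.Agent.W602.TL Pool.Agent.W601.SM

/-- the Taylor series -/
noncomputable def jet (f : ℂ → ℂ) (z : ℂ) : PowerSeries ℂ :=
  PowerSeries.mk fun i => iteratedDeriv i f z / (i.factorial : ℂ)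

theorem coeff_jet (f : ℂ → ℂ) (z : ℂ) (i : ℕ) :
    PowerSeries.coeff i (jet f z) = iteratedDeriv i f z / (i.factorial : ℂ) := by
  rw [jet, PowerSeries.coeff_mk]

theorem jet_congr {f g : ℂ → ℂ} {z : ℂ} (h : f =ᶠ[𝓝 z] g) : jet f z = jet g z := by
  ext i
  rw [coeff_jet, coeff_jet, h.iteratedDeriv_eq]

theorem jet_mul {f g : ℂ → ℂ} {z : ℂ} (hf : AnalyticAt ℂ f z) (hg : AnalyticAt ℂ g z) :
    jet (fun w => f w * g w) z = jet f z * jet g z := by
  ext m
  rw [PowerSeries.coeff_mul, coeff_jet, iteratedDeriv_fun_mul hf.contDiffAt hg.contDiffAt,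
    Finset.Nat.sum_antidiagonal_eq_sum_range_succ_mk, Finset.sum_div]
  refine Finset.sum_congr rfl fun i hi => ?_
  rw [coeff_jet, coeff_jet]
  have hi' : i ≤ m := Nat.lt_succ_iff.mp (Finset.mem_range.mp hi)
  have h1 : ((m.choose i : ℕ) : ℂ) * (i.factorial : ℂ) * ((m - i).factorial : ℂ) =
      (m.factorial : ℂ) := by
    exact_mod_cast Nat.choose_mul_factorial_mul_factorial hi'
  have h2 : (i.factorial : ℂ) ≠ 0 := by exact_mod_cast i.factorial_ne_zero
  have h3 : ((m - i).factorial : ℂ) ≠ 0 := by exact_mod_cast (m - i).factorial_ne_zero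
  have h4 : (m.factorial : ℂ) ≠ 0 := by exact_mod_cast m.factorial_ne_zero
  rw [← h1] at h4 ⊢
  have h5 : ((m.choose i : ℕ) : ℂ) ≠ 0 := by
    intro h0
    rw [h0, zero_mul, zero_mul] at h4
    exact h4 rfl
  field_simp

theorem iter_diff {f : ℂ → ℂ} (hf : Differentiable ℂ f) (i : ℕ) :
    Differentiable ℂ (iteratedDeriv i f) := by
  induction i with
  | zero => rw [iteratedDeriv_zero]; exact hf
  | succ i ih => rw [iteratedDeriv_succ]; exact ih.deriv

theorem jet_sum {ι : Type*} (s : Finset ι) (a : ι → ℂ) (f : ι → ℂ → ℂ) {z : ℂ}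
    (hf : ∀ i ∈ s, AnalyticAt ℂ (f i) z) :
    jet (fun w => ∑ i ∈ s, a i * f i w) z = ∑ i ∈ s, PowerSeries.C (a i) * jet (f i) z := by
  classical
  induction s using Finset.induction_on with
  | empty =>
    simp only [Finset.sum_empty]
    ext i
    rw [coeff_jet, map_zero, iteratedDeriv_const]
    split_ifs <;> simp
  | insert b s hb ih =>
    simp only [Finset.sum_insert hb]
    rw [← ih fun i hi => hf i (Finset.mem_insert_of_mem hi)]
    have hfb := hf b (Finset.mem_insert_self _ _)
    have hfs : AnalyticAt ℂ (fun w => ∑ i ∈ s, a i * f i w) z :=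
      Finset.analyticAt_fun_sum _ fun i hi =>
        analyticAt_const.mul (hf i (Finset.mem_insert_of_mem hi))
    ext i
    rw [map_add, PowerSeries.coeff_C_mul, coeff_jet, coeff_jet, coeff_jet]
    have h1 : iteratedDeriv i (fun w => a b * f b w + ∑ i ∈ s, a i * f i w) z =
        iteratedDeriv i (fun w => a b * f b w) z +
          iteratedDeriv i (fun w => ∑ i ∈ s, a i * f i w) z :=
      iteratedDeriv_fun_add (analyticAt_const.mul hfb).contDiffAt hfs.contDiffAt
    have h2 : iteratedDeriv i (fun w => a b * f b w) z = a b * iteratedDeriv i (f b) z :=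
      iteratedDeriv_const_mul_field _ _
    rw [h1, h2]
    ring

/-- the vector of the Taylor series -/
noncomputable def J {m : ℕ} (F : ℂ → Fin m → ℂ) (z : ℂ) : Fin m → PowerSeries ℂ :=
  fun j => jet (fun w => F w j) z

variable {k n : ℕ}

/-- the value of a polynomial along a curve -/
noncomputable def PP (R : MvPolynomial (Fin (k + 1) × Fin (n + 1)) ℂ) (F : ℂ → Fin (n + 1) → ℂ)
    (z : ℂ) : ℂ := ev (J F z) R

theorem PP_diff (R : MvPolynomial (Fin (k + 1) × Fin (n + 1)) ℂ) {F : ℂ → Fin (n + 1) → ℂ}
    (hF : Ent F) : Differentiable ℂ (PP R F) := by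
  have e : PP R F = fun z => ∑ s ∈ R.support, coeff s R *
      ∏ x ∈ s.support, (iteratedDeriv (x.1 : ℕ) (fun w => F w x.2) z /
        ((x.1 : ℕ).factorial : ℂ)) ^ s x := by
    funext z
    unfold PP ev
    rw [eval_eq]
    simp only [J, coeff_jet]
  rw [e]
  refine Differentiable.fun_sum fun s _ => Differentiable.const_mul ?_ _
  refine Differentiable.fun_finsetProd fun x _ => Differentiable.pow ?_ _
  exact (iter_diff (hF x.2) x.1).div_const _

section mono

/-- setting the variables with a given second index equal to zero -/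
noncomputable def kill {B : Type*} [CommRing B] (c : Fin (n + 1)) (x : Fin (k + 1) × Fin (n + 1)) :
    MvPolynomial (Fin (k + 1) × Fin (n + 1)) B := if x.2 = c then 0 else X x

theorem coeff_kill {B : Type*} [CommRing B] (c : Fin (n + 1))
    (R : MvPolynomial (Fin (k + 1) × Fin (n + 1)) B) {s : Fin (k + 1) × Fin (n + 1) →₀ ℕ}
    (hs : ∀ m, s (m, c) = 0) : coeff s (bind₁ (kill c) R) = coeff s R := by
  classical
  induction R using MvPolynomial.induction_on' with
  | monomial t a =>
    rw [bind₁_monomial]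
    by_cases ht : ∃ x ∈ t.support, x.2 = c
    · obtain ⟨x, hx, hxc⟩ := ht
      have h1 : ∏ i ∈ t.support, (kill c i : MvPolynomial (Fin (k + 1) × Fin (n + 1)) B) ^ t i =
          0 := by
        apply Finset.prod_eq_zero hx
        rw [kill, if_pos hxc, zero_pow (Finsupp.mem_support_iff.mp hx)]
      rw [h1, mul_zero, coeff_zero, coeff_monomial, if_neg]
      intro h2
      have h3 := hs x.1
      rw [← hxc, ← h2] at h3
      exact Finsupp.mem_support_iff.mp hx h3
    · push Not at ht
      have h1 : ∏ i ∈ t.support, (kill c i : MvPolynomial (Fin (k + 1) × Fin (n + 1)) B) ^ t i =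
          ∏ i ∈ t.support, X i ^ t i :=
        Finset.prod_congr rfl fun i hi => by rw [kill, if_neg (ht i hi)]
      have h2 : C a * ∏ i ∈ t.support, (X i : MvPolynomial (Fin (k + 1) × Fin (n + 1)) B) ^ t i =
          monomial t a := by
        rw [monomial_eq]
        rfl
      rw [h1, h2]
  | add p q hp hq => rw [map_add, coeff_add, hp, hq, coeff_add]

/-- every monomial contains a variable with the second index `c` -/
theorem exists_pos {B : Type*} [CommRing B] [IsDomain B] [Infinite B]
    {R : MvPolynomial (Fin (k + 1) × Fin (n + 1)) B} (c : Fin (n + 1))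
    (hR : ∀ w : Fin (k + 1) × Fin (n + 1) → B, (∀ m, w (m, c) = 0) → eval w R = 0)
    {s : Fin (k + 1) × Fin (n + 1) →₀ ℕ} (hs : s ∈ R.support) : ∃ m, s (m, c) ≠ 0 := by
  by_contra hcon
  push Not at hcon
  have h1 : bind₁ (kill c) R = 0 := by
    apply MvPolynomial.funext
    intro w
    rw [map_zero]
    have h2 : eval w (bind₁ (kill c) R) = eval (fun x => if x.2 = c then 0 else w x) R := by
      have h := aeval_bind₁ (R := B) w (kill c) R
      rw [← coe_aeval_eq_eval, ← coe_aeval_eq_eval]
      change aeval w (bind₁ (kill c) R) = aeval _ R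
      rw [h]
      congr 2
      funext x
      unfold kill
      split_ifs <;> simp
    rw [h2]
    exact hR _ fun m => if_pos rfl
  have h2 := coeff_kill c R hcon
  rw [h1, coeff_zero] at h2
  exact mem_support_iff.mp hs h2.symm

end mono

end Pool.Agent.V8H90.JT
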