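import Pool.Agent.V8H90.JT.Tau

/-!
Nondegenerate curves which are ramified over generic hyperplanes.
-/

set_option autoImplicit false

namespace Pool.Agent.V8H90.JT

open MvPolynomial Filter Metric Real Set Topology Pool.Agent.H159R3.NV Pool.Agent.W602.NC
  Pool.Agent.W602.TL Pool.Agent.W601.SM

variable {k n : ℕ}

theorem gp_of_ai {N : ℕ} {K : Type} [Field K] [Algebra K ℂ] {ℓ : Fin N → Fin (n + 1) → ℂ}
    (h : AlgebraicIndependent K fun y : Fin N × Fin (n + 1) => ℓ y.1 y.2) : GP ℓ := by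
  classical
  intro σ hσ h0
  have h1 := h.comp (fun y : Fin (n + 1) × Fin (n + 1) => (σ y.1, y.2)) fun a b hab => by
    have h2 : (σ a.1, a.2) = (σ b.1, b.2) := hab
    rw [Prod.mk.injEq] at h2
    exact Prod.ext (hσ h2.1) h2.2
  have h2 : aeval ((fun y : Fin N × Fin (n + 1) => ℓ y.1 y.2) ∘
      fun y : Fin (n + 1) × Fin (n + 1) => (σ y.1, y.2))
      (Matrix.mvPolynomialX (Fin (n + 1)) (Fin (n + 1)) K).det = 0 := by
    rw [AlgHom.map_det, ← h0]
    congr 1
    ext i j
    rw [AlgHom.mapMatrix_apply, Matrix.map_apply, Matrix.mvPolynomialX_apply, aeval_X]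
    rfl
  exact Matrix.det_mvPolynomialX_ne_zero (Fin (n + 1)) K (h1 (by rw [h2, map_zero]))

/-- the derivation `z d/dz` -/
noncomputable def th1 (f : ℂ → ℂ) : ℂ → ℂ := fun z => z * deriv f z

theorem th1_diff {f : ℂ → ℂ} (hf : Differentiable ℂ f) : Differentiable ℂ (th1 f) :=
  differentiable_id.mul hf.deriv

theorem th1_iter_diff {f : ℂ → ℂ} (hf : Differentiable ℂ f) (i : ℕ) :
    Differentiable ℂ (th1^[i] f) := by
  induction i with
  | zero => exact hf
  | succ i ih => rw [Function.iterate_succ_apply']; exact th1_diff ih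

theorem iter_ex {f : ℂ → ℂ} (hf : Differentiable ℂ f) (z0 : ℂ) (i : ℕ) :
    iteratedDeriv i (fun z => f (ex z0 z)) = fun z => th1^[i] f (ex z0 z) := by
  induction i with
  | zero => rw [iteratedDeriv_zero]; rfl
  | succ i ih =>
    rw [iteratedDeriv_succ, ih, Function.iterate_succ_apply']
    funext z
    have h := (((th1_iter_diff hf i) (ex z0 z)).hasDerivAt.comp z
      ((ex_diff z0) z).hasDerivAt).deriv
    rw [ex_deriv] at h
    rw [th1, mul_comm]
    exact h

theorem tau_le_of_sup {p q : ℕ} {U : Fin (p + 1) → ℂ → ℂ} {V : Fin (q + 1) → ℂ → ℂ}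
    (hU : ∀ i, Differentiable ℂ (U i)) (hV : ∀ i, Differentiable ℂ (V i)) {D : ℝ} (hD : 1 ≤ D)
    (h : ∀ z, sup U z ≤ D * sup V z) {s : ℝ} (hs : 0 < s) (hU0 : ∀ z, ‖z‖ = s → U 0 z ≠ 0)
    (hV0 : ∀ z, ‖z‖ = s → V 0 z ≠ 0) : tau U s ≤ Real.log D + tau V s := by
  have i1 := tau_int hU hs fun z hz => ⟨0, hU0 z hz⟩
  have i2 := tau_int hV hs fun z hz => ⟨0, hV0 z hz⟩
  have e : Real.log D + tau V s =
      Real.circleAverage (fun z => Real.log D + Real.log (sup V z)) 0 s := by
    rw [Real.circleAverage_fun_add (circleIntegrable_const _ _ _) i2, Real.circleAverage_const]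
    rfl
  rw [e]
  refine Real.circleAverage_mono i1 ((circleIntegrable_const _ _ _).add i2) fun z hz => ?_
  have hz' := sph_norm hs hz
  have hU1 := sup_pos (hU0 z hz')
  have hV1 := sup_pos (hV0 z hz')
  rw [← Real.log_mul (by linarith) hV1.ne']
  exact Real.log_le_log hU1 (h z)

theorem exists_ratio {N : ℕ} (hk1 : 1 ≤ k) (hnN : n ≤ N) {ℓ : Fin (N + 1) → Fin (n + 1) → ℂ}
    (hgp : GP ℓ) {F : ℂ → Fin (n + 1) → ℂ} (W : Fin (k + 1) → Fin (n + 1))
    (hW : ∀ c : Fin (k + 1) → ℂ, (∀ z, ∑ b, c b * F z (W b) = 0) → c = 0) :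
    ∃ j1, ∀ c : ℂ, ∃ z, UU ℓ F j1 z - c * UU ℓ F 0 z ≠ 0 := by
  classical
  by_contra hcon
  push Not at hcon
  choose c hc using hcon
  set σ : Fin (n + 1) → Fin (N + 1) := Fin.castLE (by omega) with hσ
  have hσi : Function.Injective σ := Fin.castLE_injective _
  have h1 : ((Mx ℓ σ)⁻¹ * Mx ℓ σ) = 1 :=
    Matrix.nonsing_inv_mul _ (isUnit_iff_ne_zero.mpr (hgp σ hσi))
  have h2 : ∀ z j, F z j = (∑ b, (Mx ℓ σ)⁻¹ j b * c (σ b)) * UU ℓ F 0 z := by
    intro z j
    have h4 := congrFun (congrArg (fun M => Matrix.mulVec M (F z)) h1) j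
    rw [Matrix.one_mulVec, ← Matrix.mulVec_mulVec] at h4
    rw [← h4, Finset.sum_mul]
    change ∑ b, (Mx ℓ σ)⁻¹ j b * UU ℓ F (σ b) z = _
    refine Finset.sum_congr rfl fun b _ => ?_
    rw [sub_eq_zero.mp (hc (σ b) z)]
    ring
  set e : Fin (n + 1) → ℂ := fun j => ∑ b, (Mx ℓ σ)⁻¹ j b * c (σ b) with he
  set b0 : Fin (k + 1) := 0 with hb0
  set b1 : Fin (k + 1) := Fin.last k with hb1
  have hb : b0 ≠ b1 := by
    rw [hb0, hb1]
    intro h
    have := congrArg Fin.val h
    simp at this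
    omega
  by_cases he0 : e (W b0) = 0
  · have := hW (Pi.single b0 1) (fun z => by
      rw [Finset.sum_eq_single b0 (fun b _ hb => by rw [Pi.single_eq_of_ne hb, zero_mul])
        (by simp), Pi.single_eq_same, one_mul, h2 z (W b0)]
      change e (W b0) * _ = 0
      rw [he0, zero_mul])
    have := congrFun this b0
    rw [Pi.single_eq_same] at this
    exact one_ne_zero this
  · have := hW (Pi.single b0 (e (W b1)) + Pi.single b1 (-e (W b0))) (fun z => by
      simp only [Pi.add_apply, add_mul, Finset.sum_add_distrib]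
      rw [Finset.sum_eq_single b0 (fun b _ hb => by rw [Pi.single_eq_of_ne hb, zero_mul])
        (by simp), Finset.sum_eq_single b1
        (fun b _ hb => by rw [Pi.single_eq_of_ne hb, zero_mul]) (by simp),
        Pi.single_eq_same, Pi.single_eq_same, h2 z (W b0), h2 z (W b1)]
      change e (W b1) * (e (W b0) * _) + -e (W b0) * (e (W b1) * _) = 0
      ring)
    have := congrFun this b1
    rw [Pi.add_apply, Pi.single_eq_same, Pi.single_eq_of_ne hb.symm] at this
    simp only [zero_add, Pi.zero_apply, neg_eq_zero] at this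
    exact he0 this

theorem no_curve {N q0 d m : ℕ} (hk : k ≤ n) (hk1 : 1 ≤ k) (hnd : n + 1 ≤ d)
    (hcount : q0 * ((k + 1) * n + d - 1).choose d < ((k + 1) * (n + 1) + d - 1).choose d)
    (hnum : d * m + k * q0 < m * q0) {ℓ : Fin (N + 1) → Fin (n + 1) → ℂ}
    (hℓ : AlgebraicIndependent ℚ fun y : Fin (N + 1) × Fin (n + 1) => ℓ y.1 y.2)
    (hq : q0 + (k + 1) * (n + 1) ≤ N + 1) {F : ℂ → Fin (n + 1) → ℂ} (hF : Ent F)
    (hnz : ∀ z, F z ≠ 0) (hne : ∀ i, ∃ z, UU ℓ F i z ≠ 0) (W : Fin (k + 1) → Fin (n + 1))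
    (hW : ∀ c : Fin (k + 1) → ℂ, (∀ z, ∑ b, c b * F z (W b) = 0) → c = 0)
    (hm : ∀ (i : Fin (N + 1)) (z : ℂ) (a : ℕ), analyticOrderAt (UU ℓ F i) z = a →
      a = 0 ∨ m ≤ a) : False := by
  classical
  have hdq : d < q0 := by
    by_contra hcon
    push Not at hcon
    have := Nat.mul_le_mul_left m hcon
    rw [mul_comm d m] at hnum
    omega
  obtain ⟨p, rfl⟩ : ∃ p, q0 = p + 1 := ⟨q0 - 1, by omega⟩
  have hnp : n ≤ p := by omega
  have hnN : n ≤ N := by
    have := Nat.mul_le_mul (by omega : 1 ≤ k + 1) (le_refl (n + 1))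
    omega
  have hgp := gp_of_ai hℓ
  obtain ⟨j1, hj1⟩ := exists_ratio hk1 hnN hgp W hW
  -- the Wronskian
  set P : ℂ → ℂ := fun z => (Matrix.of fun b l : Fin (k + 1) =>
    th1^[(l : ℕ)] (fun w => F w (W b)) z).det with hPd
  have hPdiff : Differentiable ℂ P := det_diff _ fun b l => th1_iter_diff (hF (W b)) l
  obtain ⟨zw, hzw⟩ : ∃ z, P z ≠ 0 := by
    obtain ⟨z, hz⟩ := wron_ne (fun (b : Fin (k + 1)) z => F (ex 0 z) (W b))
      (fun b => (hF (W b)).comp (ex_diff 0)) (by
        intro c hc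
        apply hW
        have hd : Differentiable ℂ fun z => ∑ b, c b * F z (W b) :=
          Differentiable.fun_sum fun b _ => (hF (W b)).const_mul _
        apply zero_of_punctured hd
        intro w hw
        have := hc (Complex.log w)
        simp only [ex, add_zero, Complex.exp_log hw] at this
        exact this)
    refine ⟨ex 0 z, ?_⟩
    have e : (Matrix.of fun b l : Fin (k + 1) => th1^[(l : ℕ)] (fun w => F w (W b)) (ex 0 z)) =
        Matrix.of fun b l : Fin (k + 1) => iteratedDeriv l (fun z => F (ex 0 z) (W b)) z := by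
      ext b l
      rw [Matrix.of_apply, Matrix.of_apply, iter_ex (hF (W b)) 0 l]
    rw [hPd]
    simp only
    rw [e]
    exact hz
  refine contra (UU ℓ F) (UU_diff ℓ hF) hne j1 hj1 hPdiff ⟨zw, hzw⟩ ?_
  intro z0 h0 hP0
  set F' : ℂ → Fin (n + 1) → ℂ := fun z => F (ex z0 z) with hF'
  have hF'e : Ent F' := fun j => (hF j).comp (ex_diff z0)
  have hF'nz : ∀ z, F' z ≠ 0 := fun z => hnz _
  have hUF' : (fun i z => UU ℓ F i (ex z0 z)) = UU ℓ F' := rfl
  have hord : ∀ i z, analyticOrderAt (UU ℓ F' i) z = analyticOrderAt (UU ℓ F i) (ex z0 z) := by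
    intro i z
    have e1 : UU ℓ F' i = UU ℓ F i ∘ ex z0 := rfl
    rw [e1, analyticOrderAt_comp_of_deriv_ne_zero ((ex_diff z0).analyticAt z)]
    rw [ex_deriv]
    exact ex_ne z0 z
  -- the jet
  set pj : Fin (k + 1) × Fin (n + 1) → ℂ := fun y =>
    PowerSeries.coeff (y.1 : ℕ) (J F' 0 y.2) with hpj
  have hind : LinearIndependent ℂ fun a : Fin (k + 1) => fun j : Fin (n + 1) => pj (a, j) := by
    rw [Fintype.linearIndependent_iff]
    intro g hg
    have h3 : (Matrix.of fun b l : Fin (k + 1) =>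
        th1^[(l : ℕ)] (fun w => F w (W b)) (ex z0 0)).mulVec
        (fun a => g a / ((a : ℕ).factorial : ℂ)) = 0 := by
      funext b
      have h4 := congrFun hg (W b)
      rw [Finset.sum_apply] at h4
      rw [Matrix.mulVec, dotProduct, Pi.zero_apply]
      rw [Pi.zero_apply] at h4
      refine Eq.trans (Finset.sum_congr rfl fun a _ => ?_) h4
      rw [Matrix.of_apply, Pi.smul_apply, smul_eq_mul, hpj]
      change _ = g a * PowerSeries.coeff (a : ℕ) (jet (fun w => F (ex z0 w) (W b)) 0)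
      rw [coeff_jet, iter_ex (hF (W b)) z0 a]
      ring
    have h5 := Matrix.eq_zero_of_mulVec_eq_zero hP0 h3
    intro a
    have h6 := congrFun h5 a
    rw [Pi.zero_apply, div_eq_zero_iff] at h6
    exact h6.resolve_right (by exact_mod_cast (a : ℕ).factorial_ne_zero)
  obtain ⟨K, _, _, _, p', s, hp', hs, hsai⟩ := exists_sel (q0 := p + 1) hℓ pj (by
    rw [Fintype.card_prod, Fintype.card_fin, Fintype.card_fin]
    exact hq)
  have hp'ind : LinearIndependent K fun a : Fin (k + 1) => fun j : Fin (n + 1) => p' (a, j) := by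
    rw [Fintype.linearIndependent_iff] at hind ⊢
    intro g hg a
    have h1 := hind (fun a => algebraMap K ℂ (g a)) (by
      funext j
      have h2 := congrArg (algebraMap K ℂ) (congrFun hg j)
      rw [Finset.sum_apply, map_sum, Pi.zero_apply, map_zero] at h2
      rw [Finset.sum_apply, Pi.zero_apply, ← h2]
      refine Finset.sum_congr rfl fun a _ => ?_
      rw [Pi.smul_apply, Pi.smul_apply, smul_eq_mul, smul_eq_mul, map_mul, hp']) a
    exact (map_eq_zero _).mp h1
  obtain ⟨R, hR1, hR2, hR3, hR4⟩ := exists_good (q := p + 1) (d := d) hk hcount hp'ind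
    (x := fun i => ℓ (s i)) hsai
  have hPP : PP R F' 0 ≠ 0 := by
    have e : PP R F' 0 = eval (fun y : Fin (k + 1) × Fin (n + 1) =>
        algebraMap K ℂ (p' (y.1, y.2))) R := by
      unfold PP ev
      congr 1
      congr 1
      funext y
      rw [hp']
    rw [e]
    exact hR4
  have hgps : GP fun i => ℓ (s i) := gp_of_ai hsai
  obtain ⟨A, B, hA, hB, hAB⟩ := tau_bound hgps hnp hR1 hnd hR2 hR3 hnum hF'e hF'nz
    (fun i => h0 (s i)) hPP (fun i z a ha => hm (s i) (ex z0 z) a (by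
      rw [← hord]
      exact ha))
  obtain ⟨D, hD1, hD⟩ := forms_bound hgp
  refine ⟨Real.log D + A, B, add_nonneg (Real.log_nonneg hD1) hA, hB, ?_⟩
  intro t ε ht hε hε1 hgood
  have hsub : ∀ z, ‖z‖ = t → GoodAt (UU (fun i => ℓ (s i)) F') z ε := fun z hz =>
    ⟨fun i w hw => (hgood z hz).1 (s i) w hw, fun i j w hw => (hgood z hz).2 (s i) (s j) w hw⟩
  have h1 := hAB t ε ht hε hε1 hsub
  have h2 : tau (UU ℓ F') t ≤ Real.log D + tau (UU (fun i => ℓ (s i)) F') t := by
    refine tau_le_of_sup (UU_diff ℓ hF'e) (UU_diff _ hF'e) hD1 (fun z => ?_) ht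
      (fun z hz => (hgood z hz).1 0 z (mem_closedBall_self hε.le))
      (fun z hz => (hsub z hz).1 0 z (mem_closedBall_self hε.le))
    obtain ⟨i0, hi0⟩ := sup_attained (UU ℓ F') z
    rw [hi0]
    set σ : Fin (n + 1) → Fin (p + 1) := Fin.castLE (by omega) with hσ
    have hσi : Function.Injective σ := Fin.castLE_injective _
    exact hD (fun c => s (σ c)) (hs.comp hσi) (F' z) _
      (fun c => le_sup (UU (fun i => ℓ (s i)) F') z (σ c)) i0
  change tau (UU ℓ F') t ≤ _
  linarith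

end Pool.Agent.V8H90.JT
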