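import Pool.Agent.V8H90.JT.Bd

/-!
The pointwise bound and the order of vanishing of the auxiliary function.
-/

set_option autoImplicit false

namespace Pool.Agent.V8H90.JT

open MvPolynomial Filter Metric Real Set Topology Pool.Agent.H159R3.NV Pool.Agent.W602.NC
  Pool.Agent.W602.TL Pool.Agent.W601.SM

variable {k n p : ℕ}

/-- the linear forms along the curve -/
noncomputable def UU {N : ℕ} (ℓ : Fin N → Fin (n + 1) → ℂ) (F : ℂ → Fin (n + 1) → ℂ) :
    Fin N → ℂ → ℂ := fun i z => ∑ j, ℓ i j * F z j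

theorem UU_diff {N : ℕ} (ℓ : Fin N → Fin (n + 1) → ℂ) {F : ℂ → Fin (n + 1) → ℂ} (hF : Ent F)
    (i : Fin N) : Differentiable ℂ (UU ℓ F i) :=
  Differentiable.fun_sum fun j _ => (hF j).const_mul _

/-- general position -/
def GP {N : ℕ} (ℓ : Fin N → Fin (n + 1) → ℂ) : Prop :=
  ∀ σ : Fin (n + 1) → Fin N, Function.Injective σ → (Mx ℓ σ).det ≠ 0

/-- the values in terms of the Taylor coefficients of the linear forms -/
theorem ev_Qx {N : ℕ} {ℓ : Fin N → Fin (n + 1) → ℂ} {σ : Fin (n + 1) → Fin N}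
    (hdet : (Mx ℓ σ).det ≠ 0) (R : MvPolynomial (Fin (k + 1) × Fin (n + 1)) ℂ)
    (f : Fin (n + 1) → ℂ → ℂ) {z : ℂ} (hf : ∀ j, AnalyticAt ℂ (f j) z) :
    ev (fun j => jet (f j) z) R =
      eval (fun x => PowerSeries.coeff (x.1 : ℕ) (jet (fun w => ∑ j, ℓ (σ x.2) j * f j w) z))
        (Qx ℓ σ R) := by
  unfold ev
  rw [← eval_Qx hdet R]
  congr 1
  congr 1
  funext x
  rw [jet_sum Finset.univ (ℓ (σ x.2)) f fun i _ => hf i, map_sum]
  exact Finset.sum_congr rfl fun l _ => by rw [PowerSeries.coeff_C_mul]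

theorem zero_of_forms {N : ℕ} {ℓ : Fin N → Fin (n + 1) → ℂ} {σ : Fin (n + 1) → Fin N}
    (hdet : (Mx ℓ σ).det ≠ 0) {v : Fin (n + 1) → ℂ} (h : ∀ c, ∑ j, ℓ (σ c) j * v j = 0) :
    v = 0 := by
  apply Matrix.eq_zero_of_mulVec_eq_zero hdet
  funext c
  exact h c

/-- the order of vanishing of the auxiliary function -/
theorem PP_order {ℓ : Fin (p + 1) → Fin (n + 1) → ℂ} (hg : GP ℓ) (hnp : n ≤ p)
    {R : MvPolynomial (Fin (k + 1) × Fin (n + 1)) ℂ} (hR : ∀ i, Van (ℓ i) R)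
    {F : ℂ → Fin (n + 1) → ℂ} (hF : Ent F) {z : ℂ} (hz : F z ≠ 0) (a : Fin (p + 1) → ℕ)
    (ha : ∀ i, analyticOrderAt (UU ℓ F i) z = a i) :
    ((∑ i, (a i - k) : ℕ) : ℕ∞) ≤ analyticOrderAt (PP R F) z := by
  classical
  set Z : Finset (Fin (p + 1)) := Finset.univ.filter fun i => a i ≠ 0 with hZ
  have hZ0 : ∀ i ∈ Z, UU ℓ F i z = 0 := by
    intro i hi
    rw [hZ, Finset.mem_filter] at hi
    by_contra h0
    have h1 := ((UU_diff ℓ hF i).analyticAt z).analyticOrderAt_eq_zero.mpr h0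
    rw [ha i] at h1
    exact hi.2 (by exact_mod_cast h1)
  have hZc : Z.card ≤ n + 1 := by
    by_contra hcon
    push Not at hcon
    obtain ⟨Z', hZ', hc'⟩ := Finset.exists_subset_card_eq hcon.le
    apply hz
    set σ : Fin (n + 1) → Fin (p + 1) := fun b => (Z'.equivFin.symm (Fin.cast hc'.symm b)).1
    have hσ : Function.Injective σ := fun b c h =>
      Fin.cast_injective _ (Z'.equivFin.symm.injective (Subtype.ext h))
    exact zero_of_forms (hg σ hσ) fun c => hZ0 _ (hZ' (Z'.equivFin.symm (Fin.cast hc'.symm c)).2)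
  obtain ⟨Z', hZ', -, hc'⟩ := Finset.exists_subsuperset_card_eq (Finset.subset_univ Z) hZc
    (by rw [Finset.card_univ, Fintype.card_fin]; omega)
  set σ : Fin (n + 1) → Fin (p + 1) := fun b => (Z'.equivFin.symm (Fin.cast hc'.symm b)).1 with hσd
  have hσ : Function.Injective σ := fun b c h =>
    Fin.cast_injective _ (Z'.equivFin.symm.injective (Subtype.ext h))
  have hrange : ∀ i, a i ≠ 0 → ∃ c, σ c = i := by
    intro i hi
    have h1 : i ∈ Z' := hZ' (by rw [hZ, Finset.mem_filter]; exact ⟨Finset.mem_univ _, hi⟩)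
    exact ⟨Fin.cast hc' (Z'.equivFin ⟨i, h1⟩), by simp [hσd]⟩
  have hsum : ∑ i, (a i - k) = ∑ c, (a (σ c) - k) := by
    rw [← Finset.sum_image (g := σ) (f := fun i => a i - k) fun a _ b _ h => hσ h]
    symm
    refine Finset.sum_subset (Finset.subset_univ _) fun i _ hi => ?_
    have : a i = 0 := by
      by_contra h
      obtain ⟨c, rfl⟩ := hrange i h
      exact hi (Finset.mem_image.mpr ⟨c, Finset.mem_univ _, rfl⟩)
    omega
  rw [hsum]
  have e : PP R F = fun t => eval (fun x => PowerSeries.coeff (x.1 : ℕ)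
      (jet (UU ℓ F (σ x.2)) t)) (Qx ℓ σ R) := by
    funext t
    exact ev_Qx (hg σ hσ) R (fun j w => F w j) fun j => (hF j).analyticAt t
  rw [e]
  refine pos_order (Qx_pos (hg σ hσ) hR) (fun x t => PowerSeries.coeff (x.1 : ℕ)
    (jet (UU ℓ F (σ x.2)) t)) z (fun x => ?_) (fun c => a (σ c) - k) fun m c => ?_
  · simp only [coeff_jet]
    exact ((iter_diff (UU_diff ℓ hF _) _).div_const _).analyticAt z
  · simp only [coeff_jet]
    have h1 := ord_iter ((UU_diff ℓ hF (σ c)).analyticAt z) (m : ℕ)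
    rw [ha] at h1
    have h2 : (fun t => iteratedDeriv (m : ℕ) (UU ℓ F (σ c)) t / ((m : ℕ).factorial : ℂ)) =
        iteratedDeriv (m : ℕ) (UU ℓ F (σ c)) * fun _ => (((m : ℕ).factorial : ℂ))⁻¹ := by
      funext t
      rw [Pi.mul_apply, div_eq_mul_inv]
    rw [h2, analyticOrderAt_mul ((iter_diff (UU_diff ℓ hF _) _).analyticAt z) analyticAt_const]
    refine le_trans ?_ le_self_add
    have hm : (m : ℕ) ≤ k := Nat.lt_succ_iff.mp m.2
    rw [ENat.natCast_sub, tsub_le_iff_right]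
    refine h1.trans ?_
    gcongr

/-- the bound of all forms by those of a basis -/
theorem forms_bound {ℓ : Fin (p + 1) → Fin (n + 1) → ℂ} (hg : GP ℓ) :
    ∃ D : ℝ, 1 ≤ D ∧ ∀ (σ : Fin (n + 1) → Fin (p + 1)), Function.Injective σ →
      ∀ (v : Fin (n + 1) → ℂ) (T : ℝ), (∀ c, ‖∑ j, ℓ (σ c) j * v j‖ ≤ T) →
        ∀ i, ‖∑ j, ℓ i j * v j‖ ≤ D * T := by
  classical
  obtain ⟨D, hD1, hD⟩ := Frame.exists_max (ι := (Fin (n + 1) → Fin (p + 1)) × Fin (p + 1))
    fun x => ∑ c, ‖∑ j, ℓ x.2 j * (Mx ℓ x.1)⁻¹ j c‖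
  refine ⟨D, hD1, fun σ hσ v T hT i => ?_⟩
  have hT0 : 0 ≤ T := (norm_nonneg _).trans (hT 0)
  have h1 : ((Mx ℓ σ)⁻¹ * Mx ℓ σ) = 1 :=
    Matrix.nonsing_inv_mul _ (isUnit_iff_ne_zero.mpr (hg σ hσ))
  have h2 : ∑ j, ℓ i j * v j = ∑ c, (∑ j, ℓ i j * (Mx ℓ σ)⁻¹ j c) * ∑ l, ℓ (σ c) l * v l := by
    have h3 : ∀ j, v j = ∑ c, (Mx ℓ σ)⁻¹ j c * ∑ l, ℓ (σ c) l * v l := by
      intro j
      have h4 := congrFun (congrArg (fun M => Matrix.mulVec M v) h1) j
      rw [Matrix.one_mulVec, ← Matrix.mulVec_mulVec] at h4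
      exact h4.symm
    conv_lhs => enter [2, j]; rw [h3 j]
    simp only [Finset.mul_sum, Finset.sum_mul]
    rw [Finset.sum_comm]
    refine Finset.sum_congr rfl fun c _ => ?_
    rw [Finset.sum_comm]
    exact Finset.sum_congr rfl fun l _ => Finset.sum_congr rfl fun j _ => by ring
  rw [h2]
  refine (norm_sum_le _ _).trans ?_
  calc ∑ c, ‖(∑ j, ℓ i j * (Mx ℓ σ)⁻¹ j c) * ∑ l, ℓ (σ c) l * v l‖
      ≤ ∑ c, ‖∑ j, ℓ i j * (Mx ℓ σ)⁻¹ j c‖ * T := Finset.sum_le_sum fun c _ => by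
        rw [norm_mul]
        exact mul_le_mul_of_nonneg_left (hT c) (norm_nonneg _)
    _ = (∑ c, ‖∑ j, ℓ i j * (Mx ℓ σ)⁻¹ j c‖) * T := by rw [Finset.sum_mul]
    _ ≤ D * T := mul_le_mul_of_nonneg_right (hD (σ, i)) hT0

/-- the smallest values of a function -/
theorem exists_small (hnp : n ≤ p) (g : Fin (p + 1) → ℝ) (hg : ∀ i, 0 ≤ g i) :
    ∃ (σ : Fin (n + 1) → Fin (p + 1)) (T : ℝ), Function.Injective σ ∧ (∀ c, g (σ c) ≤ T) ∧
      0 ≤ T ∧ (∏ c, g (σ c)) * T ^ (p - n) ≤ ∏ i, g i := by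
  classical
  set ρ := Tuple.sort g with hρ
  have hmono : Monotone (g ∘ ρ) := Tuple.monotone_sort g
  set e : Fin (n + 1) → Fin (p + 1) := Fin.castLE (by omega) with he
  have heinj : Function.Injective e := Fin.castLE_injective _
  set N : Fin (p + 1) := ⟨n, by omega⟩ with hN
  refine ⟨fun c => ρ (e c), g (ρ N), fun a b h => heinj (ρ.injective h), fun c => ?_, hg _, ?_⟩
  · apply hmono
    rw [Fin.le_def]
    exact Nat.lt_succ_iff.mp c.2
  · rw [← Equiv.prod_comp ρ g]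
    set I : Finset (Fin (p + 1)) := Finset.univ.image e with hI
    rw [← Finset.prod_mul_prod_compl I]
    have h1 : ∏ i ∈ I, g (ρ i) = ∏ c, g (ρ (e c)) := by
      rw [hI, Finset.prod_image fun a _ b _ h => heinj h]
    have hcard : Iᶜ.card = p - n := by
      rw [Finset.card_compl, Fintype.card_fin, hI, Finset.card_image_of_injective _ heinj,
        Finset.card_univ, Fintype.card_fin]
      omega
    rw [h1]
    refine mul_le_mul_of_nonneg_left ?_ (Finset.prod_nonneg fun c _ => hg _)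
    rw [← hcard, ← Finset.prod_const]
    refine Finset.prod_le_prod (fun _ _ => hg _) fun i hi => ?_
    apply hmono
    rw [Fin.le_def]
    by_contra hlt
    push Not at hlt
    rw [Finset.mem_compl] at hi
    apply hi
    rw [hI, Finset.mem_image]
    exact ⟨⟨i.1, by
      have : i.1 < n := hlt
      omega⟩, Finset.mem_univ _, Fin.ext rfl⟩

end Pool.Agent.V8H90.JT
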