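import Pool.Agent.V8H90.JT.Main

/-!
Curves with a small linear span: the theorem of Cartan.
-/

set_option autoImplicit false

namespace Pool.Agent.V8H90.JT

open MvPolynomial Filter Metric Real Set Topology Pool.Agent.H159R3.NV Pool.Agent.W602.NC
  Pool.Agent.W602.TL Pool.Agent.W601.SM

variable {k n : ℕ}

/-- the determinant of the Taylor coefficients -/
noncomputable def DD (r : ℕ) : MvPolynomial (Fin (r + 1) × Fin (r + 1)) ℂ :=
  (Matrix.of fun i j => X (i, j)).det

theorem eval_DD {r : ℕ} (w : Fin (r + 1) × Fin (r + 1) → ℂ) :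
    eval w (DD r) = (Matrix.of fun i j => w (i, j)).det := by
  rw [DD, RingHom.map_det]
  congr 1
  ext i j
  simp

theorem DD_hom (r : ℕ) : (DD r).IsHomogeneous (r + 1) := by
  rw [DD, Matrix.det_apply]
  refine IsHomogeneous.sum _ _ _ fun σ _ => ?_
  have h : (∏ i, (Matrix.of fun i j => (X (i, j) :
      MvPolynomial (Fin (r + 1) × Fin (r + 1)) ℂ)) (σ i) i).IsHomogeneous (r + 1) := by
    have := IsHomogeneous.prod (Finset.univ : Finset (Fin (r + 1)))
      (fun i => (X (σ i, i) : MvPolynomial (Fin (r + 1) × Fin (r + 1)) ℂ)) (fun _ => 1)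
      (fun i _ => isHomogeneous_X _ _)
    simpa using this
  rcases Int.units_eq_one_or (Equiv.Perm.sign σ) with h1 | h1
  · rw [h1, one_smul]; exact h
  · rw [h1, Units.neg_smul, one_smul]
    exact h.neg

theorem DD_van {r : ℕ} {a : Fin (r + 1) → ℂ} (ha : a ≠ 0) : Van a (DD r) := by
  intro w hw
  rw [eval_DD]
  by_contra h0
  apply ha
  apply Matrix.eq_zero_of_mulVec_eq_zero h0
  funext i
  rw [Matrix.mulVec, dotProduct, Pi.zero_apply, ← hw i]
  exact Finset.sum_congr rfl fun j _ => by rw [Matrix.of_apply, mul_comm]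

theorem DD_inv (r : ℕ) : Inv 1 (DD r) := by
  intro g U hg
  unfold ev
  rw [eval_DD, eval_DD]
  have e : (Matrix.of fun i j : Fin (r + 1) => PowerSeries.coeff (i : ℕ) (g * U j)) =
      (Matrix.of fun i l : Fin (r + 1) => if (l : ℕ) ≤ i then
        PowerSeries.coeff ((i : ℕ) - l) g else 0) *
      (Matrix.of fun i j : Fin (r + 1) => PowerSeries.coeff (i : ℕ) (U j)) := by
    ext i j
    rw [Matrix.of_apply, Matrix.mul_apply, mul_comm g, PowerSeries.coeff_mul,
      Finset.Nat.sum_antidiagonal_eq_sum_range_succ_mk]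
    simp only [Matrix.of_apply, ite_mul, zero_mul]
    rw [← Finset.sum_filter]
    symm
    refine Finset.sum_bij (fun l _ => (l : ℕ)) (fun l hl => ?_) (fun a _ b _ h => Fin.ext h)
      (fun l hl => ?_) (fun l hl => ?_)
    · rw [Finset.mem_filter] at hl
      exact Finset.mem_range.mpr (by omega)
    · have := Finset.mem_range.mp hl
      exact ⟨⟨l, by omega⟩, Finset.mem_filter.mpr ⟨Finset.mem_univ _, by
        change l ≤ (i : ℕ); omega⟩, rfl⟩
    · exact mul_comm _ _
  have h1 : (Matrix.of fun i l : Fin (r + 1) => if (l : ℕ) ≤ i then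
        PowerSeries.coeff ((i : ℕ) - l) g else 0).det = 1 := by
    rw [Matrix.det_of_isLowerTriangular _ fun i j hij => ?_]
    · apply Finset.prod_eq_one
      intro i _
      rw [Matrix.of_apply, if_pos le_rfl, Nat.sub_self]
      have h2 := (PowerSeries.X_pow_dvd_iff.mp hg) 0 one_pos
      rw [map_sub, sub_eq_zero] at h2
      rw [h2, PowerSeries.coeff_one, if_pos rfl]
    · rw [Matrix.of_apply, if_neg]
      have : i < j := hij
      have := Fin.lt_def.mp this
      omega
  change Matrix.det (Matrix.of fun i j : Fin (r + 1) => PowerSeries.coeff (i : ℕ) (g * U j)) = _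
  rw [e, Matrix.det_mul, h1, one_mul]

/-- the theorem of Cartan for ramified curves -/
theorem no_curve_wr {r N m : ℕ} (hnum : (r + 1) * m + r * (N + 1) < m * (N + 1)) (hr1 : 1 ≤ r)
    {ℓ : Fin (N + 1) → Fin (r + 1) → ℂ} (hgp : GP ℓ)
    {F : ℂ → Fin (r + 1) → ℂ} (hF : Ent F)
    (hnz : ∀ z, F z ≠ 0) (hne : ∀ i, ∃ z, UU ℓ F i z ≠ 0)
    (hW : ∀ c : Fin (r + 1) → ℂ, (∀ z, ∑ b, c b * F z b = 0) → c = 0)
    (hm : ∀ (i : Fin (N + 1)) (z : ℂ) (a : ℕ), analyticOrderAt (UU ℓ F i) z = a →
      a = 0 ∨ m ≤ a) : False := by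
  classical
  have hrN : r + 1 ≤ N + 1 := by
    by_contra hcon
    push Not at hcon
    have := Nat.mul_le_mul_left m hcon.le
    rw [mul_comm (r + 1) m] at hnum
    omega
  have hrN' : r ≤ N := by omega
  obtain ⟨j1, hj1⟩ := exists_ratio hr1 hrN' hgp id hW
  -- the Wronskian
  set P : ℂ → ℂ := fun z => (Matrix.of fun b l : Fin (r + 1) =>
    th1^[(l : ℕ)] (fun w => F w b) z).det with hPd
  have hPdiff : Differentiable ℂ P := det_diff _ fun b l => th1_iter_diff (hF b) l
  obtain ⟨zw, hzw⟩ : ∃ z, P z ≠ 0 := by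
    obtain ⟨z, hz⟩ := wron_ne (fun (b : Fin (r + 1)) z => F (ex 0 z) b)
      (fun b => (hF b).comp (ex_diff 0)) (by
        intro c hc
        apply hW
        have hd : Differentiable ℂ fun z => ∑ b, c b * F z b :=
          Differentiable.fun_sum fun b _ => (hF b).const_mul _
        apply zero_of_punctured hd
        intro w hw
        have := hc (Complex.log w)
        simp only [ex, add_zero, Complex.exp_log hw] at this
        exact this)
    refine ⟨ex 0 z, ?_⟩
    have e : (Matrix.of fun b l : Fin (r + 1) => th1^[(l : ℕ)] (fun w => F w b) (ex 0 z)) =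
        Matrix.of fun b l : Fin (r + 1) => iteratedDeriv l (fun z => F (ex 0 z) b) z := by
      ext b l
      rw [Matrix.of_apply, Matrix.of_apply, iter_ex (hF b) 0 l]
    rw [hPd]
    simp only
    rw [e]
    exact hz
  refine contra (UU ℓ F) (UU_diff ℓ hF) hne j1 hj1 hPdiff ⟨zw, hzw⟩ ?_
  intro z0 h0 hP0
  set F' : ℂ → Fin (r + 1) → ℂ := fun z => F (ex z0 z) with hF'
  have hF'e : Ent F' := fun j => (hF j).comp (ex_diff z0)
  have hF'nz : ∀ z, F' z ≠ 0 := fun z => hnz _
  have hord : ∀ i z, analyticOrderAt (UU ℓ F' i) z = analyticOrderAt (UU ℓ F i) (ex z0 z) := by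
    intro i z
    have e1 : UU ℓ F' i = UU ℓ F i ∘ ex z0 := rfl
    rw [e1, analyticOrderAt_comp_of_deriv_ne_zero ((ex_diff z0).analyticAt z)]
    rw [ex_deriv]
    exact ex_ne z0 z
  have hPP : PP (DD r) F' 0 ≠ 0 := by
    unfold PP ev
    rw [eval_DD]
    intro h1
    apply hP0
    have e : (Matrix.of fun b l : Fin (r + 1) => th1^[(l : ℕ)] (fun w => F w b) (ex z0 0)) =
        Matrix.of fun b l : Fin (r + 1) => ((l : ℕ).factorial : ℂ) *
          (Matrix.of fun i j : Fin (r + 1) =>
            PowerSeries.coeff (i : ℕ) (J F' 0 j)).transpose b l := by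
      ext b l
      simp only [Matrix.of_apply, Matrix.transpose_apply]
      change _ = _ * PowerSeries.coeff (l : ℕ) (jet (fun w => F (ex z0 w) b) 0)
      rw [coeff_jet, iter_ex (hF b) z0 l]
      have : ((l : ℕ).factorial : ℂ) ≠ 0 := by exact_mod_cast (l : ℕ).factorial_ne_zero
      field_simp
    rw [hPd]
    simp only
    rw [e, Matrix.det_mul_row, Matrix.det_transpose, h1, mul_zero]
  refine tau_bound hgp hrN' (DD_hom r) le_rfl (DD_inv r) (fun i => DD_van ?_) hnum hF'e hF'nz
    h0 hPP fun i z a ha => hm i (ex z0 z) a (by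
      rw [← hord]
      exact ha)
  intro hi
  obtain ⟨z, hz⟩ := hne i
  apply hz
  unfold UU
  rw [hi]
  simp

end Pool.Agent.V8H90.JT
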