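import Pool.Agent.V8H90.JT.Span

/-!
All curves which are ramified over sufficiently many generic hyperplanes are constant.
-/

set_option autoImplicit false

namespace Pool.Agent.V8H90.JT

open MvPolynomial Filter Metric Real Set Topology Pool.Agent.H159R3.NV Pool.Agent.W602.NC
  Pool.Agent.W602.TL Pool.Agent.W601.SM IntermediateField.algebraAdjoinAdjoin

variable {k n : ℕ}

theorem ai_sub {K L ι : Type*} [CommRing K] [CommRing L] [Algebra K L] {x : ι → L}
    (hx : AlgebraicIndependent K x) (c : ι → K) :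
    AlgebraicIndependent K fun i => x i - algebraMap K L (c i) := by
  have h1 : (aeval fun i => x i - algebraMap K L (c i) : MvPolynomial ι K →ₐ[K] L) =
      (aeval x : MvPolynomial ι K →ₐ[K] L).comp (bind₁ fun i => X i - C (c i)) := by
    apply MvPolynomial.algHom_ext
    intro i
    rw [aeval_X, AlgHom.comp_apply, bind₁_X_right, map_sub, aeval_X, aeval_C]
  have h2 : (bind₁ fun i => (X i + C (c i) : MvPolynomial ι K)).comp
      (bind₁ fun i => X i - C (c i)) = AlgHom.id K _ := by
    apply MvPolynomial.algHom_ext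
    intro i
    rw [AlgHom.comp_apply, bind₁_X_right, map_sub, bind₁_X_right, bind₁_C_right, AlgHom.id_apply]
    ring
  have h3 : Function.Injective (bind₁ fun i => (X i - C (c i) : MvPolynomial ι K)) := by
    intro a b hab
    have h4 := congrArg (bind₁ fun i => (X i + C (c i) : MvPolynomial ι K)) hab
    have h5 : ∀ a, bind₁ (fun i => (X i + C (c i) : MvPolynomial ι K))
        (bind₁ (fun i => (X i - C (c i) : MvPolynomial ι K)) a) = a := fun a =>
      congrArg (fun f => f a) h2
    rwa [h5, h5] at h4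
  have h6 : Function.Injective ((aeval x : MvPolynomial ι K →ₐ[K] L).comp
      (bind₁ fun i => (X i - C (c i) : MvPolynomial ι K))) := by
    rw [AlgHom.coe_comp]
    exact Function.Injective.comp hx h3
  rw [← h1] at h6
  exact h6

/-- the restriction of the arrangement to one of its members -/
noncomputable def rst {N : ℕ} (ℓ : Fin (N + 1) → Fin (n + 2) → ℂ) (i : Fin (N + 1))
    (a : Fin N) (j : Fin (n + 1)) : ℂ :=
  ℓ (i.succAbove a) j.succ - ℓ (i.succAbove a) 0 * (ℓ i j.succ / ℓ i 0)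

theorem rst_ai {N : ℕ} {ℓ : Fin (N + 1) → Fin (n + 2) → ℂ}
    (hℓ : AlgebraicIndependent ℚ fun y : Fin (N + 1) × Fin (n + 2) => ℓ y.1 y.2)
    (i : Fin (N + 1)) :
    AlgebraicIndependent ℚ fun y : Fin N × Fin (n + 1) => rst ℓ i y.1 y.2 := by
  classical
  have h1 : AlgebraicIndependent ℚ (Sum.elim
      (fun y : Fin N × Fin (n + 1) => ℓ (i.succAbove y.1) y.2.succ)
      (Sum.elim (fun j : Fin (n + 2) => ℓ i j) fun a : Fin N => ℓ (i.succAbove a) 0)) := by
    have h2 := hℓ.comp (Sum.elim (fun y : Fin N × Fin (n + 1) => (i.succAbove y.1, y.2.succ))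
      (Sum.elim (fun j : Fin (n + 2) => (i, j)) fun a : Fin N => (i.succAbove a, 0))) (by
        rintro (x | x | x) (y | y | y) h <;>
          simp only [Sum.elim_inl, Sum.elim_inr, Prod.mk.injEq] at h
        · rw [Fin.succAbove_right_inj, Fin.succ_inj] at h
          exact congrArg Sum.inl (Prod.ext h.1 h.2)
        · exact absurd h.1 (Fin.succAbove_ne i _)
        · exact absurd h.2 (Fin.succ_ne_zero _)
        · exact absurd h.1.symm (Fin.succAbove_ne i _)
        · rw [h.2]
        · exact absurd h.1.symm (Fin.succAbove_ne i _)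
        · exact absurd h.2.symm (Fin.succ_ne_zero _)
        · exact absurd h.1 (Fin.succAbove_ne i _)
        · rw [Fin.succAbove_right_inj] at h
          rw [h.1])
    convert h2 using 1
    funext x
    rcases x with x | x | x <;> rfl
  obtain ⟨-, h3⟩ := AlgebraicIndependent.sumElim_iff.mp h1
  set T : Set ℂ := range (Sum.elim (fun j : Fin (n + 2) => ℓ i j)
    fun a : Fin N => ℓ (i.succAbove a) 0) with hT
  have h4 : AlgebraicIndependent (IntermediateField.adjoin ℚ T)
      fun y : Fin N × Fin (n + 1) => ℓ (i.succAbove y.1) y.2.succ := h3.extendScalars _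
  have hm1 : ∀ j, ℓ i j ∈ IntermediateField.adjoin ℚ T := fun j =>
    IntermediateField.subset_adjoin ℚ T ⟨Sum.inl j, rfl⟩
  have hm2 : ∀ a, ℓ (i.succAbove a) 0 ∈ IntermediateField.adjoin ℚ T := fun a =>
    IntermediateField.subset_adjoin ℚ T ⟨Sum.inr a, rfl⟩
  have h5 := ai_sub h4 fun y => (⟨ℓ (i.succAbove y.1) 0 * (ℓ i y.2.succ / ℓ i 0),
    mul_mem (hm2 _) (div_mem (hm1 _) (hm1 _))⟩ : IntermediateField.adjoin ℚ T)
  exact h5.restrictScalars (algebraMap ℚ (IntermediateField.adjoin ℚ T)).injective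

theorem ai_ne {N : ℕ} {ℓ : Fin N → Fin (n + 1) → ℂ}
    (hℓ : AlgebraicIndependent ℚ fun y : Fin N × Fin (n + 1) => ℓ y.1 y.2) (i : Fin N)
    (j : Fin (n + 1)) : ℓ i j ≠ 0 := hℓ.ne_zero (i, j)

theorem rst_UU {N : ℕ} {ℓ : Fin (N + 1) → Fin (n + 2) → ℂ} {i : Fin (N + 1)} (h0 : ℓ i 0 ≠ 0)
    {F : ℂ → Fin (n + 2) → ℂ} (hi : ∀ z, UU ℓ F i z = 0) (a : Fin N) :
    UU (rst ℓ i) (fun z j => F z j.succ) a = UU ℓ F (i.succAbove a) := by
  funext z
  have h1 := hi z
  unfold UU at h1 ⊢
  unfold rst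
  rw [Fin.sum_univ_succ] at h1
  rw [Fin.sum_univ_succ (fun j => ℓ (i.succAbove a) j * F z j)]
  simp only [sub_mul, Finset.sum_sub_distrib]
  have h2 : ∑ j : Fin (n + 1), ℓ (i.succAbove a) 0 * (ℓ i j.succ / ℓ i 0) * F z j.succ =
      ℓ (i.succAbove a) 0 / ℓ i 0 * ∑ j : Fin (n + 1), ℓ i j.succ * F z j.succ := by
    rw [Finset.mul_sum]
    exact Finset.sum_congr rfl fun j _ => by ring
  rw [h2]
  have h3 : ∑ j : Fin (n + 1), ℓ i j.succ * F z j.succ = -(ℓ i 0 * F z 0) := by
    linear_combination h1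
  rw [h3]
  field_simp
  ring

/-- the minors of a generic matrix restricted to a subspace -/
theorem gp_comp {K : Type} [Field K] [Algebra K ℂ] {N r : ℕ} {ℓ : Fin N → Fin (n + 1) → ℂ}
    (h : AlgebraicIndependent K fun y : Fin N × Fin (n + 1) => ℓ y.1 y.2)
    (c : Fin (n + 1) → Fin (r + 1) → K) (W : Fin (r + 1) → Fin (n + 1))
    (hc : ∀ a b, c (W a) b = if a = b then 1 else 0) :
    GP fun i b => ∑ j, ℓ i j * algebraMap K ℂ (c j b) := by
  classical
  intro σ hσ h0
  set D : MvPolynomial (Fin N × Fin (n + 1)) K :=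
    (Matrix.of fun a b : Fin (r + 1) => ∑ j, X (σ a, j) * C (c j b)).det with hD
  have h1 : aeval (fun y : Fin N × Fin (n + 1) => ℓ y.1 y.2) D = 0 := by
    rw [hD, AlgHom.map_det, ← h0]
    congr 1
    ext a b
    rw [AlgHom.mapMatrix_apply, Matrix.map_apply, Matrix.of_apply, map_sum]
    change _ = ∑ j, ℓ (σ a) j * algebraMap K ℂ (c j b)
    refine Finset.sum_congr rfl fun j _ => ?_
    rw [map_mul, aeval_X, aeval_C]
  have h2 : D = 0 := h (by rw [h1, map_zero])
  have h3 : eval (fun y : Fin N × Fin (n + 1) =>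
      if ∃ a, σ a = y.1 ∧ W a = y.2 then (1 : K) else 0) D = 1 := by
    rw [hD, RingHom.map_det]
    have e : (eval fun y : Fin N × Fin (n + 1) =>
        if ∃ a, σ a = y.1 ∧ W a = y.2 then (1 : K) else 0).mapMatrix
        (Matrix.of fun a b : Fin (r + 1) => ∑ j, X (σ a, j) * C (c j b)) =
        (1 : Matrix (Fin (r + 1)) (Fin (r + 1)) K) := by
      ext a b
      rw [RingHom.mapMatrix_apply, Matrix.map_apply, Matrix.of_apply, map_sum, Matrix.one_apply,
        ← hc a b]
      rw [Finset.sum_eq_single (W a)]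
      · rw [map_mul, eval_X, eval_C, if_pos ⟨a, rfl, rfl⟩, one_mul]
      · intro j _ hj
        rw [map_mul, eval_X, if_neg, zero_mul]
        rintro ⟨a', h4, h5⟩
        rw [hσ h4] at h5
        exact hj h5.symm
      · intro h4
        exact absurd (Finset.mem_univ _) h4
    rw [e, Matrix.det_one]
  rw [h2, map_zero] at h3
  exact zero_ne_one h3

end Pool.Agent.V8H90.JT
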