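import Pool.Agent.V8H90.JT.Point2
import Pool.Agent.W601.SM.Core

/-!
The bound for the mean on good circles.
-/

set_option autoImplicit false

namespace Pool.Agent.V8H90.JT

open MvPolynomial Filter Metric Real Set Topology Pool.Agent.H159R3.NV Pool.Agent.W602.NC
  Pool.Agent.W602.TL Pool.Agent.W601.SM

variable {k n p : ℕ}

theorem pow_ineq {X σ R C e : ℝ} {q b A B κ N : ℕ} (hX : 0 ≤ X) (hσ : 0 < σ) (hR : 0 ≤ R)
    (hC : 0 ≤ C) (he : 0 ≤ e) (hBA : B ≤ A) (hκ : κ + b * A + B * q = A * q)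
    (hRσ : R ≤ σ ^ q) (h : X * σ ^ q ≤ C * e ^ N * σ ^ b * R) :
    X ^ A * σ ^ κ ≤ C ^ A * e ^ (N * A) * R ^ (A - B) := by
  have h1 : (X * σ ^ q) ^ A ≤ (C * e ^ N * σ ^ b * R) ^ A :=
    pow_le_pow_left₀ (by positivity) h A
  have h2 : R ^ A ≤ R ^ (A - B) * (σ ^ q) ^ B := by
    have e1 : R ^ A = R ^ (A - B) * R ^ B := by rw [← pow_add, Nat.sub_add_cancel hBA]
    rw [e1]
    exact mul_le_mul_of_nonneg_left (pow_le_pow_left₀ hR hRσ B) (pow_nonneg hR _)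
  have hpos : 0 < σ ^ (b * A + B * q) := pow_pos hσ _
  have h3 : (X ^ A * σ ^ κ) * σ ^ (b * A + B * q)
      ≤ (C ^ A * e ^ (N * A) * R ^ (A - B)) * σ ^ (b * A + B * q) := by
    calc (X ^ A * σ ^ κ) * σ ^ (b * A + B * q) = (X * σ ^ q) ^ A := by
          rw [mul_assoc, ← pow_add, ← add_assoc, hκ, mul_pow, ← pow_mul, mul_comm A q]
      _ ≤ (C * e ^ N * σ ^ b * R) ^ A := h1
      _ = (C ^ A * e ^ (N * A) * σ ^ (b * A)) * R ^ A := by
          rw [mul_pow, mul_pow, mul_pow, ← pow_mul, ← pow_mul]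
      _ ≤ (C ^ A * e ^ (N * A) * σ ^ (b * A)) * (R ^ (A - B) * (σ ^ q) ^ B) :=
          mul_le_mul_of_nonneg_left h2 (by positivity)
      _ = _ := by rw [← pow_mul, mul_comm q B, pow_add]; ring
  exact le_of_mul_le_mul_right h3 hpos

theorem tau_bound {ℓ : Fin (p + 1) → Fin (n + 1) → ℂ} (hg : GP ℓ) (hnp : n ≤ p)
    {R : MvPolynomial (Fin (k + 1) × Fin (n + 1)) ℂ} {d : ℕ} (hd : R.IsHomogeneous d)
    (hnd : n + 1 ≤ d) (hI : Inv 1 R) (hR : ∀ i, Van (ℓ i) R) {m : ℕ}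
    (hnum : d * m + k * (p + 1) < m * (p + 1))
    {F : ℂ → Fin (n + 1) → ℂ} (hF : Ent F) (hnz : ∀ z, F z ≠ 0)
    (hU0 : ∀ i, UU ℓ F i 0 ≠ 0) (hP0 : PP R F 0 ≠ 0)
    (hm : ∀ (i : Fin (p + 1)) (z : ℂ) (a : ℕ), analyticOrderAt (UU ℓ F i) z = a →
      a = 0 ∨ m ≤ a) :
    ∃ A B : ℝ, 0 ≤ A ∧ 0 ≤ B ∧ ∀ s ε : ℝ, 0 < s → 0 < ε → ε ≤ 1 →
      (∀ z, ‖z‖ = s → GoodAt (UU ℓ F) z ε) → tau (UU ℓ F) s ≤ A + B * Real.log (1 / ε) := by
  have hkm : k ≤ m := by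
    by_contra hcon
    push Not at hcon
    have h1 : m * (p + 1) ≤ k * (p + 1) := Nat.mul_le_mul_right _ hcon.le
    omega
  obtain ⟨κ, hκ0, hκ⟩ : ∃ κ, 0 < κ ∧ κ + d * m + k * (p + 1) = m * (p + 1) :=
    ⟨m * (p + 1) - (d * m + k * (p + 1)), by omega, by omega⟩
  obtain ⟨C, hC1, hC⟩ := PP_point hg hnp hd hnd hI hR
  have hUd := UU_diff ℓ hF
  have hPd : Differentiable ℂ fun z => PP R F z ^ m := (PP_diff R hF).pow m
  refine circle (c := m - k) (d := k * d * m) hκ0 (one_le_pow₀ hC1 : 1 ≤ C ^ m) hUd hU0 hPd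
    (pow_ne_zero _ hP0) ?_ ?_
  · intro z
    set a : Fin (p + 1) → ℕ := fun i => (analyticOrderAt (UU ℓ F i) z).toNat with ha
    have hai : ∀ i, analyticOrderAt (UU ℓ F i) z = a i := fun i =>
      ord_fin (hUd i) ⟨0, hU0 i⟩ z
    have h1 : analyticOrderAt (fun z => ∏ i, UU ℓ F i z ^ (m - k)) z
        = (((m - k) * ∑ i, a i : ℕ) : ℕ∞) := by
      rw [ord_prod _ (fun i z => UU ℓ F i z ^ (m - k)) z
        (fun i _ => ((hUd i).analyticAt z).pow (m - k)), Finset.mul_sum]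
      push_cast
      refine Finset.sum_congr rfl fun i _ => ?_
      have e : (fun z => UU ℓ F i z ^ (m - k)) = UU ℓ F i ^ (m - k) := rfl
      rw [e, analyticOrderAt_pow ((hUd i).analyticAt z), nsmul_eq_mul, hai i]
      simp
    have h2 := PP_order hg hnp hR hF (hnz z) a hai
    have h3 : (m - k) * ∑ i, a i ≤ m * ∑ i, (a i - k) := by
      rw [Finset.mul_sum, Finset.mul_sum]
      refine Finset.sum_le_sum fun i _ => ?_
      rcases hm i z (a i) (hai i) with h | h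
      · rw [h]; simp
      · have e1 : (m - k) * a i + k * a i = m * a i := by
          rw [← add_mul, Nat.sub_add_cancel hkm]
        have e2 : m * (a i - k) + m * k = m * a i := by
          rw [← mul_add, Nat.sub_add_cancel (hkm.trans h)]
        have e3 : m * k ≤ k * a i := by
          rw [mul_comm m k]
          exact Nat.mul_le_mul_left k h
        omega
    have e3 : (fun z => PP R F z ^ m) = PP R F ^ m := rfl
    rw [h1, e3, analyticOrderAt_pow ((PP_diff R hF).analyticAt z)]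
    calc (((m - k) * ∑ i, a i : ℕ) : ℕ∞) ≤ ((m * ∑ i, (a i - k) : ℕ) : ℕ∞) := by
          exact_mod_cast h3
      _ = m • ((∑ i, (a i - k) : ℕ) : ℕ∞) := by rw [nsmul_eq_mul]; push_cast; rfl
      _ ≤ _ := nsmul_le_nsmul_right h2 _
  · intro z ε hε hε1 hgood
    have h1 := hC F hF z ε hε hε1 hgood
    have hsp : 0 < sup (UU ℓ F) z := sup_pos (hgood.1 0 z (mem_closedBall_self hε.le))
    have hle : ∏ i, ‖UU ℓ F i z‖ ≤ sup (UU ℓ F) z ^ (p + 1) := by
      calc ∏ i, ‖UU ℓ F i z‖ ≤ ∏ _i : Fin (p + 1), sup (UU ℓ F) z :=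
            Finset.prod_le_prod (fun _ _ => norm_nonneg _) fun i _ => le_sup _ z i
        _ = _ := by simp
    have h2 := pow_ineq (norm_nonneg (PP R F z)) hsp
      (Finset.prod_nonneg fun i _ => norm_nonneg _) (by linarith : (0 : ℝ) ≤ C)
      (by positivity : (0 : ℝ) ≤ 1 / ε) hkm hκ hle h1
    rw [norm_pow, Finset.prod_pow]
    exact h2

end Pool.Agent.V8H90.JT
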